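import Pool.Agent.TH275.RF.Zeros
import Pool.Agent.W960.HR.Exp

/-! The expected number of zeros of a random polynomial field with few monomials. -/

open Set MeasureTheory Topology Filter
open scoped ENNReal

namespace Pool.Agent.TH275.RF

noncomputable section

open Pool.Agent.H709R2 (fld)
open Pool.Agent.W960.HR (NZ)

variable {S : Finset (ℕ × ℕ)}

/-- a sign -/
def sg (b : Bool) : ℝ := if b then 1 else -1

lemma abs_sg (b : Bool) : |sg b| = 1 := by cases b <;> simp [sg]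

lemma exists_sg {x : ℝ} (hx : x ≠ 0) : ∃ b, x = sg b * Real.exp (Real.log |x|) := by
  rw [Real.exp_log (abs_pos.2 hx)]
  rcases lt_or_gt_of_ne hx with h | h
  · exact ⟨false, by rw [abs_of_neg h]; simp [sg]⟩
  · exact ⟨true, by rw [abs_of_pos h]; simp [sg]⟩

/-- signs of the monomials in a quadrant -/
def qs (S : Finset (ℕ × ℕ)) (b : Bool × Bool) (m : S) : ℝ := sg b.1 ^ m.1.1 * sg b.2 ^ m.1.2

lemma abs_qs (b : Bool × Bool) (m : S) : |qs S b m| = 1 := by
  unfold qs
  rw [abs_mul, abs_pow, abs_pow, abs_sg, abs_sg, one_pow, one_pow, one_mul]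

/-- the exponents as real vectors -/
def ex (S : Finset (ℕ × ℕ)) (m : S) : ℝ × ℝ := ((m.1.1 : ℝ), (m.1.2 : ℝ))

lemma fld_quadrant (c : S → ℝ × ℝ) (b : Bool × Bool) (q : ℝ × ℝ) :
    fld c (sg b.1 * Real.exp q.1, sg b.2 * Real.exp q.2) = ES (qs S b) (ex S) c q := by
  unfold fld ES
  refine Finset.sum_congr rfl fun m _ => ?_
  congr 1
  unfold qs ex ip
  simp only
  rw [mul_pow, mul_pow, ← Real.exp_nat_mul, ← Real.exp_nat_mul, Real.exp_add]
  ring

/-- zeros on the axes -/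
def Ax (c : S → ℝ × ℝ) : Set (ℝ × ℝ) := {z | (z.1 = 0 ∨ z.2 = 0) ∧ fld c z = 0}

lemma NZ_le_sum (c : S → ℝ × ℝ) :
    NZ c ≤ ((Ax c).encard : ℝ≥0∞) +
      ∑ b : Bool × Bool, ({q | ES (qs S b) (ex S) c q = 0}.encard : ℝ≥0∞) := by
  unfold NZ
  have h1 : {z : ℝ × ℝ | fld c z = 0} ⊆ Ax c ∪ ⋃ b : Bool × Bool,
      (fun q : ℝ × ℝ => (sg b.1 * Real.exp q.1, sg b.2 * Real.exp q.2)) ''
        {q | ES (qs S b) (ex S) c q = 0} := by
    intro z hz
    by_cases h : z.1 = 0 ∨ z.2 = 0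
    · exact Or.inl ⟨h, hz⟩
    · push Not at h
      obtain ⟨b1, h1⟩ := exists_sg h.1
      obtain ⟨b2, h2⟩ := exists_sg h.2
      right
      refine mem_iUnion.2 ⟨(b1, b2), (Real.log |z.1|, Real.log |z.2|), ?_, ?_⟩
      · show ES (qs S (b1, b2)) (ex S) c (Real.log |z.1|, Real.log |z.2|) = 0
        rw [← fld_quadrant]
        simp only
        rw [← h1, ← h2]
        exact hz
      · simp only
        rw [← h1, ← h2]
  refine (ENat.toENNReal_le.2 (encard_le_encard h1)).trans ?_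
  have h2 := ENat.toENNReal_le.2 (encard_union_le (Ax c) (⋃ b : Bool × Bool,
      (fun q : ℝ × ℝ => (sg b.1 * Real.exp q.1, sg b.2 * Real.exp q.2)) ''
        {q | ES (qs S b) (ex S) c q = 0}))
  rw [ENat.toENNReal_add] at h2
  refine h2.trans (add_le_add le_rfl ((encard_iUnion_le _).trans ?_))
  exact Finset.sum_le_sum fun b _ => ENat.toENNReal_le.2 (encard_image_le _ _)

/-- smooth curves have measure zero -/
lemma volume_curve {h h' : ℝ → ℝ × ℝ} (hd : ∀ t, HasDerivAt h (h' t) t) :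
    volume (range h) = 0 := by
  have e : range h = (fun q : ℝ × ℝ => h q.1) '' univ := by
    ext w
    simp only [mem_range, image_univ, Prod.exists, exists_const]
  rw [e]
  refine addHaar_image_eq_zero_of_det_fderivWithin_eq_zero volume
    (f' := fun q => (ContinuousLinearMap.fst ℝ ℝ ℝ).smulRight (h' q.1)) (fun q _ => ?_) ?_
  · have h1 : HasFDerivAt (fun q : ℝ × ℝ => h q.1)
        ((ContinuousLinearMap.toSpanSingleton ℝ (h' q.1)).comp (ContinuousLinearMap.fst ℝ ℝ ℝ)) q :=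
      (hd q.1).hasFDerivAt.comp q hasFDerivAt_fst
    have h2 : (ContinuousLinearMap.toSpanSingleton ℝ (h' q.1)).comp (ContinuousLinearMap.fst ℝ ℝ ℝ) =
        (ContinuousLinearMap.fst ℝ ℝ ℝ).smulRight (h' q.1) := by
      ext <;> simp
    rw [h2] at h1
    exact h1.hasFDerivWithinAt
  · intro q _
    rw [det_plane]
    simp

/-- the zeros of the field on a smooth curve through all of which the constant monomial is one -/
lemma null_curve (h00 : (0, 0) ∈ S) (μ : S → Measure (ℝ × ℝ)) [∀ m, IsProbabilityMeasure (μ m)]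
    {D : ℝ≥0∞} (hD : ∀ m (B : Set (ℝ × ℝ)), μ m B ≤ D * volume B) {κ : ℝ → ℝ × ℝ}
    {κ' : ℝ → ℝ × ℝ} (hκ : ∀ t, HasDerivAt κ (κ' t) t) :
    Measure.pi μ {c | ∃ t : ℝ, fld c (κ t) = 0} = 0 := by
  classical
  have hcont : Continuous κ := continuous_iff_continuousAt.2 fun t => (hκ t).continuousAt
  have hfc : Continuous fun w : (S → ℝ × ℝ) × ℝ => fld w.1 (κ w.2) := by
    unfold fld
    fun_prop
  set m₀ : S := ⟨(0, 0), h00⟩ with hm₀
  have hA : MeasurableSet {c : S → ℝ × ℝ | ∃ t : ℝ, fld c (κ t) = 0} := by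
    have h1 : {c : S → ℝ × ℝ | ∃ t : ℝ, fld c (κ t) = 0} =
        ⋃ n : ℕ, {c | ∃ q ∈ (Icc (-(n:ℝ)) n) ×ˢ ({0} : Set ℝ),
          (c, q) ∈ {w : (S → ℝ × ℝ) × (ℝ × ℝ) | fld w.1 (κ w.2.1) = 0}} := by
      ext c
      simp only [mem_ofPred_eq, mem_iUnion, Prod.exists, mem_prod, mem_singleton_iff]
      constructor
      · rintro ⟨t, ht⟩
        obtain ⟨n, hn⟩ := exists_nat_ge |t|
        exact ⟨n, t, 0, ⟨abs_le.1 hn, rfl⟩, ht⟩
      · rintro ⟨n, t, s, -, ht⟩
        exact ⟨t, ht⟩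
    rw [h1]
    refine MeasurableSet.iUnion fun n => (isClosed_exists (isCompact_Icc.prod isCompact_singleton)
      (isClosed_eq ?_ continuous_const)).measurableSet
    exact hfc.comp (continuous_fst.prodMk (continuous_fst.comp continuous_snd))
  rw [← lintegral_indicator_one hA, resample μ (measurable_one.indicator hA) m₀]
  have h1 : ∀ c : S → ℝ × ℝ, ∫⁻ w, {c : S → ℝ × ℝ | ∃ t : ℝ, fld c (κ t) = 0}.indicator 1
      (Function.update c m₀ w) ∂μ m₀ = 0 := by
    intro c
    have e1 : (fun w => {c : S → ℝ × ℝ | ∃ t : ℝ, fld c (κ t) = 0}.indicator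
        (1 : (S → ℝ × ℝ) → ℝ≥0∞) (Function.update c m₀ w)) =
        {w : ℝ × ℝ | Function.update c m₀ w ∈ {c : S → ℝ × ℝ | ∃ t : ℝ, fld c (κ t) = 0}}.indicator
          1 := by
      funext w
      by_cases hw : Function.update c m₀ w ∈ {c : S → ℝ × ℝ | ∃ t : ℝ, fld c (κ t) = 0}
      · rw [indicator_of_mem hw, indicator_of_mem (show w ∈ {w : ℝ × ℝ | Function.update c m₀ w ∈
          {c : S → ℝ × ℝ | ∃ t : ℝ, fld c (κ t) = 0}} from hw)]
        rfl
      · rw [indicator_of_notMem hw, indicator_of_notMem (show w ∉ {w : ℝ × ℝ |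
          Function.update c m₀ w ∈ {c : S → ℝ × ℝ | ∃ t : ℝ, fld c (κ t) = 0}} from hw)]
    have hpre : MeasurableSet {w : ℝ × ℝ | Function.update c m₀ w ∈
        {c : S → ℝ × ℝ | ∃ t : ℝ, fld c (κ t) = 0}} := (measurable_update c (a := m₀)) hA
    rw [e1, lintegral_indicator_one hpre]
    refine le_antisymm ((hD m₀ _).trans ?_) zero_le
    have hsub : {w : ℝ × ℝ | Function.update c m₀ w ∈ {c : S → ℝ × ℝ | ∃ t : ℝ, fld c (κ t) = 0}} ⊆
        range fun t => -fld (Function.update c m₀ 0) (κ t) := by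
      rintro w ⟨t, ht⟩
      refine ⟨t, ?_⟩
      have h2 : fld (Function.update c m₀ w) (κ t) = w + fld (Function.update c m₀ 0) (κ t) := by
        unfold fld
        rw [← Finset.add_sum_erase Finset.univ
          (fun m : S => ((κ t).1 ^ m.1.1 * (κ t).2 ^ m.1.2) • Function.update c m₀ w m)
          (Finset.mem_univ m₀), ← Finset.add_sum_erase Finset.univ
          (fun m : S => ((κ t).1 ^ m.1.1 * (κ t).2 ^ m.1.2) • Function.update c m₀ 0 m)
          (Finset.mem_univ m₀)]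
        simp only [Function.update_self, smul_zero, zero_add, hm₀, pow_zero, mul_one, one_smul]
        congr 1
        refine Finset.sum_congr rfl fun i hi => ?_
        rw [Function.update_of_ne (Finset.ne_of_mem_erase hi),
          Function.update_of_ne (Finset.ne_of_mem_erase hi)]
      rw [h2] at ht
      exact (eq_neg_of_add_eq_zero_left ht).symm
    have hder : ∀ t, ∃ v, HasDerivAt (fun t => -fld (Function.update c m₀ 0) (κ t)) v t := by
      intro t
      have h3 : DifferentiableAt ℝ (fun t => -fld (Function.update c m₀ 0) (κ t)) t := by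
        have h4 : DifferentiableAt ℝ κ t := (hκ t).differentiableAt
        unfold fld
        fun_prop
      exact ⟨_, h3.hasDerivAt⟩
    choose v hv using hder
    rw [measure_mono_null hsub (volume_curve hv), mul_zero]
  simp only [h1]
  rw [lintegral_zero]

/-- almost surely there are no zeros on the axes -/
lemma ae_ax (h00 : (0, 0) ∈ S) (μ : S → Measure (ℝ × ℝ)) [∀ m, IsProbabilityMeasure (μ m)]
    {D : ℝ≥0∞} (hD : ∀ m (B : Set (ℝ × ℝ)), μ m B ≤ D * volume B) :
    ∀ᵐ c ∂Measure.pi μ, Ax c = ∅ := by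
  have h1 := null_curve h00 μ hD (κ := fun t : ℝ => ((0:ℝ), t)) (κ' := fun _ => (0, 1))
    (fun t => (hasDerivAt_const t (0:ℝ)).prodMk (hasDerivAt_id t))
  have h2 := null_curve h00 μ hD (κ := fun t : ℝ => (t, (0:ℝ))) (κ' := fun _ => (1, 0))
    (fun t => (hasDerivAt_id t).prodMk (hasDerivAt_const t (0:ℝ)))
  rw [ae_iff]
  refine measure_mono_null ?_ (measure_union_null h1 h2)
  intro c hc
  obtain ⟨z, hz1, hz2⟩ := nonempty_iff_ne_empty.2 hc
  rcases hz1 with h | h
  · left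
    exact ⟨z.2, by rw [← h]; exact hz2⟩
  · right
    exact ⟨z.1, by rw [← h]; exact hz2⟩

/-- **The expected number of zeros of a random polynomial field with few monomials.** -/
theorem lintegral_NZ (h00 : (0, 0) ∈ S) (μ : S → Measure (ℝ × ℝ))
    [∀ m, IsProbabilityMeasure (μ m)] {D : ℝ≥0∞}
    (hD : ∀ m (B : Set (ℝ × ℝ)), μ m B ≤ D * volume B) :
    ∫⁻ c, NZ c ∂Measure.pi μ ≤ 2 * (S.card * (D * (∑ m, mo (μ m)) ^ 2)) := by
  have : Nonempty S := ⟨⟨(0, 0), h00⟩⟩
  choose g hg1 hg2 hg3 using fun b : Bool × Bool => zeros_le (fun m => abs_qs b m) (ex S) μ hD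
  have h1 : ∀ᵐ c ∂Measure.pi μ, NZ c ≤ ∑ b, g b c := by
    filter_upwards [ae_ax h00 μ hD] with c hc
    refine (NZ_le_sum c).trans ?_
    rw [hc]
    simp only [encard_empty, ENat.toENNReal_zero, zero_add]
    exact Finset.sum_le_sum fun b _ => hg2 b c
  refine (lintegral_mono_ae h1).trans ?_
  rw [lintegral_finsetSum _ fun b _ => hg1 b]
  refine (Finset.sum_le_sum fun b _ => hg3 b).trans (le_of_eq ?_)
  rw [Finset.sum_const, Finset.card_univ, Fintype.card_prod, Fintype.card_bool, Fintype.card_coe,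
    nsmul_eq_mul]
  have h2 : (((2 * 2 : ℕ) : ℝ≥0∞)) * ENNReal.ofReal (1 / 2) = 2 := by
    rw [← ENNReal.ofReal_natCast, ← ENNReal.ofReal_mul (by positivity)]
    norm_num
  calc (((2 * 2 : ℕ) : ℝ≥0∞)) * (S.card * (D * (ENNReal.ofReal (1 / 2) * (∑ m, mo (μ m)) ^ 2))) =
      ((((2 * 2 : ℕ) : ℝ≥0∞)) * ENNReal.ofReal (1 / 2)) * (S.card * (D * (∑ m, mo (μ m)) ^ 2)) := by
        ring
    _ = _ := by rw [h2]

end

end Pool.Agent.TH275.RF
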