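import Pool.Agent.TH275.RF.Phi
import Pool.Agent.TH275.RF.Plane
import Pool.Agent.W960.HR.Smooth2

/-! The expected numbers of equilibria and of closed orbits of random polynomial fields with few
monomials: explicit bounds for general laws. -/

open Real Set MeasureTheory Topology Filter
open scoped ENNReal

namespace Pool.Agent.TH275.RF

noncomputable section

open Pool.Agent
open Pool.Agent.H709R2 (fld rot rotc NP measurable_NP)
open Pool.Agent.W960.HR (Full NZ Phi Mom Dens RotInv)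

variable {S : Finset (ℕ × ℕ)} {n : ℕ}

/-- first and second moments -/
lemma mo_le {ν : Measure (ℝ × ℝ)} [IsProbabilityMeasure ν] {W : ℝ} (hW : 0 < W)
    (h : ∫⁻ w, ENNReal.ofReal (w.1 ^ 2 + w.2 ^ 2) ∂ν ≤ ENNReal.ofReal W) :
    mo ν ≤ ENNReal.ofReal √W := by
  have h1 := W960.HR.weighted_all ν (k := en) (s := √W) (Real.sqrt_pos.2 hW) (by
    rw [Real.sq_sqrt hW.le]
    refine le_trans (le_of_eq (lintegral_congr fun w => ?_)) h
    unfold en
    rw [Real.sq_sqrt (by positivity)])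
  exact h1

/-- the bound for the expected number of equilibria -/
theorem lintegral_NZ_cube (h00 : (0, 0) ∈ S) (μ : S → Measure (ℝ × ℝ))
    [∀ m, IsProbabilityMeasure (μ m)] {D W : ℝ} (hD0 : 0 ≤ D) (hW0 : 0 < W) (hD : Dens μ D)
    (hW : Mom μ W) :
    ∫⁻ c, NZ c ∂Measure.pi μ ≤ ENNReal.ofReal (2 * D * W * S.card ^ 3) := by
  refine (lintegral_NZ h00 μ hD).trans ?_
  have h1 : (∑ m, mo (μ m)) ≤ ENNReal.ofReal (S.card * √W) := by
    refine (Finset.sum_le_card_nsmul _ _ _ fun m _ => mo_le hW0 (hW m)).trans (le_of_eq ?_)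
    rw [Finset.card_univ, Fintype.card_coe, nsmul_eq_mul, ENNReal.ofReal_mul (by positivity),
      ENNReal.ofReal_natCast]
  calc 2 * (S.card * (ENNReal.ofReal D * (∑ m, mo (μ m)) ^ 2))
      ≤ ENNReal.ofReal 2 * (ENNReal.ofReal S.card * (ENNReal.ofReal D *
          ENNReal.ofReal (S.card * √W) ^ 2)) := by
        rw [ENNReal.ofReal_natCast, ENNReal.ofReal_ofNat]
        gcongr
    _ = ENNReal.ofReal (2 * D * W * S.card ^ 3) := by
        rw [← ENNReal.ofReal_pow (by positivity), ← ENNReal.ofReal_mul hD0,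
          ← ENNReal.ofReal_mul (by positivity), ← ENNReal.ofReal_mul (by norm_num)]
        congr 1
        rw [mul_pow, Real.sq_sqrt hW0.le]
        ring

/-- arithmetic -/
lemma comb_le {L : ℝ} (hL : 0 ≤ L) {k : ℕ} {x : ℝ≥0∞} {a : ℝ} (ha : 0 ≤ a) (hx : x ≤ ENNReal.ofReal a) :
    ENNReal.ofReal L * (1 + k * x) ≤ ENNReal.ofReal (L * (1 + k * a)) := by
  calc ENNReal.ofReal L * (1 + k * x) ≤ ENNReal.ofReal L * (1 + k * ENNReal.ofReal a) := by gcongr
    _ = ENNReal.ofReal (L * (1 + k * a)) := by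
        rw [ENNReal.ofReal_mul hL, ENNReal.ofReal_add (by norm_num) (by positivity),
          ENNReal.ofReal_one, ENNReal.ofReal_mul (by positivity), ENNReal.ofReal_natCast]

/-- the expected number of equilibria -/
lemma lintegral_NZ_min (hF : Full n S) (μ : S → Measure (ℝ × ℝ)) [∀ m, IsProbabilityMeasure (μ m)]
    {D W : ℝ} (hD1 : 1 ≤ D) (hW1 : 1 ≤ W) (hD : Dens μ D) (hW : Mom μ W) :
    ∫⁻ c, NZ c ∂Measure.pi μ ≤ ENNReal.ofReal (min ((n:ℝ) ^ 2) (2 * D * W * S.card ^ 3)) := by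
  rcases min_choice ((n:ℝ) ^ 2) (2 * D * W * S.card ^ 3) with h | h
  · rw [h]
    refine (W960.HR.lintegral_NZ_le hF μ hD1 hW1 hD hW).trans (le_of_eq ?_)
    rw [ENNReal.ofReal_pow (by positivity), ENNReal.ofReal_natCast]
  · rw [h]
    exact lintegral_NZ_cube hF.h00 μ (by linarith) (by linarith) hD hW

lemma simple_le (hF : Full n S) {D W : ℝ} (hD1 : 1 ≤ D) (hW1 : 1 ≤ W) :
    1 + (kap n S : ℝ) * min ((n:ℝ) ^ 2) (2 * D * W * S.card ^ 3) ≤ 5 * (D * W * S.card ^ 4) := by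
  have h1 : (kap n S : ℝ) ≤ 2 * S.card := by exact_mod_cast kap_le' n S
  have h2 := min_le_right ((n:ℝ) ^ 2) (2 * D * W * S.card ^ 3)
  have h3 : (1:ℝ) ≤ S.card := by exact_mod_cast Finset.card_pos.2 ⟨_, hF.h00⟩
  have h4 : (1:ℝ) ≤ (S.card : ℝ) ^ 4 := one_le_pow₀ h3
  have h5 : 1 ≤ D * W * (S.card:ℝ) ^ 4 :=
    one_le_mul_of_one_le_of_one_le (one_le_mul_of_one_le_of_one_le hD1 hW1) h4
  have h6 : (kap n S : ℝ) * min ((n:ℝ) ^ 2) (2 * D * W * S.card ^ 3) ≤
      2 * S.card * (2 * D * W * S.card ^ 3) :=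
    mul_le_mul h1 h2 (le_min (by positivity) (by positivity)) (by positivity)
  nlinarith

/-- random rotations -/
theorem sparse_phi (hF : Full n S) (μ : S → Measure (ℝ × ℝ)) [∀ m, IsProbabilityMeasure (μ m)]
    {D W : ℝ} (hD1 : 1 ≤ D) (hW1 : 1 ≤ W) (hD : Dens μ D) (hW : Mom μ W) :
    ∫⁻ c, Phi c ∂Measure.pi μ ≤ ENNReal.ofReal (220000000 * (1 + Real.log (n * D * W)) *
      (1 + kap n S * min ((n:ℝ) ^ 2) (2 * D * W * S.card ^ 3))) := by
  have hn1 : (1:ℝ) ≤ n := by exact_mod_cast hF.one_le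
  have hl0 : 0 ≤ Real.log (n * D * W) := Real.log_nonneg
    (one_le_mul_of_one_le_of_one_le (one_le_mul_of_one_le_of_one_le hn1 hD1) hW1)
  exact (lintegral_phiX hF μ hD1 hW1 hD hW).trans (comb_le (by positivity)
    (le_min (by positivity) (by positivity)) (lintegral_NZ_min hF μ hD1 hW1 hD hW))

/-- rotation invariant laws -/
theorem sparse_expected (hF : Full n S) (μ : S → Measure (ℝ × ℝ))
    [∀ m, IsProbabilityMeasure (μ m)] {D W : ℝ} (hD1 : 1 ≤ D) (hW1 : 1 ≤ W) (hD : Dens μ D)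
    (hW : Mom μ W) (hR : RotInv μ) :
    ∫⁻ c, NP c ∂Measure.pi μ ≤ ENNReal.ofReal (80000000 * (1 + Real.log (n * D * W)) *
      (1 + kap n S * min ((n:ℝ) ^ 2) (2 * D * W * S.card ^ 3))) := by
  have hn1 : (1:ℝ) ≤ n := by exact_mod_cast hF.one_le
  have hl0 : 0 ≤ Real.log (n * D * W) := Real.log_nonneg
    (one_le_mul_of_one_le_of_one_le (one_le_mul_of_one_le_of_one_le hn1 hD1) hW1)
  exact (expectedX hF μ hD1 hW1 hD hW hR).trans (comb_le (by positivity)
    (le_min (by positivity) (by positivity)) (lintegral_NZ_min hF μ hD1 hW1 hD hW))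

end

end Pool.Agent.TH275.RF
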