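import Pool.Agent.H709U.Top
import Pool.Agent.TH275.LF.Rect
import Pool.Agent.W960.HR.Scale

/-! Averaged bounds per scale for plane fields whose direction turns a bounded number of times along
the lines parallel to the axes. -/

open Real Set MeasureTheory Topology Filter
open scoped ENNReal

namespace Pool.Agent.TH275.RF

noncomputable section

open Pool.Agent Pool.Agent.H709R2 Pool.Agent.H709U
open Pool.Agent.H709Q (Maj)
open Pool.Agent.TH275.LF (LineZ line_gen rect_gen)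

/-- `AX X k`: the field `X` is `C²`, and along every line parallel to an axis every nontrivial linear
combination of its components vanishes identically or at most `k` times -/
structure AX (X : ℝ × ℝ → ℝ × ℝ) (k : ℕ) : Prop where
  smooth : ContDiff ℝ 2 X
  hor : ∀ y, LineZ X k (0, y) (1, 0)
  ver : ∀ x, LineZ X k (x, 0) (0, 1)

/-- closed orbits of the rotated field -/
def ClX (X : ℝ × ℝ → ℝ × ℝ) (α : ℝ) : Set (Set (ℝ × ℝ)) := {C | ClosedOrbit (rf X α) C}

/-- closed orbits with Euclidean diameter between `r` and `R` -/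
def ClDX (X : ℝ × ℝ → ℝ × ℝ) (r R α : ℝ) : Set (Set (ℝ × ℝ)) :=
  {C | C ∈ ClX X α ∧ (∃ x ∈ C, ∃ y ∈ C, r ≤ √((x.1 - y.1) ^ 2 + (x.2 - y.2) ^ 2)) ∧
    ∀ x ∈ C, ∀ y ∈ C, √((x.1 - y.1) ^ 2 + (x.2 - y.2) ^ 2) ≤ R}

/-- big closed orbits in a rectangle -/
theorem thmAX {F : ℝ × ℝ → ℝ × ℝ} {k : ℕ} (hLC : AX F k) (a b c e : ℝ) {d : ℝ} (hd : 0 < d) :
    ∃ g : ℝ → ℝ≥0∞, Measurable g ∧
      (∀ α ∈ Ioo 0 π, ({C : Set (ℝ × ℝ) | (∃ γ : ℝ → ℝ × ℝ, ∃ T : ℝ, 0 < T ∧
          (∀ t, HasDerivAt γ (rot α (F (γ t))) t) ∧ (∀ t, γ (t + T) = γ t) ∧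
          (∃ s t, γ s ≠ γ t) ∧ C = range γ) ∧ C ⊆ Icc a b ×ˢ Icc c e ∧
          ∃ p ∈ C, ∃ q ∈ C, d ≤ √((p.1 - q.1) ^ 2 + (p.2 - q.2) ^ 2)}.encard : ℝ≥0∞) ≤ g α) ∧
      ∫⁻ α, g α ≤ ENNReal.ofReal (1 / (2 * d)) *
        (ENNReal.ofReal (k * π) * (ENNReal.ofReal (b - a) + ENNReal.ofReal (e - c))) := by
  have hF : ContDiff ℝ 2 F := hLC.smooth
  set Ω : Set (ℝ × ℝ) := Icc a b ×ˢ Icc c e with hΩdef
  have hΩc : IsCompact Ω := isCompact_Icc.prod isCompact_Icc
  obtain ⟨R, hR⟩ := hΩc.isBounded.exists_norm_le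
  obtain ⟨X, hX, ⟨K, hK⟩, ⟨M, hM⟩, hXF⟩ := exists_cutoff hF R
  obtain ⟨φ, hφ⟩ := exists_rotFlow hX hK hM
  set h : ℝ × ℝ → ℝ≥0∞ := fun p => ENNReal.ofReal
      (|wedge (F p) (fderiv ℝ F p (1, 0))| / H709R2.sq (F p)) +
      ENNReal.ofReal (|wedge (F p) (fderiv ℝ F p (0, 1))| / H709R2.sq (F p)) with hh
  have hhm : Measurable h := (measurable_kernel hF _).add (measurable_kernel hF _)
  have hw : ∀ p, X p ≠ 0 → ContDiffAt ℝ 1 (winv X) p := fun p hp => contDiffAt_winv hX hp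
  obtain ⟨g, hg1, hg2, hg3⟩ := master (w₁ := winv X) (w := winv X) (M := Ici (2 * d)) (ℓ := 2 * d)
    (Ω := Ω) hφ hX hw hw hΩc.isClosed measurableSet_Ici hhm (by positivity) (by
      intro α hα p T hmp hpΩ hlen
      refine ⟨hlen, ?_⟩
      have hp : p ∈ Ω := by
        have := hpΩ 0
        rwa [hφ.zero] at this
      have heq := hXF p (hR p hp)
      have h1 := abs_divW_winv_le hX hmp.ne α
      rw [heq.fderiv_eq, heq.eq_of_nhds] at h1
      simp only [hh]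
      rw [← ENNReal.ofReal_add (by unfold H709R2.sq; positivity) (by unfold H709R2.sq; positivity)]
      exact ENNReal.ofReal_le_ofReal h1)
  refine ⟨g, hg1, ?_, hg3.trans ?_⟩
  · intro α hα
    refine le_trans ?_ (hg2 α hα)
    have hsub : {C : Set (ℝ × ℝ) | (∃ γ : ℝ → ℝ × ℝ, ∃ T : ℝ, 0 < T ∧
          (∀ t, HasDerivAt γ (rot α (F (γ t))) t) ∧ (∀ t, γ (t + T) = γ t) ∧
          (∃ s t, γ s ≠ γ t) ∧ C = range γ) ∧ C ⊆ Ω ∧
          ∃ p ∈ C, ∃ q ∈ C, d ≤ √((p.1 - q.1) ^ 2 + (p.2 - q.2) ^ 2)} ⊆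
        {C | Good X φ (winv X) Ω (Ici (2 * d)) α C} := by
      rintro C ⟨⟨γ, T, hT, hγ, hper, hnc, rfl⟩, hCΩ, q, hq, q', hq', hdist⟩
      have hγ' : ∀ t, HasDerivAt γ (rot α (X (γ t))) t := by
        intro t
        rw [(hXF (γ t) (hR _ (hCΩ ⟨t, rfl⟩))).eq_of_nhds]
        exact hγ t
      obtain ⟨T₀, hmp, hrange⟩ := minPer_of_closed hφ hT hγ' hper hnc
      refine ⟨γ 0, T₀, hmp, hrange, hCΩ, ?_⟩
      rw [hrange] at hq hq'
      have h1 := len_ge hφ hX.continuous hmp hq hq'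
      rw [mem_Ici]
      refine le_trans ?_ h1
      unfold H709R2.sq
      simp only [Prod.fst_sub, Prod.snd_sub]
      linarith
    exact ENat.toENNReal_le.2 (Set.encard_le_encard hsub)
  · gcongr
    exact rect_gen hF hLC.hor hLC.ver a b c e

/-- one point and one dyadic scale -/
lemma scaleX_maj {X : ℝ × ℝ → ℝ × ℝ} {k : ℕ} (hX : AX X k) (p : ℝ × ℝ) {d : ℝ} (hd : 0 < d) :
    Maj (fun α => ({C | C ∈ ClDX X d (2 * d) α ∧ InBox p C}.encard : ℝ≥0∞)) (4 * π * k) := by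
  obtain ⟨g, hg1, hg2, hg3⟩ := thmAX hX (p.1 - 2 * d) (p.1 + 2 * d) (p.2 - 2 * d)
    (p.2 + 2 * d) hd
  refine ⟨g, hg1, ?_, ?_⟩
  · intro α hα
    refine le_trans (ENat.toENNReal_le.2 (encard_le_encard ?_)) (hg2 α hα)
    rintro C ⟨⟨⟨γ, T, hT, hγ, hper, hnc, hC⟩, hbig, hsm⟩, hbox⟩
    exact ⟨⟨γ, T, hT, hγ, hper, hnc, hC⟩, box_of_diam hbox hsm, hbig⟩
  · refine (setLIntegral_le_lintegral _ _).trans (hg3.trans ?_)
    rw [← ENNReal.ofReal_add (by linarith) (by linarith), ← ENNReal.ofReal_mul (by positivity),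
      ← ENNReal.ofReal_mul (by positivity)]
    apply ENNReal.ofReal_le_ofReal
    apply le_of_eq
    field_simp
    ring

theorem scaleX_dyadic {X : ℝ × ℝ → ℝ × ℝ} {n : ℕ} (hX : AX X n) {Z : Finset (ℝ × ℝ)}
    (hZ : ∀ p, X p = 0 → p ∈ Z) {r : ℝ}
    (hr : 0 < r) {m : ℕ} (hm : 1 ≤ m) :
    Maj (fun α => ((ClDX X r (2 ^ m * r) α).encard : ℝ≥0∞)) (4 * π * n * Z.card * m) := by
  classical
  have h1 : ∀ i ∈ Z ×ˢ Finset.range m, Maj (fun α =>
      ({C | C ∈ ClDX X (2 ^ i.2 * r) (2 * (2 ^ i.2 * r)) α ∧ InBox i.1 C}.encard : ℝ≥0∞))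
      (4 * π * n) := fun i _ => scaleX_maj hX i.1 (by positivity)
  have h2 := maj_sum _ _ (4 * π * n) (by positivity) h1
  refine maj_mono ?_ ?_ h2
  · intro α hα
    apply encard_biUnion_le'
    rintro C ⟨hC, ⟨x₀, hx₀, y₀, hy₀, hbig⟩, hsm⟩
    obtain ⟨p, hp0, hp⟩ := t3' X hX.smooth α C hC
    -- the diameter is attained
    obtain ⟨γ, T, hT, hγ, hper, hnc, rfl⟩ := hC
    have hcont : Continuous γ := continuous_iff_continuousAt.2 fun t => (hγ t).continuousAt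
    have hcomp : IsCompact (range γ) :=
      (show Function.Periodic γ T from hper).compact_of_continuous hT.ne' hcont
    obtain ⟨⟨x, y⟩, hxy, hmax⟩ := (hcomp.prod hcomp).exists_isMaxOn ⟨(x₀, y₀), hx₀, hy₀⟩
      (f := fun q : (ℝ × ℝ) × (ℝ × ℝ) => √((q.1.1 - q.2.1) ^ 2 + (q.1.2 - q.2.2) ^ 2))
      (by fun_prop)
    set D := √((x.1 - y.1) ^ 2 + (x.2 - y.2) ^ 2) with hD
    have hmax' : ∀ a ∈ range γ, ∀ b ∈ range γ, √((a.1 - b.1) ^ 2 + (a.2 - b.2) ^ 2) ≤ D :=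
      fun a ha b hb => hmax (show (a, b) ∈ range γ ×ˢ range γ from ⟨ha, hb⟩)
    have hrD : r ≤ D := hbig.trans (hmax' x₀ hx₀ y₀ hy₀)
    have hDR : D ≤ 2 ^ m * r := hsm x hxy.1 y hxy.2
    -- the dyadic scale
    have hex : ∃ k, k < m ∧ 2 ^ k * r ≤ D ∧ D ≤ 2 * (2 ^ k * r) := by
      have h0 : ∃ k, D ≤ 2 * (2 ^ k * r) := ⟨m - 1, by
        have h5 : (2:ℝ) * (2 ^ (m - 1) * r) = 2 ^ m * r := by
          rw [← mul_assoc, ← pow_succ', Nat.sub_add_cancel hm]
        rw [h5]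
        exact hDR⟩
      refine ⟨Nat.find h0, ?_, ?_, Nat.find_spec h0⟩
      · have h5 : Nat.find h0 ≤ m - 1 := Nat.find_min' h0 (by
          have h5 : (2:ℝ) * (2 ^ (m - 1) * r) = 2 ^ m * r := by
            rw [← mul_assoc, ← pow_succ', Nat.sub_add_cancel hm]
          rw [h5]
          exact hDR)
        omega
      · rcases Nat.eq_zero_or_pos (Nat.find h0) with h5 | h5
        · rw [h5, pow_zero, one_mul]
          exact hrD
        · have h6 := Nat.find_min h0 (show Nat.find h0 - 1 < Nat.find h0 by omega)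
          rw [not_le, ← mul_assoc, ← pow_succ', Nat.sub_add_cancel h5] at h6
          exact h6.le
    obtain ⟨k, hkm, hk1, hk2⟩ := hex
    simp only [mem_iUnion]
    refine ⟨(p, k), ?_, ?_, hp⟩
    · rw [Finset.mem_product]
      exact ⟨hZ p hp0, Finset.mem_range.2 hkm⟩
    · exact ⟨⟨γ, T, hT, hγ, hper, hnc, rfl⟩, ⟨x, hxy.1, y, hxy.2, hk1⟩,
        fun a ha b hb => (hmax' a ha b hb).trans hk2⟩
  · rw [Finset.card_product, Finset.card_range]
    push_cast
    exact le_of_eq (by ring)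

/-- the averaged bound for diameters in a range -/
theorem scaleX_range {X : ℝ × ℝ → ℝ × ℝ} {n : ℕ} (hX : AX X n) {Z : Finset (ℝ × ℝ)}
    (hZ : ∀ p, X p = 0 → p ∈ Z)
    {r R : ℝ} (hr : 0 < r) (hR : r ≤ R) :
    Maj (fun α => ((ClDX X r R α).encard : ℝ≥0∞))
      (4 * π * n * Z.card * (1 + Real.logb 2 (R / r))) := by
  set m : ℕ := ⌊Real.logb 2 (R / r)⌋₊ + 1 with hm
  have hlog : 0 ≤ Real.logb 2 (R / r) := Real.logb_nonneg (by norm_num) (by
    rw [le_div_iff₀ hr, one_mul]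
    exact hR)
  refine maj_mono ?_ ?_ (scaleX_dyadic hX hZ hr (m := m) (by omega))
  · intro α _
    apply ENat.toENNReal_le.2
    apply encard_le_encard
    rintro C ⟨hC, hbig, hsm⟩
    refine ⟨hC, hbig, fun x hx y hy => (hsm x hx y hy).trans ?_⟩
    have h1 : Real.logb 2 (R / r) ≤ m := by
      rw [hm]
      push_cast
      exact (Nat.lt_floor_add_one _).le
    have hRp : 0 < R := hr.trans_le hR
    have h2 : R / r ≤ 2 ^ m := by
      have h3 : R / r = (2:ℝ) ^ Real.logb 2 (R / r) :=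
        (Real.rpow_logb (by norm_num) (by norm_num) (by positivity)).symm
      rw [h3, ← Real.rpow_natCast]
      exact Real.rpow_le_rpow_of_exponent_le (by norm_num) h1
    rwa [div_le_iff₀ hr] at h2
  · have h1 : (m : ℝ) ≤ 1 + Real.logb 2 (R / r) := by
      rw [hm]
      push_cast
      have := Nat.floor_le hlog
      linarith
    gcongr

/-- the weighted kernel integral -/
theorem h2X {X : ℝ × ℝ → ℝ × ℝ} {k : ℕ} (hX : AX X k) (p : ℝ × ℝ) {R : ℝ} (hR : 0 < R) :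
    Measurable (fun z => ENNReal.ofReal (chi p R z * (|wedge (X z)
      (fderiv ℝ X z (1, 0))| / H709R2.sq (X z) +
        |wedge (X z) (fderiv ℝ X z (0, 1))| / H709R2.sq (X z) + 4 / R))) ∧
    ∫⁻ z, ENNReal.ofReal (chi p R z * (|wedge (X z)
      (fderiv ℝ X z (1, 0))| / H709R2.sq (X z) +
        |wedge (X z) (fderiv ℝ X z (0, 1))| / H709R2.sq (X z) + 4 / R)) ≤
    ENNReal.ofReal ((2 * k + 4) * π ^ 2 * R) := by
  have hF : ContDiff ℝ 2 X := hX.smooth
  have hchi0 : ∀ z, 0 ≤ chi p R z := fun z => by unfold chi; positivity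
  have hchi : Continuous (chi p R) := by
    unfold chi H709R2.sq
    refine Continuous.pow (Continuous.div (by fun_prop) (by fun_prop) ?_) 2
    intro z
    positivity
  set K1 : ℝ × ℝ → ℝ := fun z => |wedge (X z)
      (fderiv ℝ X z (1, 0))| / H709R2.sq (X z) with hK1
  set K2 : ℝ × ℝ → ℝ := fun z => |wedge (X z)
      (fderiv ℝ X z (0, 1))| / H709R2.sq (X z) with hK2
  have hsq : ∀ v : ℝ × ℝ, 0 ≤ H709R2.sq v := fun v => by unfold H709R2.sq; positivity
  have hK10 : ∀ z, 0 ≤ K1 z := fun z => div_nonneg (abs_nonneg _) (hsq _)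
  have hK20 : ∀ z, 0 ≤ K2 z := fun z => div_nonneg (abs_nonneg _) (hsq _)
  have m1 : Measurable fun z => ENNReal.ofReal (K1 z) := H709R2.measurable_kernel hF (1, 0)
  have m2 : Measurable fun z => ENNReal.ofReal (K2 z) := H709R2.measurable_kernel hF (0, 1)
  have mc : Measurable fun z => ENNReal.ofReal (chi p R z) := hchi.measurable.ennreal_ofReal
  have hsplit : ∀ z, ENNReal.ofReal (chi p R z * (K1 z + K2 z + 4 / R)) =
      ENNReal.ofReal (chi p R z) * (ENNReal.ofReal (K1 z) + ENNReal.ofReal (K2 z) +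
        ENNReal.ofReal (4 / R)) := by
    intro z
    rw [ENNReal.ofReal_mul (hchi0 z), ENNReal.ofReal_add (add_nonneg (hK10 z) (hK20 z))
      (by positivity), ENNReal.ofReal_add (hK10 z) (hK20 z)]
  change Measurable (fun z => ENNReal.ofReal (chi p R z * (K1 z + K2 z + 4 / R))) ∧
    ∫⁻ z, ENNReal.ofReal (chi p R z * (K1 z + K2 z + 4 / R)) ≤ _
  simp only [hsplit]
  refine ⟨mc.mul ((m1.add m2).add measurable_const), ?_⟩
  set a1 : ℝ → ℝ≥0∞ := fun x => ENNReal.ofReal (H2_c p.1 R x) with ha1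
  set a2 : ℝ → ℝ≥0∞ := fun y => ENNReal.ofReal (H2_c p.2 R y) with ha2
  have ma1 : Measurable a1 := (H2_c_cont _ _).measurable.ennreal_ofReal
  have ma2 : Measurable a2 := (H2_c_cont _ _).measurable.ennreal_ofReal
  have b1 : ∀ z : ℝ × ℝ, ENNReal.ofReal (chi p R z) ≤ a1 z.1 := by
    intro z
    refine ENNReal.ofReal_le_ofReal ((H2_chi_le p z R hR).trans ?_)
    exact mul_le_of_le_one_right (H2_c_nonneg _ _ _) (H2_c_le_one _ _ _)
  have b2 : ∀ z : ℝ × ℝ, ENNReal.ofReal (chi p R z) ≤ a2 z.2 := by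
    intro z
    refine ENNReal.ofReal_le_ofReal ((H2_chi_le p z R hR).trans ?_)
    exact mul_le_of_le_one_left (H2_c_nonneg _ _ _) (H2_c_le_one _ _ _)
  have b3 : ∀ z : ℝ × ℝ, ENNReal.ofReal (chi p R z) ≤ a1 z.1 * a2 z.2 := by
    intro z
    rw [ha1, ha2]
    simp only
    rw [← ENNReal.ofReal_mul (H2_c_nonneg _ _ _)]
    exact ENNReal.ofReal_le_ofReal (H2_chi_le p z R hR)
  -- first term
  have t1 : ∫⁻ z : ℝ × ℝ, a2 z.2 * ENNReal.ofReal (K1 z) ≤
      ENNReal.ofReal (k * π) * ENNReal.ofReal (π * R) := by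
    have mm1 : Measurable (fun z : ℝ × ℝ => a2 z.2 * ENNReal.ofReal (K1 z)) :=
      (ma2.comp measurable_snd).mul m1
    rw [Measure.volume_eq_prod, lintegral_prod_symm _ mm1.aemeasurable]
    calc ∫⁻ y : ℝ, ∫⁻ x : ℝ, a2 y * ENNReal.ofReal (K1 (x, y))
        ≤ ∫⁻ y : ℝ, a2 y * ENNReal.ofReal (k * π) := by
          refine lintegral_mono fun y => ?_
          rw [lintegral_const_mul' _ _ ENNReal.ofReal_ne_top]
          refine mul_le_mul_right ?_ _
          have h2 := line_gen hF (hX.hor y)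
          have h3 : ∀ t : ℝ, ((0:ℝ), y) + t • ((1:ℝ), (0:ℝ)) = (t, y) := by
            intro t; ext <;> simp
          simp only [h3] at h2
          exact h2
      _ = _ := by
          rw [lintegral_mul_const' _ _ ENNReal.ofReal_ne_top, H2_c_int _ _ hR, mul_comm]
  have t2 : ∫⁻ z : ℝ × ℝ, a1 z.1 * ENNReal.ofReal (K2 z) ≤
      ENNReal.ofReal (k * π) * ENNReal.ofReal (π * R) := by
    have mm2 : Measurable (fun z : ℝ × ℝ => a1 z.1 * ENNReal.ofReal (K2 z)) :=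
      (ma1.comp measurable_fst).mul m2
    rw [Measure.volume_eq_prod, lintegral_prod _ mm2.aemeasurable]
    calc ∫⁻ x : ℝ, ∫⁻ y : ℝ, a1 x * ENNReal.ofReal (K2 (x, y))
        ≤ ∫⁻ x : ℝ, a1 x * ENNReal.ofReal (k * π) := by
          refine lintegral_mono fun x => ?_
          rw [lintegral_const_mul' _ _ ENNReal.ofReal_ne_top]
          refine mul_le_mul_right ?_ _
          have h2 := line_gen hF (hX.ver x)
          have h3 : ∀ t : ℝ, (x, (0:ℝ)) + t • ((0:ℝ), (1:ℝ)) = (x, t) := by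
            intro t; ext <;> simp
          simp only [h3] at h2
          exact h2
      _ = _ := by
          rw [lintegral_mul_const' _ _ ENNReal.ofReal_ne_top, H2_c_int _ _ hR, mul_comm]
  have t3 : ∫⁻ z : ℝ × ℝ, a1 z.1 * a2 z.2 * ENNReal.ofReal (4 / R) =
      ENNReal.ofReal (π * R) * ENNReal.ofReal (π * R) * ENNReal.ofReal (4 / R) := by
    rw [lintegral_mul_const' _ _ ENNReal.ofReal_ne_top]
    congr 1
    rw [Measure.volume_eq_prod, lintegral_prod_mul ma1.aemeasurable ma2.aemeasurable,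
      H2_c_int _ _ hR, H2_c_int _ _ hR]
  calc ∫⁻ z, ENNReal.ofReal (chi p R z) * (ENNReal.ofReal (K1 z) + ENNReal.ofReal (K2 z) +
        ENNReal.ofReal (4 / R))
      ≤ ∫⁻ z : ℝ × ℝ, (a2 z.2 * ENNReal.ofReal (K1 z) + a1 z.1 * ENNReal.ofReal (K2 z) +
        a1 z.1 * a2 z.2 * ENNReal.ofReal (4 / R)) := by
        refine lintegral_mono fun z => ?_
        simp only
        rw [mul_add, mul_add]
        exact add_le_add (add_le_add (mul_le_mul_left (b2 z) _) (mul_le_mul_left (b1 z) _))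
          (mul_le_mul_left (b3 z) _)
    _ = (∫⁻ z : ℝ × ℝ, a2 z.2 * ENNReal.ofReal (K1 z)) +
        (∫⁻ z : ℝ × ℝ, a1 z.1 * ENNReal.ofReal (K2 z)) +
        ∫⁻ z : ℝ × ℝ, a1 z.1 * a2 z.2 * ENNReal.ofReal (4 / R) := by
        rw [lintegral_add_left, lintegral_add_left]
        · exact (ma2.comp measurable_snd).mul m1
        · exact ((ma2.comp measurable_snd).mul m1).add ((ma1.comp measurable_fst).mul m2)
    _ ≤ ENNReal.ofReal (k * π) * ENNReal.ofReal (π * R) +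
        ENNReal.ofReal (k * π) * ENNReal.ofReal (π * R) +
        ENNReal.ofReal (π * R) * ENNReal.ofReal (π * R) * ENNReal.ofReal (4 / R) :=
        add_le_add (add_le_add t1 t2) t3.le
    _ = ENNReal.ofReal ((2 * k + 4) * π ^ 2 * R) := by
        rw [← ENNReal.ofReal_mul (by positivity), ← ENNReal.ofReal_mul (by positivity),
          ← ENNReal.ofReal_mul (by positivity), ← ENNReal.ofReal_add (by positivity)
          (by positivity), ← ENNReal.ofReal_add (by positivity) (by positivity)]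
        congr 1
        field_simp
        ring

/-- closed orbits which have `p` in their bounding box and touch an annulus around `p` -/
theorem h4X {X : ℝ × ℝ → ℝ × ℝ} {k : ℕ} (hX : AX X k) (p : ℝ × ℝ) (v : ℝ) :
    Maj (fun α => ({C | C ∈ ClX X α ∧ InBox p C ∧ p ∉ C ∧
      ∃ z ∈ C, v ≤ lg p z ∧ lg p z ≤ v + 1}.encard : ℝ≥0∞)) (8000 * (k + 1)) := by
  have hXc : ContDiff ℝ 2 X := hX.smooth
  have hM0 := m0
  have hMB := mb
  have hH1 := h1
  have hH3 := h3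
  set R := exp (v + 1) with hR
  have hRpos : 0 < R := Real.exp_pos _
  have key := h4_exhaust (fun α => rf X α)
    (fun α C => InBox p C ∧ p ∉ C ∧ ∃ z ∈ C, v ≤ lg p z ∧ lg p z ≤ v + 1)
    (8000 * (k + 1)) ?_
  · exact key
  intro m
  obtain ⟨hm1, hm2⟩ := h2X hX p hRpos
  have hw : ∀ z, X z ≠ 0 → ContDiffAt ℝ 1 (fun z => chi p R z * winv X z) z := fun z hz =>
    (hH1 X hXc p z R 0 hRpos hz).1
  obtain ⟨g, hg1, hg2, hg3⟩ := hMB X hXc (fun z => chi p R z * winv X z) hw (h4Box m)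
    (h4Box_compact m) _ hm1 (R / 200) (by positivity) (by
      intro α _ z _ hz
      exact ENNReal.ofReal_le_ofReal (hH1 X hXc p z R α hRpos hz).2)
  refine ⟨g, hg1, ?_, ?_⟩
  · intro α hα
    refine le_trans ?_ (hg2 α hα)
    apply ENat.toENNReal_mono
    apply encard_le_encard
    rintro C ⟨hC1, ⟨hC2, hC3, z, hz, hz1, hz2⟩, hC4⟩
    obtain ⟨γ, T, hγ, rfl⟩ := hM0 X hXc α C hC1
    refine ⟨γ, T, hγ, rfl, hC4, ?_⟩
    have hγc : Continuous γ := continuous_iff_continuousAt.2 fun t => (hγ.ode t).continuousAt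
    have hYc : Continuous fun t => rf X α (γ t) :=
      (continuous_rot α).comp (hXc.continuous.comp hγc)
    obtain ⟨t₀, rfl⟩ := hz
    have hne : γ t₀ ≠ p := fun h => hC3 ⟨t₀, h⟩
    have h3 := hH3 γ (fun t => rf X α (γ t)) T hγ.pos hγ.ode hYc hγ.per p R hRpos hC2
      ⟨t₀, h4_scale hne hz1 hz2⟩
    refine h3.trans (le_of_eq ?_)
    congr 1
    funext t
    have hr : H709R2.sq (rf X α (γ t)) = H709R2.sq (X (γ t)) := sq_rot _ _
    rw [hr]
    unfold winv
    rw [mul_assoc]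
    congr 1
    rw [← div_eq_inv_mul, Real.div_sqrt]
  · refine (setLIntegral_le_lintegral _ _).trans (hg3.trans ?_)
    refine (mul_le_mul_right ((setLIntegral_le_lintegral _ _).trans hm2) _).trans ?_
    rw [← ENNReal.ofReal_mul (by positivity)]
    apply ENNReal.ofReal_le_ofReal
    have e1 : 1 / (R / 200) * ((2 * k + 4) * π ^ 2 * R) = 200 * (2 * k + 4) * π ^ 2 := by
      field_simp
    rw [e1]
    have hpi : π ^ 2 ≤ 9.9225 := by
      have h1 := Real.pi_lt_d2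
      have h0 := Real.pi_pos
      nlinarith
    have hn : (0 : ℝ) ≤ k := Nat.cast_nonneg k
    nlinarith [mul_le_mul_of_nonneg_left hpi (by positivity : (0:ℝ) ≤ 200 * (2 * k + 4))]

end

end Pool.Agent.TH275.RF
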