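import Pool.Agent.W960.HR.Det
import Pool.Agent.TH275.RF.Axes

/-! The averaged bound for the number of closed orbits of the rotations of a regular field, in terms
of the number of zeros along lines parallel to the axes. -/

open Real Set MeasureTheory Topology Filter
open scoped ENNReal

namespace Pool.Agent.TH275.RF

open Pool.Agent
open Pool.Agent.H709R2 (rot wedge ClosedOrbit)
open Pool.Agent.H709U
open Pool.Agent.H709U.Z1aux (encard_mono' encard_biUnion)
open Pool.Agent.H709Q (Maj)
open Pool.Agent.W960.HR (Reg zone lg_le_iff le_lg_iff encard_union_le'' hasDerivAt_lg toC norm_toC)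
open Pool.Agent.W960

/-- The averaged bound for a regular field. -/
theorem detX {X : ℝ × ℝ → ℝ × ℝ} {n : ℕ} (hn : 1 ≤ n) (hX : AX X n) {Z : Finset (ℝ × ℝ)}
    (hZ : ∀ z, X z = 0 ↔ z ∈ Z) {R r Λ : ℝ} (hR : 1 ≤ R) (hr : 0 < r) (hr1 : r ≤ 1) (hΛ : 1 ≤ Λ)
    (hreg : Reg X R r Λ) :
    Maj (fun α => ((ClX X α).encard : ℝ≥0∞))
      (25000 * (1 + n * Z.card * (1 + Real.log (R * Λ ^ 2 / r)))) := by
  have hX2 : ContDiff ℝ 2 X := hX.smooth
  have hR0 : 0 < R := by linarith
  have hΛ0 : 0 < Λ := by linarith
  have hZR : ∀ p, X p = 0 → H709R2.sq p ≤ R ^ 2 := by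
    intro p hp
    by_contra hcon
    push Not at hcon
    have hp0 : p ≠ 0 := by
      intro h
      rw [h] at hcon
      unfold H709R2.sq at hcon
      simp at hcon
      nlinarith
    have h2 : Real.log R ≤ lg 0 p := by
      rw [le_lg_iff hp0 hR0, sub_zero]
      exact hcon.le
    exact (hreg.inf p hp0 (by linarith)).1 hp
  set d : ℝ := r / (2 * Λ) with hd
  have hd0 : 0 < d := by positivity
  set D : ℝ := 8 * R * Λ with hD
  have hdD : d ≤ D := by
    rw [hd, hD, div_le_iff₀ (by positivity)]
    have : 1 ≤ R * Λ := by nlinarith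
    nlinarith
  -- the pieces
  set S1 : (ℝ × ℝ) → ℝ → Set (Set (ℝ × ℝ)) := fun p α => {C | ClosedOrbit (rf X α) C ∧
    p ∉ C ∧ ∀ z ∈ C, 1 * (lg p z - Real.log r) ≤ -Real.log Λ} with hS1
  set v : ℝ := Real.log (2 * R * Λ) with hv
  set S2 : (ℝ × ℝ) → ℝ → Set (Set (ℝ × ℝ)) := fun p α => {C | C ∈ ClX X α ∧ InBox p C ∧ p ∉ C ∧
    ∃ z ∈ C, v ≤ lg p z ∧ lg p z ≤ v + 1} with hS2
  set S3 : ℝ → Set (Set (ℝ × ℝ)) := fun α => {C | ClosedOrbit (rf X α) C ∧
    (0 : ℝ × ℝ) ∉ C ∧ ∀ z ∈ C, (-1) * (lg 0 z - Real.log R) ≤ -Real.log Λ} with hS3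
  have m1 : Maj (fun α => ∑ p ∈ Z, ((S1 p α).encard : ℝ≥0∞)) (∑ p ∈ Z, 4000) :=
    Z1aux.maj_sum Z _ _ (fun _ _ => by norm_num) fun p hp =>
      zone hX2 (Or.inl rfl) hΛ (hreg.zero p ((hZ p).2 hp))
  have m2 : Maj (fun α => ∑ p ∈ Z, ((S2 p α).encard : ℝ≥0∞)) (∑ p ∈ Z, 8000 * ((n:ℝ) + 1)) :=
    Z1aux.maj_sum Z _ _ (fun _ _ => by positivity) fun p _ => h4X hX p v
  have m3 : Maj (fun α => ((S3 α).encard : ℝ≥0∞)) 4000 := zone hX2 (Or.inr rfl) hΛ hreg.inf
  have m4 := scaleX_range hX (fun p hp => (hZ p).1 hp) hd0 hdD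
  have hlog : 0 ≤ Real.logb 2 (D / d) := by
    apply Real.logb_nonneg (by norm_num)
    rw [le_div_iff₀ hd0]; linarith
  have m := Z1aux.maj_add (by positivity) (by positivity) (Z1aux.maj_add
    (Finset.sum_nonneg fun _ _ => by norm_num) (Finset.sum_nonneg fun _ _ => by positivity) m1 m2)
    (Z1aux.maj_add (by norm_num) (by positivity) m3 m4)
  refine Z1aux.maj_mono (fun α hα => ?_) ?_ m
  · -- covering
    have hcov : ClX X α ⊆ ((⋃ p ∈ Z, S1 p α) ∪ (⋃ p ∈ Z, S2 p α)) ∪ (S3 α ∪ ClDX X d D α) := by
      intro C hC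
      have hC' : ClosedOrbit (rf X α) C := hC
      obtain ⟨p, hp0, hbox⟩ := t3' X hX2 α C hC'
      have hCne : ∀ z ∈ C, X z ≠ 0 := by
        intro z hz h0
        apply HP.ne_zero (HP.rf_smooth hX2 α) hC' hz
        unfold rf rot
        rw [h0]
        ext <;> simp
      have hpC : p ∉ C := fun h => hCne p h hp0
      have hpZ : p ∈ Z := (hZ p).1 hp0
      by_cases hsmall : ∀ x ∈ C, ∀ y ∈ C, √((x.1 - y.1) ^ 2 + (x.2 - y.2) ^ 2) ≤ d
      · -- small closed orbits
        left; left
        simp only [mem_iUnion]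
        refine ⟨p, hpZ, hC', hpC, fun z hz => ?_⟩
        have hzp : z ≠ p := fun h => hpC (h ▸ hz)
        have h1 := box_of_diam hbox hsmall hz
        rw [mem_prod] at h1
        obtain ⟨⟨h2, h3⟩, h4, h5⟩ := h1
        have h6 : lg p z ≤ Real.log (r / Λ) := by
          rw [lg_le_iff hzp (by positivity)]
          unfold H709R2.sq
          have e : r / Λ = 2 * d := by rw [hd]; field_simp
          rw [e]
          simp only [Prod.fst_sub, Prod.snd_sub]
          nlinarith
        rw [Real.log_div hr.ne' hΛ0.ne'] at h6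
        linarith
      · push Not at hsmall
        obtain ⟨x, hx, y, hy, hxy⟩ := hsmall
        by_cases hbig : ∀ x ∈ C, ∀ y ∈ C, √((x.1 - y.1) ^ 2 + (x.2 - y.2) ^ 2) ≤ D
        · right; right
          exact ⟨hC, ⟨x, hx, y, hy, hxy.le⟩, hbig⟩
        · push Not at hbig
          obtain ⟨x', hx', y', hy', hxy'⟩ := hbig
          by_cases hfar : ∀ z ∈ C, (R * Λ) ^ 2 ≤ H709R2.sq z
          · right; left
            have h0C : (0 : ℝ × ℝ) ∉ C := by
              intro h
              have := hfar 0 h
              unfold H709R2.sq at this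
              simp at this
              rcases this with h2 | h2 <;> linarith
            refine ⟨hC', h0C, fun z hz => ?_⟩
            have hz0 : z ≠ 0 := fun h => h0C (h ▸ hz)
            have h1 : Real.log (R * Λ) ≤ lg 0 z := by
              rw [le_lg_iff hz0 (by positivity), sub_zero]
              exact hfar z hz
            rw [Real.log_mul hR0.ne' hΛ0.ne'] at h1
            linarith
          · push Not at hfar
            obtain ⟨z₀, hz₀, hz₀s⟩ := hfar
            left; right
            simp only [mem_iUnion]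
            refine ⟨p, hpZ, hC, hbox, hpC, ?_⟩
            -- norms
            have hpn : ‖toC p‖ ≤ R := by
              rw [norm_toC]
              exact Real.sqrt_le_iff.2 ⟨hR0.le, hZR p hp0⟩
            have hRΛ : R ≤ R * Λ := by nlinarith
            have hz₀n : ‖toC z₀‖ ≤ R * Λ := by
              rw [norm_toC]
              exact Real.sqrt_le_iff.2 ⟨by positivity, hz₀s.le⟩
            have hsub : ∀ a b : ℝ × ℝ, toC a - toC b = toC (a - b) := by
              intro a b
              apply Complex.ext <;> simp [toC]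
            have hdist : D < ‖toC x' - toC y'‖ := by
              rw [hsub, norm_toC]
              unfold H709R2.sq
              exact hxy'
            have hfar' : ∃ w ∈ C, 4 * R * Λ ≤ ‖toC w‖ := by
              by_contra hcon
              push Not at hcon
              have h1 := norm_sub_le (toC x') (toC y')
              have h2 := hcon x' hx'
              have h3 := hcon y' hy'
              rw [hD] at hdist
              linarith
            obtain ⟨w, hw, hwn⟩ := hfar'
            have hw2 : v ≤ lg p w := by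
              rw [hv, le_lg_iff (show w ≠ p from fun h => hpC (h ▸ hw)) (by positivity)]
              have h1 : 2 * R * Λ ≤ ‖toC (w - p)‖ := by
                rw [← hsub]
                have := norm_sub_norm_le (toC w) (toC p)
                nlinarith
              have h2 := pow_le_pow_left₀ (by positivity) h1 2
              rw [norm_toC, Real.sq_sqrt (by unfold H709R2.sq; positivity)] at h2
              exact h2
            have hz2 : lg p z₀ ≤ v := by
              rw [hv, lg_le_iff (show z₀ ≠ p from fun h => hpC (h ▸ hz₀)) (by positivity)]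
              have h1 : ‖toC (z₀ - p)‖ ≤ 2 * R * Λ := by
                rw [← hsub]
                have := norm_sub_le (toC z₀) (toC p)
                linarith
              have h2 := pow_le_pow_left₀ (norm_nonneg _) h1 2
              rw [norm_toC, Real.sq_sqrt (by unfold H709R2.sq; positivity)] at h2
              exact h2
            -- intermediate value
            obtain ⟨γ, T, hO, hCr⟩ := m0 X hX2 α C hC'
            have hγp : ∀ t, γ t ≠ p := fun t ht => hpC (by rw [hCr]; exact ⟨t, ht⟩)
            have hlc : Continuous fun t => lg p (γ t) :=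
              continuous_iff_continuousAt.mpr fun t => (hasDerivAt_lg hO hγp t).continuousAt
            rw [hCr] at hw hz₀
            obtain ⟨s, rfl⟩ := hw
            obtain ⟨t, rfl⟩ := hz₀
            obtain ⟨u, hu⟩ := mem_range_of_exists_le_of_exists_ge hlc ⟨t, hz2⟩ ⟨s, hw2⟩
            refine ⟨γ u, by rw [hCr]; exact ⟨u, rfl⟩, ?_, ?_⟩
            · exact le_of_eq hu.symm
            · have : lg p (γ u) = v := hu
              linarith
    refine (encard_mono' hcov).trans ?_
    refine (encard_union_le'' _ _).trans (add_le_add ?_ ?_)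
    · refine (encard_union_le'' _ _).trans (add_le_add (encard_biUnion _ _) (encard_biUnion _ _))
    · exact encard_union_le'' _ _
  · -- the constants
    rw [Finset.sum_const, Finset.sum_const, nsmul_eq_mul, nsmul_eq_mul]
    have hn1 : (1:ℝ) ≤ n := by exact_mod_cast hn
    set l : ℝ := Real.log (R * Λ ^ 2 / r) with hl
    have hl0 : 0 ≤ l := by
      apply Real.log_nonneg
      rw [le_div_iff₀ hr]
      nlinarith [one_le_pow₀ hΛ (n := 2)]
    have hDd : D / d = 16 * (R * Λ ^ 2 / r) := by
      rw [hD, hd]; field_simp; ring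
    have hlogb : Real.logb 2 (D / d) ≤ 4 + 2 * l := by
      rw [hDd, Real.logb_mul (by norm_num) (by positivity)]
      have e1 : Real.logb 2 16 = 4 := by
        rw [show (16:ℝ) = 2 ^ (4:ℝ) by norm_num]
        exact Real.logb_rpow (by norm_num) (by norm_num)
      rw [e1]
      have e2 : Real.logb 2 (R * Λ ^ 2 / r) ≤ 2 * l := by
        unfold Real.logb
        rw [← hl, div_le_iff₀ (Real.log_pos (by norm_num))]
        have := Real.log_two_gt_d9
        nlinarith
      linarith
    set z : ℝ := (Z.card : ℝ) with hz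
    have hz0 : 0 ≤ z := Nat.cast_nonneg _
    have hnz : z ≤ n * z := by nlinarith
    have hπ : 4 * π ≤ 13 := by linarith [Real.pi_lt_d2]
    have h5 : 4 * π * (n:ℝ) * z * (1 + Real.logb 2 (D / d)) ≤ 13 * (n:ℝ) * z * (5 + 2 * l) := by
      refine mul_le_mul ?_ (by linarith) (by positivity) (by positivity)
      have : 4 * π * (n:ℝ) ≤ 13 * n := mul_le_mul_of_nonneg_right hπ (by positivity)
      exact mul_le_mul_of_nonneg_right this hz0
    have h6 : 0 ≤ (n:ℝ) * z * l := by positivity
    nlinarith

end Pool.Agent.TH275.RF
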