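import Pool.Agent.H709R2.Indicatrix

/-! Counting the points of a plane set by dyadic cells, and measurability of projections. -/

open Set MeasureTheory Topology Filter
open scoped ENNReal

namespace Pool.Agent.TH275.RF

open Pool.Agent.H709R2 (dy measurableSet_dy iUnion_dy disjoint_dy encard_le_of_finset)

/-- dyadic cells -/
def cell (k : ℕ) (j : ℤ × ℤ) : Set (ℝ × ℝ) := dy k j.1 ×ˢ dy k j.2

lemma measurableSet_cell (k : ℕ) (j : ℤ × ℤ) : MeasurableSet (cell k j) :=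
  (measurableSet_dy k _).prod (measurableSet_dy k _)

lemma mem_cell (k : ℕ) (q : ℝ × ℝ) : q ∈ cell k (⌊q.1 * 2 ^ k⌋, ⌊q.2 * 2 ^ k⌋) := ⟨rfl, rfl⟩

lemma iUnion_cell (k : ℕ) : ⋃ j, cell k j = univ := by
  ext q
  simp only [mem_iUnion, mem_univ, iff_true]
  exact ⟨_, mem_cell k q⟩

lemma disjoint_cell (k : ℕ) : Pairwise (Function.onFun Disjoint (cell k)) := by
  intro i j hij
  rw [Function.onFun, Set.disjoint_left]
  rintro q ⟨h1, h2⟩ ⟨h3, h4⟩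
  apply hij
  ext
  · exact (show ⌊q.1 * 2 ^ k⌋ = i.1 from h1).symm.trans h3
  · exact (show ⌊q.2 * 2 ^ k⌋ = i.2 from h2).symm.trans h4

lemma floor_ne {x y : ℝ} (hxy : x ≠ y) : ∃ k₀ : ℕ, ∀ k ≥ k₀, ⌊x * 2 ^ k⌋ ≠ ⌊y * 2 ^ k⌋ := by
  have hd : 0 < |x - y| := abs_pos.2 (sub_ne_zero.2 hxy)
  obtain ⟨k₀, hk₀⟩ := exists_nat_gt (1 / |x - y|)
  refine ⟨k₀, fun k hk hfl => ?_⟩
  have h1 : |x * 2 ^ k - y * 2 ^ k| < 1 := Int.abs_sub_lt_one_of_floor_eq_floor hfl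
  rw [← sub_mul, abs_mul, abs_of_pos (by positivity : (0:ℝ) < 2 ^ k)] at h1
  have h2 : (k₀ : ℝ) ≤ 2 ^ k := by
    have h3 : k < 2 ^ k := Nat.lt_two_pow_self
    have h4 : (k₀ : ℝ) ≤ k := by exact_mod_cast hk
    have h5 : (k : ℝ) ≤ 2 ^ k := by exact_mod_cast h3.le
    linarith
  have h6 : 1 < |x - y| * 2 ^ k := by
    rw [div_lt_iff₀ hd] at hk₀
    nlinarith
  linarith

/-- for large `k` the points of a finite set lie in distinct cells -/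
lemma separate (F : Finset (ℝ × ℝ)) : ∃ k₀ : ℕ, ∀ k ≥ k₀, ∀ p ∈ F, ∀ q ∈ F,
    (⌊p.1 * 2 ^ k⌋, ⌊p.2 * 2 ^ k⌋) = (⌊q.1 * 2 ^ k⌋, ⌊q.2 * 2 ^ k⌋) → p = q := by
  have hfin : ∀ a ∈ F ×ˢ F, ∃ k₀ : ℕ, ∀ k ≥ k₀,
      (⌊a.1.1 * 2 ^ k⌋, ⌊a.1.2 * 2 ^ k⌋) = (⌊a.2.1 * 2 ^ k⌋, ⌊a.2.2 * 2 ^ k⌋) → a.1 = a.2 := by
    rintro ⟨p, q⟩ -
    by_cases h1 : p.1 = q.1
    · by_cases h2 : p.2 = q.2
      · exact ⟨0, fun k _ _ => Prod.ext h1 h2⟩
      · obtain ⟨k₀, hk₀⟩ := floor_ne h2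
        exact ⟨k₀, fun k hk h => absurd (congrArg Prod.snd h) (hk₀ k hk)⟩
    · obtain ⟨k₀, hk₀⟩ := floor_ne h1
      exact ⟨k₀, fun k hk h => absurd (congrArg Prod.fst h) (hk₀ k hk)⟩
  choose! kk hkk using hfin
  refine ⟨(F ×ˢ F).sup kk, fun k hk p hp q hq h => ?_⟩
  have hm : (p, q) ∈ F ×ˢ F := Finset.mk_mem_product hp hq
  exact hkk (p, q) hm k ((Finset.le_sup hm).trans hk) h

/-- the number of points of a set is at most the limit of the numbers of cells which meet it -/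
lemma encard_le_liminf (N : Set (ℝ × ℝ)) (u : ℕ → ℤ × ℤ → ℝ≥0∞)
    (hu : ∀ k j, (∃ q ∈ N, q ∈ cell k j) → 1 ≤ u k j) :
    (N.encard : ℝ≥0∞) ≤ liminf (fun k => ∑' j, u k j) atTop := by
  refine encard_le_of_finset fun F hF => ?_
  obtain ⟨k₀, hk₀⟩ := separate F
  refine le_liminf_of_le (by isBoundedDefault) ?_
  filter_upwards [eventually_ge_atTop k₀] with k hk
  set φ : ℝ × ℝ → ℤ × ℤ := fun p => (⌊p.1 * 2 ^ k⌋, ⌊p.2 * 2 ^ k⌋) with hφ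
  have hcard : (F.image φ).card = F.card :=
    Finset.card_image_of_injOn fun x hx y hy h => hk₀ k hk x hx y hy h
  calc (F.card : ℝ≥0∞) = ∑ j ∈ F.image φ, (1:ℝ≥0∞) := by
        rw [Finset.sum_const, hcard]; simp
    _ ≤ ∑ j ∈ F.image φ, u k j := by
        refine Finset.sum_le_sum fun j hj => ?_
        obtain ⟨x, hx, rfl⟩ := Finset.mem_image.1 hj
        exact hu k _ ⟨x, hF hx, mem_cell k x⟩
    _ ≤ ∑' j, u k j := ENNReal.sum_le_tsum _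

/-- projection of a closed set along a compact set -/
lemma isClosed_exists {X : Type*} [TopologicalSpace X] {K : Set (ℝ × ℝ)} (hK : IsCompact K)
    {A : Set (X × (ℝ × ℝ))} (hA : IsClosed A) : IsClosed {c : X | ∃ q ∈ K, (c, q) ∈ A} := by
  have : CompactSpace K := isCompact_iff_compactSpace.1 hK
  have h1 : IsClosed {w : K × X | (w.2, (w.1 : ℝ × ℝ)) ∈ A} :=
    hA.preimage (continuous_snd.prodMk (continuous_subtype_val.comp continuous_fst))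
  have h2 := isClosedMap_snd_of_compactSpace (X := K) (Y := X) _ h1
  convert h2 using 1
  ext c
  simp only [mem_ofPred_eq, mem_image, Prod.exists, exists_eq_right, Subtype.exists]
  constructor
  · rintro ⟨a, b, h1, h2⟩
    exact ⟨a, b, h1, h2⟩
  · rintro ⟨a, b, h1, h2⟩
    exact ⟨a, b, h1, h2⟩

/-- the cells are locally closed -/
lemma cell_eq (k : ℕ) (j : ℤ × ℤ) : ∃ (K : Set (ℝ × ℝ)) (U : Set (ℝ × ℝ)), IsCompact K ∧
    IsOpen U ∧ cell k j = K ∩ U := by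
  have hp : (0:ℝ) < 2 ^ k := by positivity
  refine ⟨Icc ((j.1 : ℝ) / 2 ^ k) ((j.1 + 1) / 2 ^ k) ×ˢ Icc ((j.2 : ℝ) / 2 ^ k) ((j.2 + 1) / 2 ^ k),
    {q | q.1 * 2 ^ k < j.1 + 1} ∩ {q | q.2 * 2 ^ k < j.2 + 1}, isCompact_Icc.prod isCompact_Icc,
    (isOpen_lt (by fun_prop) (by fun_prop)).inter (isOpen_lt (by fun_prop) (by fun_prop)), ?_⟩
  ext q
  simp only [cell, dy, mem_prod, mem_ofPred_eq, mem_inter_iff, mem_Icc, Int.floor_eq_iff]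
  rw [div_le_iff₀ hp, div_le_iff₀ hp, le_div_iff₀ hp, le_div_iff₀ hp]
  constructor
  · rintro ⟨⟨h1, h2⟩, h3, h4⟩
    exact ⟨⟨⟨h1, h2.le⟩, h3, h4.le⟩, h2, h4⟩
  · rintro ⟨⟨⟨h1, -⟩, h3, -⟩, h2, h4⟩
    exact ⟨⟨h1, h2⟩, h3, h4⟩

/-- projection of the part of a closed set over a closed set in a cell -/
lemma measurableSet_exists {X : Type*} [TopologicalSpace X] [MeasurableSpace X] [BorelSpace X]
    {R : Set (ℝ × ℝ)} (hR : IsClosed R) {A : Set (X × (ℝ × ℝ))} (hA : IsClosed A) (k : ℕ)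
    (j : ℤ × ℤ) : MeasurableSet {c : X | ∃ q ∈ R ∩ cell k j, (c, q) ∈ A} := by
  obtain ⟨K, U, hK, hU, hKU⟩ := cell_eq k j
  obtain ⟨G, hG1, -, hG3, -⟩ := hU.exists_iUnion_isClosed
  have h1 : {c : X | ∃ q ∈ R ∩ cell k j, (c, q) ∈ A} =
      ⋃ n, {c : X | ∃ q ∈ K ∩ (R ∩ G n), (c, q) ∈ A} := by
    ext c
    simp only [mem_ofPred_eq, mem_iUnion, hKU, ← hG3, mem_inter_iff]
    constructor
    · rintro ⟨q, ⟨h1, h2, n, h3⟩, h4⟩
      exact ⟨n, q, ⟨h2, h1, h3⟩, h4⟩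
    · rintro ⟨n, q, ⟨h2, h1, h3⟩, h4⟩
      exact ⟨q, ⟨h1, h2, n, h3⟩, h4⟩
  rw [h1]
  exact MeasurableSet.iUnion fun n =>
    (isClosed_exists (hK.inter_right (hR.inter (hG1 n))) hA).measurableSet

end Pool.Agent.TH275.RF
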