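import Pool.Agent.TH275.RF.Cells

/-! Exponential sums in the plane with vector coefficients, solved for one coefficient. -/

open Set MeasureTheory Topology Filter
open scoped ENNReal

namespace Pool.Agent.TH275.RF

noncomputable section

/-- determinant of a linear map of the plane -/
lemma det_plane (L : ℝ × ℝ →L[ℝ] ℝ × ℝ) :
    L.det = (L (1, 0)).1 * (L (0, 1)).2 - (L (1, 0)).2 * (L (0, 1)).1 := by
  unfold ContinuousLinearMap.det
  rw [← LinearMap.det_toMatrix (Module.Basis.finTwoProd ℝ), Matrix.det_fin_two]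
  simp [LinearMap.toMatrix_apply]
  ring

/-- scalar product -/
def ip (a q : ℝ × ℝ) : ℝ := a.1 * q.1 + a.2 * q.2

/-- determinant of two vectors -/
def cr (u v : ℝ × ℝ) : ℝ := u.1 * v.2 - u.2 * v.1

/-- scalar product as a continuous linear form -/
def ipL (a : ℝ × ℝ) : ℝ × ℝ →L[ℝ] ℝ :=
  a.1 • ContinuousLinearMap.fst ℝ ℝ ℝ + a.2 • ContinuousLinearMap.snd ℝ ℝ ℝ

lemma ipL_apply (a q : ℝ × ℝ) : ipL a q = ip a q := by simp [ipL, ip]

lemma hasFDerivAt_ip (a q : ℝ × ℝ) : HasFDerivAt (ip a) (ipL a) q := by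
  have h : ip a = ipL a := by funext x; rw [ipL_apply]
  rw [h]
  exact (ipL a).hasFDerivAt

lemma hasFDerivAt_exp_ip (a q : ℝ × ℝ) :
    HasFDerivAt (fun q => Real.exp (ip a q)) (Real.exp (ip a q) • ipL a) q :=
  (hasFDerivAt_ip a q).exp

lemma continuous_ip (a : ℝ × ℝ) : Continuous (ip a) := by unfold ip; fun_prop

/-- the region where two exponentials are at most one has weighted area at most one -/
lemma pair_int (u v : ℝ × ℝ) {R : Set (ℝ × ℝ)} (hR : MeasurableSet R)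
    (hu : ∀ q ∈ R, ip u q ≤ 0) (hv : ∀ q ∈ R, ip v q ≤ 0) :
    ∫⁻ q in R, ENNReal.ofReal (Real.exp (ip u q) * Real.exp (ip v q) * |cr u v|) ≤ 1 := by
  by_cases h0 : cr u v = 0
  · simp [h0]
  set Φ : ℝ × ℝ → ℝ × ℝ := fun q => (Real.exp (ip u q), Real.exp (ip v q)) with hΦ
  set Φ' : ℝ × ℝ → (ℝ × ℝ →L[ℝ] ℝ × ℝ) := fun q =>
    (Real.exp (ip u q) • ipL u).prod (Real.exp (ip v q) • ipL v) with hΦ'
  have hd : ∀ q ∈ R, HasFDerivWithinAt Φ (Φ' q) R q := fun q _ =>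
    ((hasFDerivAt_exp_ip u q).prodMk (hasFDerivAt_exp_ip v q)).hasFDerivWithinAt
  have hdet : ∀ q, |(Φ' q).det| = Real.exp (ip u q) * Real.exp (ip v q) * |cr u v| := by
    intro q
    rw [det_plane]
    simp only [hΦ', ContinuousLinearMap.prod_apply, smul_apply, ipL_apply,
      smul_eq_mul]
    have e : Real.exp (ip u q) * ip u (1, 0) * (Real.exp (ip v q) * ip v (0, 1)) -
        Real.exp (ip v q) * ip v (1, 0) * (Real.exp (ip u q) * ip u (0, 1)) =
        Real.exp (ip u q) * Real.exp (ip v q) * cr u v := by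
      unfold cr
      simp only [ip]
      ring
    rw [e, abs_mul, abs_of_pos (by positivity)]
  have hinj : InjOn Φ R := by
    intro q _ q' _ h
    have h1 : ip u q = ip u q' := Real.exp_injective (congrArg Prod.fst h)
    have h2 : ip v q = ip v q' := Real.exp_injective (congrArg Prod.snd h)
    unfold ip at h1 h2
    have h3 : cr u v * (q.1 - q'.1) = 0 := by unfold cr; linear_combination v.2 * h1 - u.2 * h2
    have h4 : cr u v * (q.2 - q'.2) = 0 := by unfold cr; linear_combination u.1 * h2 - v.1 * h1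
    have h5 := (mul_eq_zero.1 h3).resolve_left h0
    have h6 := (mul_eq_zero.1 h4).resolve_left h0
    exact Prod.ext (by linarith) (by linarith)
  have hkey := lintegral_abs_det_fderiv_eq_addHaar_image volume hR hd hinj
  simp only [hdet] at hkey
  rw [hkey]
  have hsub : Φ '' R ⊆ Icc 0 1 ×ˢ Icc 0 1 := by
    rintro _ ⟨q, hq, rfl⟩
    refine ⟨⟨(Real.exp_pos _).le, ?_⟩, ⟨(Real.exp_pos _).le, ?_⟩⟩
    · exact Real.exp_le_one_iff.2 (hu q hq)
    · exact Real.exp_le_one_iff.2 (hv q hq)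
  refine (measure_mono hsub).trans ?_
  rw [Measure.volume_eq_prod, Measure.prod_prod, Real.volume_Icc]
  simp

variable {ι : Type*} [Fintype ι]

/-- exponential sum with signs -/
def ES (ε : ι → ℝ) (a : ι → ℝ × ℝ) (c : ι → ℝ × ℝ) (q : ℝ × ℝ) : ℝ × ℝ :=
  ∑ m, (ε m * Real.exp (ip (a m) q)) • c m

/-- relative weights -/
def rel (ε : ι → ℝ) (a : ι → ℝ × ℝ) (m₀ m : ι) (q : ℝ × ℝ) : ℝ :=
  ε m * ε m₀ * Real.exp (ip (a m - a m₀) q)

/-- the sum solved for the coefficient `m₀` -/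
def GG (ε : ι → ℝ) (a : ι → ℝ × ℝ) (m₀ : ι) (c : ι → ℝ × ℝ) (q : ℝ × ℝ) : ℝ × ℝ :=
  ∑ m, rel ε a m₀ m q • c m

/-- its derivative -/
def GD (ε : ι → ℝ) (a : ι → ℝ × ℝ) (m₀ : ι) (c : ι → ℝ × ℝ) (q : ℝ × ℝ) :
    ℝ × ℝ →L[ℝ] ℝ × ℝ :=
  ∑ m, (rel ε a m₀ m q • ipL (a m - a m₀)).smulRight (c m)

lemma hasFDerivAt_GG (ε : ι → ℝ) (a : ι → ℝ × ℝ) (m₀ : ι) (c : ι → ℝ × ℝ) (q : ℝ × ℝ) :
    HasFDerivAt (GG ε a m₀ c) (GD ε a m₀ c q) q := by
  unfold GG GD
  refine HasFDerivAt.fun_sum fun m _ => ?_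
  refine HasFDerivAt.smul_const ?_ (c m)
  unfold rel
  have h := (hasFDerivAt_exp_ip (a m - a m₀) q).const_mul (ε m * ε m₀)
  rw [smul_smul] at h
  exact h

lemma GD_apply (ε : ι → ℝ) (a : ι → ℝ × ℝ) (m₀ : ι) (c : ι → ℝ × ℝ) (q v : ℝ × ℝ) :
    GD ε a m₀ c q v = ∑ m, (rel ε a m₀ m q * ip (a m - a m₀) v) • c m := by
  unfold GD
  rw [sum_apply]
  refine Finset.sum_congr rfl fun m _ => ?_
  simp only [ContinuousLinearMap.smulRight_apply, smul_apply, ipL_apply,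
    smul_eq_mul]

lemma cr_sum (x y : ι → ℝ) (c : ι → ℝ × ℝ) :
    cr (∑ m, x m • c m) (∑ m, y m • c m) =
      (1 / 2) * ∑ m, ∑ m', (x m * y m' - x m' * y m) * cr (c m) (c m') := by
  have h1 : cr (∑ m, x m • c m) (∑ m, y m • c m) =
      ∑ m, ∑ m', x m * y m' * cr (c m) (c m') := by
    unfold cr
    simp only [Prod.fst_sum, Prod.snd_sum, Prod.smul_fst, Prod.smul_snd, smul_eq_mul,
      Finset.sum_mul_sum, ← Finset.sum_sub_distrib]
    refine Finset.sum_congr rfl fun m _ => Finset.sum_congr rfl fun m' _ => ?_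
    ring
  have h2 : ∑ m, ∑ m', x m' * y m * cr (c m) (c m') =
      -∑ m, ∑ m', x m * y m' * cr (c m) (c m') := by
    rw [Finset.sum_comm, ← Finset.sum_neg_distrib]
    refine Finset.sum_congr rfl fun m _ => ?_
    rw [← Finset.sum_neg_distrib]
    refine Finset.sum_congr rfl fun m' _ => ?_
    unfold cr
    ring
  simp only [sub_mul, Finset.sum_sub_distrib]
  rw [h2, h1]
  ring

lemma det_GD (ε : ι → ℝ) (a : ι → ℝ × ℝ) (m₀ : ι) (c : ι → ℝ × ℝ) (q : ℝ × ℝ) :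
    (GD ε a m₀ c q).det = (1 / 2) * ∑ m, ∑ m', rel ε a m₀ m q * rel ε a m₀ m' q *
      cr (a m - a m₀) (a m' - a m₀) * cr (c m) (c m') := by
  rw [det_plane]
  have h := cr_sum (fun m => rel ε a m₀ m q * ip (a m - a m₀) (1, 0))
    (fun m => rel ε a m₀ m q * ip (a m - a m₀) (0, 1)) c
  rw [← GD_apply, ← GD_apply] at h
  unfold cr at h ⊢
  rw [h]
  congr 1
  refine Finset.sum_congr rfl fun m _ => Finset.sum_congr rfl fun m' _ => ?_
  unfold ip
  ring

lemma abs_rel {ε : ι → ℝ} (hε : ∀ m, |ε m| = 1) (a : ι → ℝ × ℝ) (m₀ m : ι) (q : ℝ × ℝ) :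
    |rel ε a m₀ m q| = Real.exp (ip (a m - a m₀) q) := by
  unfold rel
  rw [abs_mul, abs_mul, hε, hε, abs_of_pos (Real.exp_pos _)]
  ring

lemma abs_det_le {ε : ι → ℝ} (hε : ∀ m, |ε m| = 1) (a : ι → ℝ × ℝ) (m₀ : ι) (c : ι → ℝ × ℝ)
    (q : ℝ × ℝ) :
    |(GD ε a m₀ c q).det| ≤ (1 / 2) * ∑ m, ∑ m', Real.exp (ip (a m - a m₀) q) *
      Real.exp (ip (a m' - a m₀) q) * |cr (a m - a m₀) (a m' - a m₀)| * |cr (c m) (c m')| := by
  rw [det_GD, abs_mul, abs_of_pos (by norm_num : (0:ℝ) < 1 / 2)]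
  refine mul_le_mul_of_nonneg_left ?_ (by norm_num)
  refine (Finset.abs_sum_le_sum_abs _ _).trans (Finset.sum_le_sum fun m _ => ?_)
  refine (Finset.abs_sum_le_sum_abs _ _).trans (Finset.sum_le_sum fun m' _ => ?_)
  rw [abs_mul, abs_mul, abs_mul, abs_rel hε, abs_rel hε]

/-- the region where the exponential `m₀` dominates -/
def Rg (a : ι → ℝ × ℝ) (m₀ : ι) : Set (ℝ × ℝ) := {q | ∀ m, ip (a m - a m₀) q ≤ 0}

lemma isClosed_Rg (a : ι → ℝ × ℝ) (m₀ : ι) : IsClosed (Rg a m₀) := by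
  have : Rg a m₀ = ⋂ m, {q | ip (a m - a m₀) q ≤ 0} := by
    ext q; simp [Rg]
  rw [this]
  exact isClosed_iInter fun m => isClosed_le (continuous_ip _) continuous_const

lemma exists_Rg [Nonempty ι] (a : ι → ℝ × ℝ) (q : ℝ × ℝ) : ∃ m₀, q ∈ Rg a m₀ := by
  obtain ⟨m₀, h⟩ := Finite.exists_max (fun m => ip (a m) q)
  refine ⟨m₀, fun m => ?_⟩
  have := h m
  have e : ip (a m - a m₀) q = ip (a m) q - ip (a m₀) q := by
    unfold ip
    simp only [Prod.fst_sub, Prod.snd_sub]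
    ring
  rw [e]
  linarith

/-- integral of the determinant over the region -/
lemma lintegral_det {ε : ι → ℝ} (hε : ∀ m, |ε m| = 1) (a : ι → ℝ × ℝ) (m₀ : ι)
    (c : ι → ℝ × ℝ) :
    ∫⁻ q in Rg a m₀, ENNReal.ofReal |(GD ε a m₀ c q).det| ≤
      ENNReal.ofReal (1 / 2) * ∑ m, ∑ m', ENNReal.ofReal |cr (c m) (c m')| := by
  have h1 : ∀ q, ENNReal.ofReal |(GD ε a m₀ c q).det| ≤ ENNReal.ofReal (1 / 2) * ∑ m, ∑ m',
      ENNReal.ofReal (Real.exp (ip (a m - a m₀) q) * Real.exp (ip (a m' - a m₀) q) *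
        |cr (a m - a m₀) (a m' - a m₀)|) * ENNReal.ofReal |cr (c m) (c m')| := by
    intro q
    refine (ENNReal.ofReal_le_ofReal (abs_det_le hε a m₀ c q)).trans (le_of_eq ?_)
    rw [ENNReal.ofReal_mul (by norm_num), ENNReal.ofReal_sum_of_nonneg (fun m _ =>
      Finset.sum_nonneg fun m' _ => by positivity)]
    congr 1
    refine Finset.sum_congr rfl fun m _ => ?_
    rw [ENNReal.ofReal_sum_of_nonneg (fun m' _ => by positivity)]
    refine Finset.sum_congr rfl fun m' _ => ?_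
    rw [← ENNReal.ofReal_mul (by positivity)]
  have hm : ∀ m m', Measurable fun q => ENNReal.ofReal (Real.exp (ip (a m - a m₀) q) *
      Real.exp (ip (a m' - a m₀) q) * |cr (a m - a m₀) (a m' - a m₀)|) := by
    intro m m'
    refine Measurable.ennreal_ofReal (Continuous.measurable ?_)
    have := continuous_ip (a m - a m₀)
    have := continuous_ip (a m' - a m₀)
    fun_prop
  refine (lintegral_mono h1).trans ?_
  rw [lintegral_const_mul' _ _ ENNReal.ofReal_ne_top]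
  gcongr
  rw [lintegral_finsetSum _ (fun m _ => Finset.measurable_fun_sum _ fun m' _ =>
    (hm m m').mul_const _)]
  refine Finset.sum_le_sum fun m _ => ?_
  rw [lintegral_finsetSum _ (fun m' _ => (hm m m').mul_const _)]
  refine Finset.sum_le_sum fun m' _ => ?_
  rw [lintegral_mul_const' _ _ ENNReal.ofReal_ne_top]
  refine mul_le_of_le_one_left zero_le ?_
  exact pair_int _ _ (isClosed_Rg a m₀).measurableSet (fun q hq => hq m) (fun q hq => hq m')

end

end Pool.Agent.TH275.RF
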