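import Pool.Agent.TH275.RF.Axes
import Pool.Agent.TH275.LF.Roots
import Pool.Agent.H709R2.Param

/-! Polynomial fields with few monomials along lines parallel to the axes. -/

open Set MeasureTheory Topology Filter Polynomial
open scoped ENNReal

namespace Pool.Agent.TH275.RF

noncomputable section

open Pool.Agent.H709R2 (fld)
open Pool.Agent.TH275.LF (LineZ card_roots_le)

variable {S : Finset (ℕ × ℕ)} {n : ℕ}

/-- the number of exponents of `x`, or of `y`, in a set of monomials -/
def nex (S : Finset (ℕ × ℕ)) : ℕ := max (S.image Prod.fst).card (S.image Prod.snd).card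

/-- bound for the number of zeros along the lines parallel to the axes -/
def kap (n : ℕ) (S : Finset (ℕ × ℕ)) : ℕ := min n (2 * nex S - 1)

lemma nex_le (S : Finset (ℕ × ℕ)) : nex S ≤ S.card :=
  max_le Finset.card_image_le Finset.card_image_le

lemma kap_le (n : ℕ) (S : Finset (ℕ × ℕ)) : kap n S ≤ n := min_le_left _ _

lemma kap_le' (n : ℕ) (S : Finset (ℕ × ℕ)) : kap n S ≤ 2 * S.card := by
  have := nex_le S
  have h : kap n S ≤ 2 * nex S - 1 := min_le_right _ _
  omega

lemma encard_roots (P : ℝ[X]) {d : ℕ} {A : Finset ℕ} (hdeg : ∀ k ∈ P.support, k ≤ d)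
    (hA : P.support ⊆ A) : (∀ t, P.eval t = 0) ∨
      {t : ℝ | P.eval t = 0}.encard ≤ ((min d (2 * A.card - 1) : ℕ) : ℕ∞) := by
  by_cases hP : P = 0
  · left; intro t; rw [hP]; simp
  right
  have h1 : {t : ℝ | P.eval t = 0} = (P.roots.toFinset : Set ℝ) := by
    ext t
    simp [mem_roots hP]
  rw [h1, encard_coe_eq_coe_finsetCard]
  have h2 := card_roots_le P hP
  have h3 := Finset.card_le_card hA
  have h4 : P.roots.toFinset.card ≤ P.natDegree := (Multiset.toFinset_card_le _).trans (card_roots' P)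
  have h5 : P.natDegree ≤ d := hdeg _ (natDegree_mem_support_of_nonzero hP)
  exact_mod_cast le_min (by omega) (by omega)

/-- a sparse polynomial in one variable -/
def spoly (S : Finset (ℕ × ℕ)) (e : S → ℕ) (f : S → ℝ) : ℝ[X] := ∑ m : S, monomial (e m) (f m)

lemma eval_spoly (e : S → ℕ) (f : S → ℝ) (t : ℝ) :
    (spoly S e f).eval t = ∑ m : S, f m * t ^ e m := by
  unfold spoly
  rw [eval_finsetSum]
  refine Finset.sum_congr rfl fun m _ => ?_
  rw [eval_monomial]

lemma support_spoly (e : S → ℕ) (f : S → ℝ) :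
    (spoly S e f).support ⊆ Finset.univ.image e := by
  intro k hk
  rw [mem_support_iff] at hk
  unfold spoly at hk
  rw [finsetSum_coeff] at hk
  obtain ⟨m, -, hm⟩ := Finset.exists_ne_zero_of_sum_ne_zero hk
  rw [coeff_monomial] at hm
  refine Finset.mem_image.2 ⟨m, Finset.mem_univ _, ?_⟩
  by_contra h
  exact hm (if_neg h)

lemma encard_spoly (e : S → ℕ) (he : ∀ m, e m ≤ n) (f : S → ℝ) {d : ℕ}
    (hd : (Finset.univ.image e).card ≤ d) :
    (∀ t : ℝ, ∑ m : S, f m * t ^ e m = 0) ∨
      {t : ℝ | ∑ m : S, f m * t ^ e m = 0}.encard ≤ ((min n (2 * d - 1) : ℕ) : ℕ∞) := by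
  have h := encard_roots (spoly S e f) (d := n) (A := Finset.univ.image e) (fun k hk => by
    obtain ⟨m, -, rfl⟩ := Finset.mem_image.1 (support_spoly e f hk)
    exact he m) (support_spoly e f)
  simp only [eval_spoly] at h
  rcases h with h | h
  · exact Or.inl h
  · refine Or.inr (h.trans ?_)
    exact_mod_cast min_le_min le_rfl (by omega)

lemma image_univ_fst (S : Finset (ℕ × ℕ)) :
    (Finset.univ.image fun m : S => m.1.1) = S.image Prod.fst := by
  ext k
  simp only [Finset.mem_image, Finset.mem_univ, true_and, Subtype.exists, exists_prop]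

lemma image_univ_snd (S : Finset (ℕ × ℕ)) :
    (Finset.univ.image fun m : S => m.1.2) = S.image Prod.snd := by
  ext k
  simp only [Finset.mem_image, Finset.mem_univ, true_and, Subtype.exists, exists_prop]

lemma comb_fld (c : S → ℝ × ℝ) (a b : ℝ) (z : ℝ × ℝ) :
    a * (fld c z).1 + b * (fld c z).2 =
      ∑ m : S, (a * (c m).1 + b * (c m).2) * (z.1 ^ m.1.1 * z.2 ^ m.1.2) := by
  unfold fld
  rw [Prod.fst_sum, Prod.snd_sum, Finset.mul_sum, Finset.mul_sum, ← Finset.sum_add_distrib]
  refine Finset.sum_congr rfl fun m _ => ?_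
  simp only [Prod.smul_fst, Prod.smul_snd, smul_eq_mul]
  ring

/-- **Sparse fields turn a bounded number of times along the lines parallel to the axes.** -/
theorem ax_fld (hS : ∀ m ∈ S, m.1 + m.2 ≤ n) (c : S → ℝ × ℝ) : AX (fld c) (kap n S) := by
  refine ⟨?_, ?_, ?_⟩
  · unfold fld
    refine ContDiff.sum fun m _ => ?_
    exact ((contDiff_fst.pow _).mul (contDiff_snd.pow _)).smul contDiff_const
  · intro y a b hab
    have h := encard_spoly (S := S) (n := n) (fun m => m.1.1) (fun m => by have := hS m.1 m.2; omega)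
      (fun m => (a * (c m).1 + b * (c m).2) * y ^ m.1.2) (d := nex S)
      (by rw [image_univ_fst]; exact le_max_left _ _)
    have e : ∀ t : ℝ, a * (fld c (((0:ℝ), y) + t • ((1:ℝ), (0:ℝ)))).1 +
        b * (fld c (((0:ℝ), y) + t • ((1:ℝ), (0:ℝ)))).2 =
        ∑ m : S, (a * (c m).1 + b * (c m).2) * y ^ m.1.2 * t ^ m.1.1 := by
      intro t
      rw [comb_fld]
      refine Finset.sum_congr rfl fun m _ => ?_
      simp only [Prod.fst_add, Prod.smul_fst, smul_eq_mul, mul_one, zero_add, Prod.snd_add,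
        Prod.smul_snd, mul_zero, add_zero]
      ring
    simp only [e]
    exact h
  · intro x a b hab
    have h := encard_spoly (S := S) (n := n) (fun m => m.1.2) (fun m => by have := hS m.1 m.2; omega)
      (fun m => (a * (c m).1 + b * (c m).2) * x ^ m.1.1) (d := nex S)
      (by rw [image_univ_snd]; exact le_max_right _ _)
    have e : ∀ t : ℝ, a * (fld c ((x, (0:ℝ)) + t • ((0:ℝ), (1:ℝ)))).1 +
        b * (fld c ((x, (0:ℝ)) + t • ((0:ℝ), (1:ℝ)))).2 =
        ∑ m : S, (a * (c m).1 + b * (c m).2) * x ^ m.1.1 * t ^ m.1.2 := by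
      intro t
      rw [comb_fld]
      refine Finset.sum_congr rfl fun m _ => ?_
      simp only [Prod.fst_add, Prod.smul_fst, smul_eq_mul, mul_one, zero_add, Prod.snd_add,
        Prod.smul_snd, mul_zero, add_zero]
      ring
    simp only [e]
    exact h

end

end Pool.Agent.TH275.RF
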