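import Pool.Agent.W960.HR.Exp2
import Pool.Agent.TH275.RF.DetX
import Pool.Agent.TH275.RF.Lines

/-! The expected number of closed orbits of a random polynomial field with few monomials, in terms of
the expected number of equilibria. -/

open Real Set MeasureTheory Topology Filter
open scoped ENNReal

namespace Pool.Agent.TH275.RF

noncomputable section

open Pool.Agent
open Pool.Agent.H709R2 (fld rot rotc rot_fld NP measurable_NP continuous_rotc exists_poly)
open Pool.Agent.H709U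
open Pool.Agent.H709Q (Maj)
open Pool.Agent.W960.HR (Full NZ Good Phi Mk tk lk bk mk_ge tk_pos lk_ge bk_ge log_level card_le
  reg_of_good det Mom Dens RotInv prob_level measurePreserving_rotc')

variable {S : Finset (ℕ × ℕ)} {n : ℕ} {M t : ℝ}

lemma one_le_kap (hF : Full n S) : 1 ≤ kap n S := by
  have h1 := hF.one_le
  have h2 : 1 ≤ nex S := by
    refine le_trans ?_ (le_max_left _ _)
    exact Finset.card_pos.2 ⟨0, Finset.mem_image.2 ⟨(0, 0), hF.h00, rfl⟩⟩
  exact le_min h1 (by omega)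

/-- the integral over the rotations for a good vector of coefficients -/
theorem phi_leX (hF : Full n S) (hM1 : 1 ≤ M) (ht : 0 < t) (ht1 : t ≤ 1) {c : S → ℝ × ℝ}
    (hg : Good n c M t) :
    ∃ Z : Finset (ℝ × ℝ), Z.card ≤ n ^ 2 ∧ NZ c = (Z.card : ℝ≥0∞) ∧
    Maj (fun α => NP (rotc α c)) (700000 * (1 + Real.log (n * M / t)) * (1 + kap n S * Z.card)) := by
  have hn := hF.one_le
  have hn1 : (1:ℝ) ≤ n := by exact_mod_cast hn
  have hN1 : (1:ℝ) ≤ 4 * n ^ 2 := by nlinarith
  obtain ⟨P, Q, hP, hQ, hPQ⟩ := exists_poly c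
  have hdeg : S.sup (fun m => m.1 + m.2) ≤ n := Finset.sup_le hF.deg
  have hreg := reg_of_good hF.deg hn (card_le hF) hN1 hM1 ht ht1 hg
  rw [← hPQ] at hreg
  set A : ℝ := 4 * n ^ 2 * (n * M) with hA
  have hA1 : 1 ≤ A := one_le_mul_of_one_le_of_one_le hN1 (one_le_mul_of_one_le_of_one_le hn1 hM1)
  have hB : 1 ≤ 4 * (n:ℝ) ^ 2 * (n ^ 2 * M) := one_le_mul_of_one_le_of_one_le hN1
    (one_le_mul_of_one_le_of_one_le (one_le_pow₀ hn1) hM1)
  have ht2 : t ^ 2 ≤ 1 := pow_le_one₀ ht.le ht1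
  have hRR : (1:ℝ) ≤ 6 * A / t := by rw [le_div_iff₀ ht]; linarith
  have hΛΛ : (1:ℝ) ≤ 96 * A ^ 2 / t ^ 2 := by rw [le_div_iff₀ (by positivity)]; nlinarith
  have hrr : 0 < t / (200 * (4 * n ^ 2 * (n ^ 2 * M))) := by positivity
  have hrr1 : t / (200 * (4 * n ^ 2 * (n ^ 2 * M))) ≤ 1 := by
    rw [div_le_one (by positivity)]; linarith
  obtain ⟨Z, hZc, hZ, -⟩ := det hn (hP.trans hdeg) (hQ.trans hdeg) hRR hrr hrr1 hΛΛ hreg
  rw [hPQ] at hreg
  have hk1 : 1 ≤ kap n S := one_le_kap hF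
  have hZ' : ∀ z, fld c z = 0 ↔ z ∈ Z := by
    intro z
    rw [← hPQ]
    exact hZ z
  have hdet := detX hk1 (ax_fld hF.deg c) hZ' hRR hrr hrr1 hΛΛ hreg
  have hcl : ∀ α, NP (rotc α c) = ((ClX (fld c) α).encard : ℝ≥0∞) := by
    intro α
    unfold NP ClX
    have : rf (fld c) α = fld (rotc α c) := by
      funext z
      unfold rf
      rw [rot_fld]
    rw [this]
  have hNZ : NZ c = (Z.card : ℝ≥0∞) := by
    unfold NZ
    have h1 : {z : ℝ × ℝ | fld c z = 0} = (Z : Set (ℝ × ℝ)) := by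
      ext z
      rw [mem_ofPred_eq, hZ', Finset.mem_coe]
    rw [h1, Set.encard_coe_eq_coe_finsetCard]
    simp
  refine ⟨Z, hZc, hNZ, Z1aux.maj_mono (fun α _ => le_of_eq (hcl α)) ?_ hdet⟩
  set x : ℝ := n * M / t with hx
  have hx1 : 1 ≤ x := by
    rw [hx, le_div_iff₀ ht]
    have : 1 ≤ (n:ℝ) * M := one_le_mul_of_one_le_of_one_le hn1 hM1
    linarith
  have e1 : 6 * A / t * (96 * A ^ 2 / t ^ 2) ^ 2 / (t / (200 * (4 * n ^ 2 * (n ^ 2 * M)))) =
      45298483200 * ((n:ℝ) ^ 19 * M ^ 6 / t ^ 6) := by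
    rw [hA]
    field_simp
    ring
  have e2 : (n:ℝ) ^ 19 * M ^ 6 / t ^ 6 ≤ x ^ 19 := by
    rw [hx, div_pow, mul_pow]
    have h1 : M ^ 6 ≤ M ^ 19 := pow_le_pow_right₀ hM1 (by norm_num)
    have h2 : t ^ 19 ≤ t ^ 6 := pow_le_pow_of_le_one ht.le ht1 (by norm_num)
    gcongr
  have e3 : (45298483200 : ℝ) ≤ Real.exp 25 := by
    have h1 : Real.exp 25 = Real.exp 1 ^ 25 := by rw [← Real.exp_nat_mul]; norm_num
    rw [h1]
    calc (45298483200 : ℝ) ≤ (27 / 10) ^ 25 := by norm_num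
      _ ≤ Real.exp 1 ^ 25 := by
          gcongr
          linarith [Real.exp_one_gt_d9]
  have e4 : Real.log (6 * A / t * (96 * A ^ 2 / t ^ 2) ^ 2 /
      (t / (200 * (4 * n ^ 2 * (n ^ 2 * M))))) ≤ 25 + 19 * Real.log x := by
    rw [e1]
    have h1 : 45298483200 * ((n:ℝ) ^ 19 * M ^ 6 / t ^ 6) ≤ Real.exp 25 * x ^ 19 :=
      mul_le_mul e3 e2 (by positivity) (by positivity)
    refine (Real.log_le_log (by positivity) h1).trans ?_
    rw [Real.log_mul (by positivity) (by positivity), Real.log_exp, Real.log_pow]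
    push_cast
    exact le_rfl
  have hl : 0 ≤ Real.log x := Real.log_nonneg hx1
  set w : ℝ := kap n S * (Z.card : ℝ) with hw
  have hw0 : 0 ≤ w := by positivity
  have h5 : 25000 * (1 + w * (1 + Real.log (6 * A / t * (96 * A ^ 2 / t ^ 2) ^ 2 /
      (t / (200 * (4 * n ^ 2 * (n ^ 2 * M))))))) ≤ 25000 * (1 + w * (1 + (25 + 19 * Real.log x))) := by
    gcongr
  refine h5.trans ?_
  nlinarith [mul_nonneg hw0 hl]

/-- the integral over the rotations, pointwise -/
lemma phi_le_bkX (hF : Full n S) {D W : ℝ} (hD : 1 ≤ D) (hW : 1 ≤ W) (k : ℕ) {c : S → ℝ × ℝ}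
    (hg : Good n c (Mk n W k) (tk n D W k)) :
    Phi c ≤ ENNReal.ofReal (bk n D W k) * (1 + kap n S * NZ c) ∧ NZ c ≤ (n:ℝ≥0∞) ^ 2 := by
  obtain ⟨Z, hZc, hNZ, g, hg1, hg2, hg3⟩ := phi_leX hF (mk_ge hF.one_le hW k)
    (tk_pos hF.one_le hD hW k).1 (tk_pos hF.one_le hD hW k).2 hg
  have hb := bk_ge hF.one_le hD hW k
  constructor
  · unfold Phi
    refine (setLIntegral_mono' measurableSet_Ioo hg2).trans (hg3.trans ?_)
    rw [hNZ]
    have e1 : ENNReal.ofReal (bk n D W k) * (1 + kap n S * (Z.card : ℝ≥0∞)) =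
        ENNReal.ofReal (bk n D W k * (1 + kap n S * Z.card)) := by
      rw [ENNReal.ofReal_mul (by linarith), ENNReal.ofReal_add (by norm_num) (by positivity),
        ENNReal.ofReal_one, ENNReal.ofReal_mul (by positivity), ENNReal.ofReal_natCast,
        ENNReal.ofReal_natCast]
    rw [e1]
    apply ENNReal.ofReal_le_ofReal
    exact mul_le_mul_of_nonneg_right (log_level hF.one_le hD hW k) (by positivity)
  · rw [hNZ]
    exact_mod_cast hZc

/-- layers -/
lemma phi_le_tsumX (hF : Full n S) {D W : ℝ} (hD : 1 ≤ D) (hW : 1 ≤ W) (c : S → ℝ × ℝ) :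
    Phi c ≤ ENNReal.ofReal (bk n D W 0) * (1 + kap n S * NZ c) + ∑' k : ℕ,
      {c : S → ℝ × ℝ | ¬ Good n c (Mk n W k) (tk n D W k)}.indicator
        (fun _ => ENNReal.ofReal (bk n D W (k + 1) * (2 * n ^ 3))) c := by
  have hn1 : (1:ℝ) ≤ n := by exact_mod_cast hF.one_le
  by_cases h : ∃ k, Good n c (Mk n W k) (tk n D W k)
  · classical
    have hs := Nat.find_spec h
    have hm := fun j => Nat.find_min h (m := j)
    set k := Nat.find h with hk
    rcases Nat.eq_zero_or_pos k with h0 | h0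
    · rw [h0] at hs
      exact (phi_le_bkX hF hD hW 0 hs).1.trans le_self_add
    · obtain ⟨j, hj⟩ := Nat.exists_eq_add_of_le' h0
      have h1 : ¬ Good n c (Mk n W j) (tk n D W j) := hm j (by omega)
      have h2 : ENNReal.ofReal (bk n D W (j + 1) * (2 * n ^ 3)) ≤ ∑' k : ℕ,
          {c : S → ℝ × ℝ | ¬ Good n c (Mk n W k) (tk n D W k)}.indicator
            (fun _ => ENNReal.ofReal (bk n D W (k + 1) * (2 * n ^ 3))) c := by
        refine le_trans ?_ (ENNReal.le_tsum j)
        rw [indicator_of_mem (show c ∈ {c : S → ℝ × ℝ | ¬ Good n c (Mk n W j) (tk n D W j)} from h1)]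
      rw [hj] at hs
      obtain ⟨h3, h4⟩ := phi_le_bkX hF hD hW (j + 1) hs
      refine h3.trans (le_trans ?_ (h2.trans le_add_self))
      have hb := bk_ge hF.one_le hD hW (j + 1)
      rw [ENNReal.ofReal_mul (by linarith)]
      refine mul_le_mul_right ?_ _
      calc 1 + (kap n S:ℝ≥0∞) * NZ c ≤ 1 + (n:ℝ≥0∞) * (n:ℝ≥0∞) ^ 2 := by
            gcongr
            exact kap_le n S
        _ = ENNReal.ofReal (1 + n * n ^ 2) := by
            rw [ENNReal.ofReal_add (by norm_num) (by positivity), ENNReal.ofReal_one,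
              ENNReal.ofReal_mul (by positivity), ENNReal.ofReal_pow (by positivity),
              ENNReal.ofReal_natCast]
        _ ≤ ENNReal.ofReal (2 * n ^ 3) := by
            apply ENNReal.ofReal_le_ofReal
            have : (1:ℝ) ≤ (n:ℝ) ^ 3 := one_le_pow₀ hn1
            nlinarith
  · push Not at h
    have h1 : ∑' k : ℕ, {c : S → ℝ × ℝ | ¬ Good n c (Mk n W k) (tk n D W k)}.indicator
        (fun _ => ENNReal.ofReal (bk n D W (k + 1) * (2 * n ^ 3))) c = ⊤ := by
      rw [eq_top_iff]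
      have h2 : ∀ k : ℕ, (1:ℝ≥0∞) ≤ {c : S → ℝ × ℝ | ¬ Good n c (Mk n W k) (tk n D W k)}.indicator
          (fun _ => ENNReal.ofReal (bk n D W (k + 1) * (2 * n ^ 3))) c := by
        intro k
        rw [indicator_of_mem (show c ∈ {c : S → ℝ × ℝ | ¬ Good n c (Mk n W k) (tk n D W k)} from h k)]
        rw [← ENNReal.ofReal_one]
        apply ENNReal.ofReal_le_ofReal
        have h5 := bk_ge hF.one_le hD hW (k + 1)
        have h6 : (1:ℝ) ≤ (n:ℝ) ^ 3 := one_le_pow₀ hn1
        nlinarith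
      calc (⊤ : ℝ≥0∞) = ∑' _ : ℕ, (1:ℝ≥0∞) := (ENNReal.tsum_const_eq_top_of_ne_zero one_ne_zero).symm
        _ ≤ _ := ENNReal.tsum_le_tsum h2
    rw [h1]
    simp

/-- the integral over the rotations, in the mean -/
theorem lintegral_phiX (hF : Full n S) (μ : S → Measure (ℝ × ℝ)) [∀ m, IsProbabilityMeasure (μ m)]
    {D W : ℝ} (hD1 : 1 ≤ D) (hW1 : 1 ≤ W) (hD : Dens μ D) (hW : Mom μ W) :
    ∫⁻ c, Phi c ∂Measure.pi μ ≤
      ENNReal.ofReal (220000000 * (1 + Real.log (n * D * W))) *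
        (1 + kap n S * ∫⁻ c, NZ c ∂Measure.pi μ) := by
  have hn := hF.one_le
  have hn1 : (1:ℝ) ≤ n := by exact_mod_cast hn
  have hn0 : (0:ℝ) < n := by linarith
  set P := Measure.pi μ with hP
  set l := Real.log (n * D * W) with hl
  have hl0 : 0 ≤ l := Real.log_nonneg
    (one_le_mul_of_one_le_of_one_le (one_le_mul_of_one_le_of_one_le hn1 hD1) hW1)
  have hb : ∀ k, 0 ≤ bk n D W k := fun k => by linarith [bk_ge hn hD1 hW1 k]
  set E : ℕ → Set (S → ℝ × ℝ) := fun k =>
    toMeasurable P {c | ¬ Good n c (Mk n W k) (tk n D W k)} with hE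
  set T : (S → ℝ × ℝ) → ℝ≥0∞ := fun c => ∑' k : ℕ,
      (E k).indicator (fun _ => ENNReal.ofReal (bk n D W (k + 1) * (2 * n ^ 3))) c with hT
  have hTm : Measurable T := Measurable.tsum fun k =>
    measurable_const.indicator (measurableSet_toMeasurable _ _)
  have h1 : ∀ c : S → ℝ × ℝ, Phi c ≤ ENNReal.ofReal (bk n D W 0) * (1 + kap n S * NZ c) + T c := by
    intro c
    refine (phi_le_tsumX hF hD1 hW1 c).trans (add_le_add le_rfl (ENNReal.tsum_le_tsum fun k => ?_))
    exact indicator_le_indicator_of_subset (subset_toMeasurable _ _) (fun _ => zero_le) c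
  refine (lintegral_mono h1).trans ?_
  rw [lintegral_add_right _ hTm, lintegral_const_mul' _ _ ENNReal.ofReal_ne_top,
    lintegral_add_left measurable_const, lintegral_const, measure_univ, mul_one,
    lintegral_const_mul' _ _ (ENNReal.natCast_ne_top (kap n S))]
  set Y := 1 + (kap n S:ℝ≥0∞) * ∫⁻ c, NZ c ∂P with hY
  have hTi : ∫⁻ c, T c ∂P ≤ ENNReal.ofReal (191000000 * (1 + l)) := by
    simp only [hT]
    rw [lintegral_tsum fun k =>
      (measurable_const.indicator (measurableSet_toMeasurable _ _)).aemeasurable]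
    have h2 : ∀ k, ∫⁻ c, (E k).indicator
        (fun _ => ENNReal.ofReal (bk n D W (k + 1) * (2 * n ^ 3))) c ∂P ≤
        ENNReal.ofReal (bk n D W (k + 1) * (4 * (1 / 2) ^ k)) := by
      intro k
      rw [lintegral_indicator (measurableSet_toMeasurable _ _), setLIntegral_const,
        measure_toMeasurable]
      refine (mul_le_mul_right (prob_level hF μ hD1 hW1 hD hW k) _).trans ?_
      have h3 := hb (k + 1)
      rw [← ENNReal.ofReal_mul (by positivity)]
      apply ENNReal.ofReal_le_ofReal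
      have h5 : (1 / 2 : ℝ) ^ k = 1 / 2 ^ k := by rw [one_div, one_div, inv_pow]
      rw [h5]
      unfold lk
      refine le_of_eq ?_
      field_simp
      ring
    set a : ℝ := 700000 * (24 + 32 * l) with ha
    set b : ℝ := 3500000 with hbd
    have hbk : ∀ k, bk n D W k = a + b * k := by
      intro k
      unfold bk
      rw [ha, hbd, ← hl]; ring
    have hs1 : HasSum (fun k : ℕ => ((1 / 2 : ℝ)) ^ k) 2 := hasSum_geometric_two
    have hs2 : HasSum (fun k : ℕ => (k : ℝ) * (1 / 2) ^ k) 2 := by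
      have := hasSum_coe_mul_geometric_of_norm_lt_one (r := (1 / 2 : ℝ)) (by norm_num)
      norm_num at this ⊢
      exact this
    have hs : HasSum (fun k : ℕ => bk n D W (k + 1) * (4 * (1 / 2) ^ k)) (8 * a + 16 * b) := by
      have h3 := ((hs1.mul_left (4 * (a + b))).add (hs2.mul_left (4 * b)))
      have e : 4 * (a + b) * 2 + 4 * b * 2 = 8 * a + 16 * b := by ring
      rw [e] at h3
      have e' : (fun k : ℕ => bk n D W (k + 1) * (4 * (1 / 2) ^ k)) =
          fun k : ℕ => 4 * (a + b) * (1 / 2) ^ k + 4 * b * (k * (1 / 2) ^ k) := by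
        funext k
        rw [hbk]
        push_cast
        ring
      rw [e']
      exact h3
    refine (ENNReal.tsum_le_tsum h2).trans ?_
    rw [← ENNReal.ofReal_tsum_of_nonneg (fun k => mul_nonneg (hb _) (by positivity)) hs.summable,
      hs.tsum_eq]
    apply ENNReal.ofReal_le_ofReal
    rw [ha, hbd]
    linarith
  have hY1 : 1 ≤ Y := le_self_add
  have h4 : ENNReal.ofReal (191000000 * (1 + l)) ≤ ENNReal.ofReal (191000000 * (1 + l)) * Y :=
    le_mul_of_one_le_right zero_le hY1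
  calc ENNReal.ofReal (bk n D W 0) * Y + ∫⁻ c, T c ∂P
      ≤ ENNReal.ofReal (bk n D W 0) * Y + ENNReal.ofReal (191000000 * (1 + l)) * Y :=
        add_le_add le_rfl (hTi.trans h4)
    _ = ENNReal.ofReal (bk n D W 0 + 191000000 * (1 + l)) * Y := by
        rw [← add_mul, ← ENNReal.ofReal_add (hb 0) (by positivity)]
    _ ≤ ENNReal.ofReal (220000000 * (1 + l)) * Y := by
        refine mul_le_mul_left (ENNReal.ofReal_le_ofReal ?_) _
        unfold bk
        rw [← hl, Nat.cast_zero]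
        linarith

/-- **The expected number of closed orbits.** -/
theorem expectedX (hF : Full n S) (μ : S → Measure (ℝ × ℝ)) [∀ m, IsProbabilityMeasure (μ m)]
    {D W : ℝ} (hD1 : 1 ≤ D) (hW1 : 1 ≤ W) (hD : Dens μ D) (hW : Mom μ W) (hR : RotInv μ) :
    ∫⁻ c, NP c ∂Measure.pi μ ≤
      ENNReal.ofReal (80000000 * (1 + Real.log (n * D * W))) *
        (1 + kap n S * ∫⁻ c, NZ c ∂Measure.pi μ) := by
  have hn1 : (1:ℝ) ≤ n := by exact_mod_cast hF.one_le
  have hl0 : 0 ≤ Real.log (n * D * W) := Real.log_nonneg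
    (one_le_mul_of_one_le_of_one_le (one_le_mul_of_one_le_of_one_le hn1 hD1) hW1)
  have h1 : ∀ α, ∫⁻ c, NP (rotc α c) ∂Measure.pi μ = ∫⁻ c, NP c ∂Measure.pi μ := fun α =>
    (measurePreserving_rotc' μ hR α).lintegral_comp measurable_NP
  have hmeas : Measurable (Function.uncurry fun (α : ℝ) (c : S → ℝ × ℝ) => NP (rotc α c)) :=
    measurable_NP.comp continuous_rotc.measurable
  have h2 : ∫⁻ c, Phi c ∂Measure.pi μ = ENNReal.ofReal π * ∫⁻ c, NP c ∂Measure.pi μ := by
    unfold Phi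
    rw [← lintegral_lintegral_swap (μ := volume.restrict (Ioo 0 π)) (ν := Measure.pi μ)
      (f := fun (α : ℝ) (c : S → ℝ × ℝ) => NP (rotc α c)) hmeas.aemeasurable]
    simp only [h1]
    rw [lintegral_const, Measure.restrict_apply_univ, Real.volume_Ioo, sub_zero, mul_comm]
  have h3 := lintegral_phiX hF μ hD1 hW1 hD hW
  rw [h2] at h3
  set Y := 1 + (kap n S:ℝ≥0∞) * ∫⁻ c, NZ c ∂Measure.pi μ with hY
  have h4 : ENNReal.ofReal 3 * ∫⁻ c, NP c ∂Measure.pi μ ≤
      ENNReal.ofReal 3 * (ENNReal.ofReal (80000000 * (1 + Real.log (n * D * W))) * Y) := by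
    rw [← mul_assoc, ← ENNReal.ofReal_mul (by norm_num)]
    refine le_trans ?_ (h3.trans (mul_le_mul_left (ENNReal.ofReal_le_ofReal ?_) _))
    · gcongr
      exact Real.pi_gt_three.le
    · nlinarith
  exact (ENNReal.mul_le_mul_iff_right (by simp) ENNReal.ofReal_ne_top).1 h4

end

end Pool.Agent.TH275.RF
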