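import Pool.Agent.TH275.RF.Weighted
import Pool.Agent.TH275.RF.Phi
import Pool.Agent.W960.HR.Smooth2

/-! Gaussian laws with arbitrary centres: the weighted mean number of zeros. -/

open Set MeasureTheory Topology Filter ProbabilityTheory
open scoped ENNReal

namespace Pool.Agent.TH275.RF

noncomputable section

open Pool.Agent
open Pool.Agent.H709R2 (fld g2 g2_eq dens dens_nonneg measurable_dens)
open Pool.Agent.W960.HR (NZ xx xx_nonneg sn sn_nonneg gb GP continuous_xx lintegral_gb mean_weight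
  dens_eq dens_gb mom_g2)

variable {S : Finset (ℕ × ℕ)}

/-- Cauchy-Schwarz -/
lemma cs {Ω : Type*} [MeasurableSpace Ω] (P : Measure Ω) {x y : Ω → ℝ} (hx : Measurable x)
    {T R : ℝ} (hT : 0 < T) (hR : 0 < R)
    (h1 : ∫⁻ ω, ENNReal.ofReal (x ω ^ 2) ∂P ≤ ENNReal.ofReal (T ^ 2))
    (h2 : ∫⁻ ω, ENNReal.ofReal (y ω ^ 2) ∂P ≤ ENNReal.ofReal (R ^ 2)) :
    ∫⁻ ω, ENNReal.ofReal (x ω * y ω) ∂P ≤ ENNReal.ofReal (T * R) := by
  have h3 : ∀ ω, ENNReal.ofReal (x ω * y ω) ≤ ENNReal.ofReal (R / (2 * T)) *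
      ENNReal.ofReal (x ω ^ 2) + ENNReal.ofReal (T / (2 * R)) * ENNReal.ofReal (y ω ^ 2) := by
    intro ω
    rw [← ENNReal.ofReal_mul (by positivity), ← ENNReal.ofReal_mul (by positivity),
      ← ENNReal.ofReal_add (by positivity) (by positivity)]
    apply ENNReal.ofReal_le_ofReal
    have h4 : R / (2 * T) * x ω ^ 2 + T / (2 * R) * y ω ^ 2 - x ω * y ω =
        (R * x ω - T * y ω) ^ 2 / (2 * T * R) := by
      field_simp
      ring
    have h5 : 0 ≤ (R * x ω - T * y ω) ^ 2 / (2 * T * R) := by positivity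
    linarith
  have hxm : Measurable fun ω => ENNReal.ofReal (R / (2 * T)) * ENNReal.ofReal (x ω ^ 2) :=
    (ENNReal.measurable_ofReal.comp (hx.pow_const 2)).const_mul _
  refine (lintegral_mono h3).trans ?_
  rw [lintegral_add_left hxm, lintegral_const_mul' _ _ ENNReal.ofReal_ne_top,
    lintegral_const_mul' _ _ ENNReal.ofReal_ne_top]
  calc ENNReal.ofReal (R / (2 * T)) * ∫⁻ ω, ENNReal.ofReal (x ω ^ 2) ∂P +
        ENNReal.ofReal (T / (2 * R)) * ∫⁻ ω, ENNReal.ofReal (y ω ^ 2) ∂P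
      ≤ ENNReal.ofReal (R / (2 * T)) * ENNReal.ofReal (T ^ 2) +
        ENNReal.ofReal (T / (2 * R)) * ENNReal.ofReal (R ^ 2) := by gcongr
    _ = ENNReal.ofReal (T * R) := by
        rw [← ENNReal.ofReal_mul (by positivity), ← ENNReal.ofReal_mul (by positivity),
          ← ENNReal.ofReal_add (by positivity) (by positivity)]
        congr 1
        field_simp
        ring

lemma en_sq (v : ℝ × ℝ) : en v ^ 2 = H709R2.sq v := by
  unfold en H709R2.sq
  rw [Real.sq_sqrt (by positivity)]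

lemma en_nonneg (v : ℝ × ℝ) : 0 ≤ en v := Real.sqrt_nonneg _

lemma en_add_le (u v : ℝ × ℝ) : en (u + v) ≤ en u + en v := by
  have h1 : ∀ w : ℝ × ℝ, en w = ‖(⟨w.1, w.2⟩ : ℂ)‖ := by
    intro w
    unfold en
    rw [Complex.norm_eq_sqrt_sq_add_sq]
  rw [h1, h1, h1]
  have h2 : (⟨(u + v).1, (u + v).2⟩ : ℂ) = ⟨u.1, u.2⟩ + ⟨v.1, v.2⟩ := by
    apply Complex.ext <;> simp
  rw [h2]
  exact norm_add_le _ _

/-- the density is bounded -/
lemma dens_le (v : ℝ × ℝ) : dens v ≤ 1 / 6 ∧ en v * dens v ≤ 1 / 6 := by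
  rw [dens_eq, ← en_sq]
  have h1 : (√(2 * Real.pi))⁻¹ ^ 2 ≤ 1 / 6 := by
    rw [inv_pow, Real.sq_sqrt (by positivity), inv_le_comm₀ (by positivity) (by norm_num)]
    have := Real.pi_gt_three
    norm_num
    linarith
  have h0 : 0 ≤ (√(2 * Real.pi))⁻¹ ^ 2 := by positivity
  set x := en v with hx
  have hx0 : 0 ≤ x := en_nonneg v
  have h2 : Real.exp (-x ^ 2 / 2) ≤ 1 := by
    apply Real.exp_le_one_iff.2
    have := sq_nonneg x
    linarith
  have h3 : x * Real.exp (-x ^ 2 / 2) ≤ 1 := by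
    have h4 : x ≤ Real.exp (x ^ 2 / 2) := by
      have := Real.add_one_le_exp (x ^ 2 / 2)
      nlinarith [sq_nonneg (x - 1)]
    have h5 : Real.exp (-x ^ 2 / 2) * Real.exp (x ^ 2 / 2) = 1 := by
      rw [← Real.exp_add]
      have : -x ^ 2 / 2 + x ^ 2 / 2 = 0 := by ring
      rw [this, Real.exp_zero]
    have h6 := Real.exp_pos (-x ^ 2 / 2)
    nlinarith [mul_le_mul_of_nonneg_right h4 h6.le]
  constructor
  · calc (√(2 * Real.pi))⁻¹ ^ 2 * Real.exp (-x ^ 2 / 2) ≤ 1 / 6 * 1 := by gcongr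
      _ = 1 / 6 := by ring
  · calc x * ((√(2 * Real.pi))⁻¹ ^ 2 * Real.exp (-x ^ 2 / 2)) =
        (√(2 * Real.pi))⁻¹ ^ 2 * (x * Real.exp (-x ^ 2 / 2)) := by ring
      _ ≤ 1 / 6 * 1 := by gcongr
      _ = 1 / 6 := by ring

/-- the law of one coefficient -/
def law (b : S → ℝ × ℝ) (m : S) : Measure (ℝ × ℝ) := g2.map fun v => b m + v

instance (b : S → ℝ × ℝ) (m : S) : IsProbabilityMeasure (law b m) := by
  unfold law; infer_instance

lemma gb_eq (b : S → ℝ × ℝ) : gb b = Measure.pi (law b) := rfl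

lemma lintegral_law (b : S → ℝ × ℝ) (m : S) {f : ℝ × ℝ → ℝ≥0∞} (hf : Measurable f) :
    ∫⁻ v, f v ∂law b m = ∫⁻ v, ENNReal.ofReal (dens v) * f (b m + v) := by
  unfold law
  rw [lintegral_map hf (by fun_prop), g2_eq]
  have hd : Measurable fun v : ℝ × ℝ => ENNReal.ofReal (dens v) :=
    ENNReal.measurable_ofReal.comp measurable_dens
  have hf' : Measurable fun v : ℝ × ℝ => f (b m + v) := hf.comp (by fun_prop)
  rw [lintegral_withDensity_eq_lintegral_mul _ hd hf']
  rfl

/-- the weight as a function of one coefficient -/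
lemma xx_update' (c b : S → ℝ × ℝ) (m₀ : S) (v v' : ℝ × ℝ) :
    xx (Function.update c m₀ v) b ≤ xx (Function.update c m₀ v') b + en (v - v') * en (b m₀) := by
  have h1 : ∀ (u : S → ℝ × ℝ), xx u b = ‖(⟨W960.HR.ip u b, W960.HR.iw u b⟩ : ℂ)‖ := by
    intro u
    unfold xx
    rw [Complex.norm_eq_sqrt_sq_add_sq]
  have h2 : W960.HR.ip (Function.update c m₀ v) b = W960.HR.ip (Function.update c m₀ v') b +
      ((v - v').1 * (b m₀).1 + (v - v').2 * (b m₀).2) := by
    unfold W960.HR.ip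
    rw [← Finset.add_sum_erase Finset.univ (fun m => (Function.update c m₀ v m).1 * (b m).1 +
      (Function.update c m₀ v m).2 * (b m).2) (Finset.mem_univ m₀),
      ← Finset.add_sum_erase Finset.univ (fun m => (Function.update c m₀ v' m).1 * (b m).1 +
      (Function.update c m₀ v' m).2 * (b m).2) (Finset.mem_univ m₀)]
    have h3 : ∑ i ∈ Finset.univ.erase m₀, ((Function.update c m₀ v i).1 * (b i).1 +
        (Function.update c m₀ v i).2 * (b i).2) = ∑ i ∈ Finset.univ.erase m₀,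
        ((Function.update c m₀ v' i).1 * (b i).1 + (Function.update c m₀ v' i).2 * (b i).2) := by
      refine Finset.sum_congr rfl fun i hi => ?_
      rw [Function.update_of_ne (Finset.ne_of_mem_erase hi),
        Function.update_of_ne (Finset.ne_of_mem_erase hi)]
    rw [h3]
    simp only [Function.update_self, Prod.fst_sub, Prod.snd_sub]
    ring
  have h3 : W960.HR.iw (Function.update c m₀ v) b = W960.HR.iw (Function.update c m₀ v') b +
      ((v - v').1 * (b m₀).2 - (v - v').2 * (b m₀).1) := by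
    unfold W960.HR.iw
    rw [← Finset.add_sum_erase Finset.univ (fun m => (Function.update c m₀ v m).1 * (b m).2 -
      (Function.update c m₀ v m).2 * (b m).1) (Finset.mem_univ m₀),
      ← Finset.add_sum_erase Finset.univ (fun m => (Function.update c m₀ v' m).1 * (b m).2 -
      (Function.update c m₀ v' m).2 * (b m).1) (Finset.mem_univ m₀)]
    have h3 : ∑ i ∈ Finset.univ.erase m₀, ((Function.update c m₀ v i).1 * (b i).2 -
        (Function.update c m₀ v i).2 * (b i).1) = ∑ i ∈ Finset.univ.erase m₀,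
        ((Function.update c m₀ v' i).1 * (b i).2 - (Function.update c m₀ v' i).2 * (b i).1) := by
      refine Finset.sum_congr rfl fun i hi => ?_
      rw [Function.update_of_ne (Finset.ne_of_mem_erase hi),
        Function.update_of_ne (Finset.ne_of_mem_erase hi)]
    rw [h3]
    simp only [Function.update_self, Prod.fst_sub, Prod.snd_sub]
    ring
  have h4 : (⟨W960.HR.ip (Function.update c m₀ v) b, W960.HR.iw (Function.update c m₀ v) b⟩ : ℂ) =
      ⟨W960.HR.ip (Function.update c m₀ v') b, W960.HR.iw (Function.update c m₀ v') b⟩ +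
      ⟨(v - v').1 * (b m₀).1 + (v - v').2 * (b m₀).2,
        (v - v').1 * (b m₀).2 - (v - v').2 * (b m₀).1⟩ := by
    rw [h2, h3]
    apply Complex.ext <;> simp
  rw [h1, h1, h4]
  refine (norm_add_le _ _).trans (add_le_add le_rfl (le_of_eq ?_))
  rw [Complex.norm_eq_sqrt_sq_add_sq]
  unfold en
  rw [← Real.sqrt_mul (by positivity)]
  congr 1
  ring

lemma xx_update (c b : S → ℝ × ℝ) (m₀ : S) (v : ℝ × ℝ) :
    xx (Function.update c m₀ v) b ≤ xx (Function.update c m₀ 0) b + en v * en (b m₀) := by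
  have := xx_update' c b m₀ v 0
  rwa [sub_zero] at this

lemma xx_zero (c b : S → ℝ × ℝ) (m₀ : S) :
    xx (Function.update c m₀ 0) b ≤ xx c b + en (c m₀) * en (b m₀) := by
  have h := xx_update' c b m₀ 0 (c m₀)
  rw [Function.update_eq_self, zero_sub] at h
  have e : en (-(c m₀)) = en (c m₀) := by unfold en; simp
  rwa [e] at h

lemma en_le (b : S → ℝ × ℝ) (m : S) : en (b m) ≤ √(sn b) := by
  apply Real.le_sqrt_of_sq_le
  rw [en_sq]
  unfold sn
  exact Finset.single_le_sum (f := fun m => H709R2.sq (b m))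
    (fun m _ => H709R2.sq_nonneg' (b m)) (Finset.mem_univ m)

/-- the bound for the weight -/
def KK (b : S → ℝ × ℝ) (m₀ : S) (c : S → ℝ × ℝ) : ℝ :=
  √(1 + xx (Function.update c m₀ 0) b) + (3 / 2 * √(sn b) + 1 / 2)

lemma weight_dens (b c : S → ℝ × ℝ) (m₀ : S) (v : ℝ × ℝ) :
    √(1 + xx (Function.update c m₀ (b m₀ + v)) b) * dens v ≤ KK b m₀ c / 6 := by
  set β := √(sn b) with hβ
  have hβ0 : 0 ≤ β := Real.sqrt_nonneg _
  have hb := en_le b m₀
  rw [← hβ] at hb
  set x := xx (Function.update c m₀ 0) b with hx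
  have hx0 : 0 ≤ x := xx_nonneg _ _
  have h1 := xx_update c b m₀ (b m₀ + v)
  have h2 := en_add_le (b m₀) v
  have hv0 := en_nonneg v
  have hb0 := en_nonneg (b m₀)
  have h3 : √(1 + xx (Function.update c m₀ (b m₀ + v)) b) ≤
      √(1 + x) + (3 / 2 * β + en v / 2) := by
    rw [Real.sqrt_le_iff]
    refine ⟨by positivity, ?_⟩
    have h4 : √(1 + x) ^ 2 = 1 + x := Real.sq_sqrt (by linarith)
    have h5 : en (b m₀ + v) * en (b m₀) ≤ (β + en v) * β :=
      mul_le_mul (h2.trans (by linarith)) hb hb0 (by positivity)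
    have h6 : 0 ≤ √(1 + x) * (3 / 2 * β + en v / 2) := by positivity
    nlinarith [mul_nonneg hβ0 hv0, sq_nonneg (en v)]
  obtain ⟨d1, d2⟩ := dens_le v
  have hd := dens_nonneg v
  have h7 : 0 ≤ √(1 + x) := Real.sqrt_nonneg _
  calc √(1 + xx (Function.update c m₀ (b m₀ + v)) b) * dens v
      ≤ (√(1 + x) + (3 / 2 * β + en v / 2)) * dens v := by gcongr
    _ = (√(1 + x) + 3 / 2 * β) * dens v + (en v * dens v) / 2 := by ring
    _ ≤ (√(1 + x) + 3 / 2 * β) * (1 / 6) + (1 / 6) / 2 := by gcongr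
    _ = KK b m₀ c / 6 := by unfold KK; rw [← hx, ← hβ]; ring

lemma measurable_w (b : S → ℝ × ℝ) : Measurable fun c : S → ℝ × ℝ => ENNReal.ofReal √(1 + xx c b) :=
  ENNReal.measurable_ofReal.comp ((continuous_const.add (continuous_xx b)).sqrt.measurable)

lemma fibre (b c : S → ℝ × ℝ) (m₀ : S) {B : Set (ℝ × ℝ)} (hB : MeasurableSet B) :
    ∫⁻ v in B, ENNReal.ofReal √(1 + xx (Function.update c m₀ v) b) ∂law b m₀ ≤
      ENNReal.ofReal (KK b m₀ c / 6) * volume B := by
  have hm : Measurable fun v : ℝ × ℝ => B.indicator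
      (fun v => ENNReal.ofReal √(1 + xx (Function.update c m₀ v) b)) v :=
    ((measurable_w b).comp (measurable_update c)).indicator hB
  rw [← lintegral_indicator hB, lintegral_law b m₀ hm]
  have h1 : ∀ v : ℝ × ℝ, ENNReal.ofReal (dens v) * B.indicator
      (fun v => ENNReal.ofReal √(1 + xx (Function.update c m₀ v) b)) (b m₀ + v) ≤
      ((fun v => b m₀ + v) ⁻¹' B).indicator (fun _ => ENNReal.ofReal (KK b m₀ c / 6)) v := by
    intro v
    by_cases hv : b m₀ + v ∈ B
    · rw [indicator_of_mem hv, indicator_of_mem (show v ∈ (fun v => b m₀ + v) ⁻¹' B from hv),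
        ← ENNReal.ofReal_mul (dens_nonneg v)]
      apply ENNReal.ofReal_le_ofReal
      rw [mul_comm]
      exact weight_dens b c m₀ v
    · rw [indicator_of_notMem hv, mul_zero]
      exact zero_le
  refine (lintegral_mono h1).trans ?_
  rw [lintegral_indicator (hB.preimage (by fun_prop)), setLIntegral_const, measure_preimage_add]

end

end Pool.Agent.TH275.RF
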