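import Pool.Agent.TH275.RF.GaussW

/-! The weighted mean number of zeros of a Gaussian field with an arbitrary centre. -/

open Set MeasureTheory Topology Filter ProbabilityTheory
open scoped ENNReal

namespace Pool.Agent.TH275.RF

noncomputable section

open Pool.Agent
open Pool.Agent.H709R2 (fld g2)
open Pool.Agent.W960.HR (NZ xx xx_nonneg sn sn_nonneg gb GP continuous_xx mean_weight dens_gb
  mom_g2 weighted_all)

variable {S : Finset (ℕ × ℕ)}

/-- bound for the second moment of a coefficient -/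
def s2 (b : S → ℝ × ℝ) (m : S) : ℝ := 2 * H709R2.sq (b m) + 4

lemma s2_pos (b : S → ℝ × ℝ) (m : S) : 0 < s2 b m := by
  have := H709R2.sq_nonneg' (b m)
  unfold s2
  linarith

lemma sec_law (b : S → ℝ × ℝ) (m : S) :
    ∫⁻ v, ENNReal.ofReal (en v ^ 2) ∂law b m ≤ ENNReal.ofReal (s2 b m) := by
  have hme : Measurable fun v : ℝ × ℝ => ENNReal.ofReal (en v ^ 2) :=
    ENNReal.measurable_ofReal.comp (continuous_en.pow 2).measurable
  unfold law
  rw [lintegral_map hme (by fun_prop)]
  have h0 := H709R2.sq_nonneg' (b m)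
  have h1 : ∀ v : ℝ × ℝ, ENNReal.ofReal (en (b m + v) ^ 2) ≤
      ENNReal.ofReal (2 * H709R2.sq (b m)) +
        ENNReal.ofReal 2 * ENNReal.ofReal (v.1 ^ 2 + v.2 ^ 2) := by
    intro v
    rw [← ENNReal.ofReal_mul (by norm_num), ← ENNReal.ofReal_add (by linarith) (by positivity)]
    apply ENNReal.ofReal_le_ofReal
    rw [en_sq]
    unfold H709R2.sq
    simp only [Prod.fst_add, Prod.snd_add]
    nlinarith [sq_nonneg ((b m).1 - v.1), sq_nonneg ((b m).2 - v.2)]
  refine (lintegral_mono h1).trans ?_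
  rw [lintegral_add_left measurable_const, lintegral_const, measure_univ, mul_one,
    lintegral_const_mul' _ _ ENNReal.ofReal_ne_top]
  refine (add_le_add le_rfl (mul_le_mul_right (mom_g2 (S := S) m) _)).trans ?_
  rw [← ENNReal.ofReal_mul (by norm_num), ← ENNReal.ofReal_add (by linarith) (by positivity)]
  apply ENNReal.ofReal_le_ofReal
  unfold s2
  linarith

lemma mo_law (b : S → ℝ × ℝ) (m : S) : mo (law b m) ≤ ENNReal.ofReal √(s2 b m) := by
  refine weighted_all (law b m) (k := en) (Real.sqrt_pos.2 (s2_pos b m)) ?_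
  rw [Real.sq_sqrt (s2_pos b m).le]
  exact sec_law b m

lemma sq_le_sn (b : S → ℝ × ℝ) (m : S) : H709R2.sq (b m) ≤ sn b := by
  unfold sn
  exact Finset.single_le_sum (f := fun m => H709R2.sq (b m))
    (fun m _ => H709R2.sq_nonneg' (b m)) (Finset.mem_univ m)

/-- the mean of the weight without one coefficient -/
lemma mean_weight' (b : S → ℝ × ℝ) (m₀ : S) :
    ∫⁻ c, ENNReal.ofReal (√(1 + xx (Function.update c m₀ 0) b) ^ 2) ∂gb b ≤
      ENNReal.ofReal ((5 / 2 * (1 + √(sn b))) ^ 2) := by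
  set β := √(sn b) with hβ
  have hβ0 : 0 ≤ β := Real.sqrt_nonneg _
  have hβ2 : β ^ 2 = sn b := Real.sq_sqrt (sn_nonneg b)
  have h1 : ∀ c : S → ℝ × ℝ, ENNReal.ofReal (√(1 + xx (Function.update c m₀ 0) b) ^ 2) ≤
      ENNReal.ofReal (1 + xx c b) + ENNReal.ofReal β * ENNReal.ofReal (en (c m₀)) := by
    intro c
    have h0 := xx_nonneg (Function.update c m₀ 0) b
    have h0' := xx_nonneg c b
    have h0'' := en_nonneg (c m₀)
    rw [Real.sq_sqrt (by linarith), ← ENNReal.ofReal_mul hβ0,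
      ← ENNReal.ofReal_add (by linarith) (by positivity)]
    apply ENNReal.ofReal_le_ofReal
    have h2 := xx_zero c b m₀
    have h3 := mul_le_mul_of_nonneg_left (en_le b m₀) h0''
    rw [← hβ] at h3
    linarith
  have hm : Measurable fun c : S → ℝ × ℝ => ENNReal.ofReal (1 + xx c b) :=
    ENNReal.measurable_ofReal.comp (continuous_const.add (continuous_xx b)).measurable
  refine (lintegral_mono h1).trans ?_
  rw [lintegral_add_left hm, lintegral_const_mul' _ _ ENNReal.ofReal_ne_top]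
  have h2 : ∫⁻ c : S → ℝ × ℝ, ENNReal.ofReal (en (c m₀)) ∂gb b ≤
      ENNReal.ofReal (3 / 2 * β + 2) := by
    have hme : Measurable fun v : ℝ × ℝ => ENNReal.ofReal (en v) :=
      ENNReal.measurable_ofReal.comp continuous_en.measurable
    have h3 := (measurePreserving_eval (law b) m₀).lintegral_comp hme
    have h4 : ∫⁻ c : S → ℝ × ℝ, ENNReal.ofReal (en (c m₀)) ∂gb b = mo (law b m₀) := h3
    rw [h4]
    refine (mo_law b m₀).trans (ENNReal.ofReal_le_ofReal ?_)
    rw [Real.sqrt_le_iff]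
    refine ⟨by positivity, ?_⟩
    have h5 := sq_le_sn b m₀
    rw [← hβ2] at h5
    unfold s2
    nlinarith
  have h3 := mean_weight b
  rw [← hβ] at h3
  refine (add_le_add h3 (mul_le_mul_right h2 _)).trans ?_
  rw [← ENNReal.ofReal_mul hβ0, ← ENNReal.ofReal_add (by positivity) (by positivity)]
  apply ENNReal.ofReal_le_ofReal
  nlinarith

lemma measurable_upd (m₀ : S) :
    Measurable fun c : S → ℝ × ℝ => Function.update c m₀ (0 : ℝ × ℝ) := by
  refine measurable_pi_lambda _ fun i => ?_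
  by_cases hi : i = m₀
  · subst hi
    simp only [Function.update_self]
    exact measurable_const
  · simp only [Function.update_of_ne hi]
    exact measurable_pi_apply i

lemma KK_nonneg (b c : S → ℝ × ℝ) (m₀ : S) : 0 ≤ KK b m₀ c := by
  unfold KK
  positivity

/-- the contribution of one pair of coefficients -/
lemma pair_w (b : S → ℝ × ℝ) (m₀ m m' : S) :
    ∫⁻ c, ENNReal.ofReal (KK b m₀ c) * ENNReal.ofReal
      |cr (Function.update c m₀ 0 m) (Function.update c m₀ 0 m')| ∂gb b ≤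
      ENNReal.ofReal (4 * (1 + √(sn b)) * (√(s2 b m) * √(s2 b m'))) := by
  set β := √(sn b) with hβ
  have hβ0 : 0 ≤ β := Real.sqrt_nonneg _
  have hs : 0 < √(s2 b m) := Real.sqrt_pos.2 (s2_pos b m)
  have hs' : 0 < √(s2 b m') := Real.sqrt_pos.2 (s2_pos b m')
  have hzero : (m = m₀ ∨ m' = m₀ ∨ m = m') → ∀ c : S → ℝ × ℝ,
      cr (Function.update c m₀ 0 m) (Function.update c m₀ 0 m') = 0 := by
    rintro (h | h | h) c
    · rw [h, Function.update_self]; simp [cr]
    · rw [h, Function.update_self]; simp [cr]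
    · rw [h, cr_self]
  by_cases hcase : m = m₀ ∨ m' = m₀ ∨ m = m'
  · have h1 := hzero hcase
    simp only [h1, abs_zero, ENNReal.ofReal_zero, mul_zero, lintegral_zero]
    exact zero_le
  push Not at hcase
  obtain ⟨hm, hm', hmm⟩ := hcase
  have hen2 : Measurable fun v : ℝ × ℝ => ENNReal.ofReal (en v ^ 2) :=
    ENNReal.measurable_ofReal.comp (continuous_en.pow 2).measurable
  have hen : Measurable fun v : ℝ × ℝ => ENNReal.ofReal (en v) :=
    ENNReal.measurable_ofReal.comp continuous_en.measurable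
  have hy2 : ∫⁻ c : S → ℝ × ℝ, ENNReal.ofReal ((en (c m) * en (c m')) ^ 2) ∂gb b ≤
      ENNReal.ofReal ((√(s2 b m) * √(s2 b m')) ^ 2) := by
    have h1 : ∀ c : S → ℝ × ℝ, ENNReal.ofReal ((en (c m) * en (c m')) ^ 2) =
        ENNReal.ofReal (en (c m) ^ 2) * ENNReal.ofReal (en (c m') ^ 2) := by
      intro c
      rw [mul_pow, ENNReal.ofReal_mul (by positivity)]
    simp only [h1]
    rw [gb_eq, lintegral_two (law b) hen2 hen2 hmm, mul_pow, Real.sq_sqrt (s2_pos b m).le,
      Real.sq_sqrt (s2_pos b m').le, ENNReal.ofReal_mul (s2_pos b m).le]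
    exact mul_le_mul' (sec_law b m) (sec_law b m')
  have hy1 : ∫⁻ c : S → ℝ × ℝ, ENNReal.ofReal (en (c m) * en (c m')) ∂gb b ≤
      ENNReal.ofReal (√(s2 b m) * √(s2 b m')) := by
    have h1 : ∀ c : S → ℝ × ℝ, ENNReal.ofReal (en (c m) * en (c m')) =
        ENNReal.ofReal (en (c m)) * ENNReal.ofReal (en (c m')) := by
      intro c
      rw [ENNReal.ofReal_mul (en_nonneg _)]
    simp only [h1]
    rw [gb_eq, lintegral_two (law b) hen hen hmm, ENNReal.ofReal_mul hs.le]
    exact mul_le_mul' (mo_law b m) (mo_law b m')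
  have hxm : Measurable fun c : S → ℝ × ℝ => √(1 + xx (Function.update c m₀ 0) b) :=
    ((continuous_const.add (continuous_xx b)).sqrt.measurable).comp (measurable_upd m₀)
  have hcs := cs (gb b) (x := fun c => √(1 + xx (Function.update c m₀ 0) b))
    (y := fun c => en (c m) * en (c m')) hxm (T := 5 / 2 * (1 + β)) (by positivity)
    (R := √(s2 b m) * √(s2 b m')) (by positivity) (mean_weight' b m₀) hy2
  have h2 : ∀ c : S → ℝ × ℝ, ENNReal.ofReal (KK b m₀ c) * ENNReal.ofReal
      |cr (Function.update c m₀ 0 m) (Function.update c m₀ 0 m')| ≤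
      ENNReal.ofReal (√(1 + xx (Function.update c m₀ 0) b) * (en (c m) * en (c m'))) +
      ENNReal.ofReal (3 / 2 * β + 1 / 2) * ENNReal.ofReal (en (c m) * en (c m')) := by
    intro c
    have e1 := en_nonneg (c m)
    have e2 := en_nonneg (c m')
    rw [Function.update_of_ne hm, Function.update_of_ne hm', ← ENNReal.ofReal_mul (KK_nonneg _ _ _),
      ← ENNReal.ofReal_mul (by positivity), ← ENNReal.ofReal_add (by positivity) (by positivity)]
    apply ENNReal.ofReal_le_ofReal
    have h3 := mul_le_mul_of_nonneg_left (abs_cr_le (c m) (c m')) (KK_nonneg b c m₀)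
    refine h3.trans (le_of_eq ?_)
    unfold KK
    rw [← hβ]
    ring
  refine (lintegral_mono h2).trans ?_
  have hfm : Measurable fun c : S → ℝ × ℝ =>
      ENNReal.ofReal (√(1 + xx (Function.update c m₀ 0) b) * (en (c m) * en (c m'))) := by
    refine ENNReal.measurable_ofReal.comp (hxm.mul ?_)
    exact (continuous_en.measurable.comp (measurable_pi_apply m)).mul
      (continuous_en.measurable.comp (measurable_pi_apply m'))
  rw [lintegral_add_left hfm, lintegral_const_mul' _ _ ENNReal.ofReal_ne_top]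
  refine (add_le_add hcs (mul_le_mul_right hy1 _)).trans ?_
  rw [← ENNReal.ofReal_mul (by positivity), ← ENNReal.ofReal_add (by positivity) (by positivity)]
  apply ENNReal.ofReal_le_ofReal
  have h5 : 0 < √(s2 b m) * √(s2 b m') := by positivity
  nlinarith

/-- the contribution of one dominating exponential -/
lemma region_w (b : S → ℝ × ℝ) (m₀ : S) :
    ∫⁻ c, ENNReal.ofReal (KK b m₀ c / 6) * hh m₀ c ∂gb b ≤
      ENNReal.ofReal (4 / 3 * (S.card : ℝ) ^ 2 * (1 + √(sn b)) ^ 3) := by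
  set β := √(sn b) with hβ
  have hβ0 : 0 ≤ β := Real.sqrt_nonneg _
  have hβ2 : β ^ 2 = sn b := Real.sq_sqrt (sn_nonneg b)
  have hcm : ∀ m m', Measurable fun c : S → ℝ × ℝ => ENNReal.ofReal
      |cr (Function.update c m₀ 0 m) (Function.update c m₀ 0 m')| := by
    intro m m'
    refine Measurable.ennreal_ofReal ?_
    have h1 : Continuous fun w : (ℝ × ℝ) × (ℝ × ℝ) => |cr w.1 w.2| := by unfold cr; fun_prop
    exact h1.measurable.comp (((measurable_pi_apply m).comp (measurable_upd m₀)).prodMk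
      ((measurable_pi_apply m').comp (measurable_upd m₀)))
  have hKm : Measurable fun c : S → ℝ × ℝ => ENNReal.ofReal (KK b m₀ c) := by
    unfold KK
    exact ENNReal.measurable_ofReal.comp
      ((((continuous_const.add (continuous_xx b)).sqrt.measurable).comp
        (measurable_upd m₀)).add_const _)
  have h1 : ∀ c : S → ℝ × ℝ, ENNReal.ofReal (KK b m₀ c / 6) * hh m₀ c =
      ENNReal.ofReal (1 / 12) * ∑ m, ∑ m', (ENNReal.ofReal (KK b m₀ c) * ENNReal.ofReal
        |cr (Function.update c m₀ 0 m) (Function.update c m₀ 0 m')|) := by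
    intro c
    unfold hh
    simp only [← Finset.mul_sum]
    rw [← mul_assoc, ← mul_assoc, ← ENNReal.ofReal_mul (div_nonneg (KK_nonneg _ _ _) (by norm_num)),
      ← ENNReal.ofReal_mul (by norm_num : (0:ℝ) ≤ 1 / 12)]
    congr 2
    ring
  simp only [h1]
  have hprod : ∀ m m', Measurable fun c : S → ℝ × ℝ => ENNReal.ofReal (KK b m₀ c) *
      ENNReal.ofReal |cr (Function.update c m₀ 0 m) (Function.update c m₀ 0 m')| :=
    fun m m' => hKm.mul (hcm m m')
  rw [lintegral_const_mul' _ _ ENNReal.ofReal_ne_top, lintegral_finsetSum _ (fun m _ =>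
    Finset.measurable_fun_sum _ fun m' _ => hprod m m')]
  have h2 : ∀ m ∈ (Finset.univ : Finset S), ∫⁻ c, ∑ m', (ENNReal.ofReal (KK b m₀ c) *
      ENNReal.ofReal |cr (Function.update c m₀ 0 m) (Function.update c m₀ 0 m')|) ∂gb b ≤
      ∑ m', ENNReal.ofReal (4 * (1 + β) * (√(s2 b m) * √(s2 b m'))) := by
    intro m _
    rw [lintegral_finsetSum _ (fun m' _ => hprod m m')]
    exact Finset.sum_le_sum fun m' _ => pair_w b m₀ m m'
  refine (mul_le_mul_right (Finset.sum_le_sum h2) _).trans ?_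
  have h3 : ∑ m : S, ∑ m' : S, ENNReal.ofReal (4 * (1 + β) * (√(s2 b m) * √(s2 b m'))) =
      ENNReal.ofReal (4 * (1 + β) * (∑ m : S, √(s2 b m)) ^ 2) := by
    rw [sq, Finset.sum_mul_sum, Finset.mul_sum, ENNReal.ofReal_sum_of_nonneg (fun m _ => by
      have := Finset.sum_nonneg (s := Finset.univ) (fun m' (_ : m' ∈ (Finset.univ : Finset S)) =>
        mul_nonneg (Real.sqrt_nonneg (s2 b m)) (Real.sqrt_nonneg (s2 b m')))
      positivity)]
    refine Finset.sum_congr rfl fun m _ => ?_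
    rw [Finset.mul_sum, ENNReal.ofReal_sum_of_nonneg (fun m' _ => by positivity)]
  rw [h3, ← ENNReal.ofReal_mul (by norm_num)]
  apply ENNReal.ofReal_le_ofReal
  set M : ℝ := (S.card : ℝ) with hM
  have hM1 : 1 ≤ M := by
    have : 1 ≤ S.card := Finset.card_pos.2 ⟨m₀.1, m₀.2⟩
    rw [hM]
    exact_mod_cast this
  have h4 : (∑ m : S, √(s2 b m)) ^ 2 ≤ M * (2 * β ^ 2 + 4 * M) := by
    have h5 := sq_sum_le_card_mul_sum_sq (s := (Finset.univ : Finset S)) (f := fun m => √(s2 b m))
    have h6 : ∑ m : S, √(s2 b m) ^ 2 = 2 * β ^ 2 + 4 * M := by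
      rw [Finset.sum_congr rfl fun m _ => Real.sq_sqrt (s2_pos b m).le]
      unfold s2
      rw [Finset.sum_add_distrib, ← Finset.mul_sum, Finset.sum_const, Finset.card_univ,
        Fintype.card_coe, nsmul_eq_mul, hβ2]
      unfold sn
      ring
    rw [h6, Finset.card_univ, Fintype.card_coe] at h5
    exact h5
  have h7 : M * (2 * β ^ 2 + 4 * M) ≤ 4 * M ^ 2 * (1 + β) ^ 2 := by
    have h8 : 2 * β ^ 2 ≤ 2 * β ^ 2 * M := le_mul_of_one_le_right (by positivity) hM1
    have h9 : 0 ≤ M * (M * β) := by positivity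
    have h10 : 0 ≤ M * (M * β ^ 2) := by positivity
    nlinarith [mul_le_mul_of_nonneg_left h8 (by linarith : 0 ≤ M)]
  have h11 : 0 ≤ 1 + β := by linarith
  calc 1 / 12 * (4 * (1 + β) * (∑ m : S, √(s2 b m)) ^ 2)
      ≤ 1 / 12 * (4 * (1 + β) * (4 * M ^ 2 * (1 + β) ^ 2)) := by
        have := h4.trans h7
        gcongr
    _ = 4 / 3 * M ^ 2 * (1 + β) ^ 3 := by ring

/-- **The weighted mean number of zeros of a Gaussian field.** -/
theorem weighted_NZ (h00 : (0, 0) ∈ S) (b : S → ℝ × ℝ) :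
    ∫⁻ c, ENNReal.ofReal √(1 + xx c b) * NZ c ∂gb b ≤
      ENNReal.ofReal (6 * (S.card : ℝ) ^ 3 * (1 + √(sn b)) ^ 3) := by
  classical
  have : Nonempty S := ⟨⟨(0, 0), h00⟩⟩
  set β := √(sn b) with hβ
  have hβ0 : 0 ≤ β := Real.sqrt_nonneg _
  have hD : ∀ m (B : Set (ℝ × ℝ)), law b m B ≤ ENNReal.ofReal 1 * volume B := dens_gb b
  have h1 : ∀ᵐ c ∂gb b, ENNReal.ofReal √(1 + xx c b) * NZ c ≤
      ∑ s : Bool × Bool, ∑ m₀, ENNReal.ofReal √(1 + xx c b) * cnt (qs S s) (ex S) m₀ c := by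
    rw [gb_eq]
    filter_upwards [ae_ax h00 (law b) hD] with c hc
    simp only [← Finset.mul_sum]
    refine mul_le_mul_right ((NZ_le_sum c).trans ?_) _
    rw [hc]
    simp only [encard_empty, ENat.toENNReal_zero, zero_add]
    refine Finset.sum_le_sum fun s _ => ?_
    have h2 : {q | ES (qs S s) (ex S) c q = 0} ⊆
        ⋃ m₀, {q | q ∈ Rg (ex S) m₀ ∧ ES (qs S s) (ex S) c q = 0} := by
      intro q hq
      obtain ⟨m₀, hm₀⟩ := exists_Rg (ex S) q
      exact mem_iUnion.2 ⟨m₀, hm₀, hq⟩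
    refine (ENat.toENNReal_le.2 (encard_le_encard h2)).trans ((encard_iUnion_le _).trans ?_)
    exact Finset.sum_le_sum fun m _ => le_cnt _ _ m c
  have hm : ∀ s m₀, Measurable fun c => ENNReal.ofReal √(1 + xx c b) * cnt (qs S s) (ex S) m₀ c :=
    fun s m₀ => (measurable_w b).mul (measurable_cnt _ _ _)
  refine (lintegral_mono_ae h1).trans ?_
  rw [lintegral_finsetSum _ fun s _ => Finset.measurable_fun_sum _ fun m₀ _ => hm s m₀]
  have h2 : ∀ s ∈ (Finset.univ : Finset (Bool × Bool)), ∫⁻ c, ∑ m₀, ENNReal.ofReal √(1 + xx c b) *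
      cnt (qs S s) (ex S) m₀ c ∂gb b ≤
      ENNReal.ofReal (4 / 3 * (S.card : ℝ) ^ 3 * (1 + β) ^ 3) := by
    intro s _
    rw [lintegral_finsetSum _ fun m₀ _ => hm s m₀]
    have h3 : ∀ m₀ ∈ (Finset.univ : Finset S), ∫⁻ c, ENNReal.ofReal √(1 + xx c b) *
        cnt (qs S s) (ex S) m₀ c ∂gb b ≤
        ENNReal.ofReal (4 / 3 * (S.card : ℝ) ^ 2 * (1 + β) ^ 3) := by
      intro m₀ _
      rw [gb_eq]
      refine (weighted_Rg (fun m => abs_qs s m) (ex S) (law b) m₀ (measurable_w b)
        (K := fun c => ENNReal.ofReal (KK b m₀ c / 6)) (fun c B hB => fibre b c m₀ hB)).trans ?_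
      rw [← gb_eq]
      exact region_w b m₀
    refine (Finset.sum_le_card_nsmul _ _ _ h3).trans (le_of_eq ?_)
    rw [Finset.card_univ, Fintype.card_coe, nsmul_eq_mul, ← ENNReal.ofReal_natCast,
      ← ENNReal.ofReal_mul (by positivity)]
    congr 1
    ring
  refine (Finset.sum_le_card_nsmul _ _ _ h2).trans ?_
  rw [Finset.card_univ, Fintype.card_prod, Fintype.card_bool, nsmul_eq_mul,
    ← ENNReal.ofReal_natCast, ← ENNReal.ofReal_mul (by positivity)]
  apply ENNReal.ofReal_le_ofReal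
  push_cast
  have h3 : 0 ≤ (S.card : ℝ) ^ 3 * (1 + β) ^ 3 := by positivity
  nlinarith

end

end Pool.Agent.TH275.RF
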