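import Pool.Agent.TH275.RF.GaussW2

/-! Smoothed analysis for polynomial fields with few monomials. -/

open Real Set MeasureTheory Topology Filter ProbabilityTheory
open scoped ENNReal

namespace Pool.Agent.TH275.RF

noncomputable section

open Pool.Agent
open Pool.Agent.H709R2 (fld rot rotc rot_fld NP NP_smul g2 g2_eq dens dens_nonneg dens_le_one
  measurable_dens ClosedOrbit measurable_NP)
open Pool.Agent.W960.HR (Full NZ Good Phi Mk tk lk bk mk_ge tk_pos lk_ge bk_ge xx xx_nonneg sn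
  sn_nonneg gb GP continuous_xx mean_weight dens_gb mom_gb weighted_all weighted_tail prob_level
  ae_good to_rotations lintegral_gb clog_le)

variable {S : Finset (ℕ × ℕ)} {n : ℕ}

/-- the factor which depends on the number of monomials -/
def BB (n : ℕ) (S : Finset (ℕ × ℕ)) (X : ℝ) : ℝ :=
  1 + kap n S * min ((n:ℝ) ^ 2) (3 * S.card ^ 3 * X ^ 2)

lemma one_le_BB (n : ℕ) (S : Finset (ℕ × ℕ)) (X : ℝ) : 1 ≤ BB n S X := by
  unfold BB
  have : 0 ≤ (kap n S : ℝ) * min ((n:ℝ) ^ 2) (3 * S.card ^ 3 * X ^ 2) :=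
    mul_nonneg (Nat.cast_nonneg _) (le_min (by positivity) (by positivity))
  linarith

lemma weighted_NZ_min (hF : Full n S) (b : S → ℝ × ℝ) :
    ∫⁻ c, ENNReal.ofReal √(1 + xx c b) * (1 + kap n S * NZ c) ∂gb b ≤
      ENNReal.ofReal (2 * (1 + √(sn b)) * BB n S (1 + √(sn b))) := by
  have hβ0 : 0 ≤ √(sn b) := Real.sqrt_nonneg _
  set X := 1 + √(sn b) with hX
  have hX1 : 1 ≤ X := by linarith
  have hw2 : ∫⁻ c, ENNReal.ofReal ((√(1 + xx c b)) ^ 2) ∂gb b ≤ ENNReal.ofReal ((2 * X) ^ 2) := by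
    refine le_trans (le_of_eq ?_) (mean_weight b)
    refine lintegral_congr fun c => ?_
    rw [Real.sq_sqrt (by linarith [xx_nonneg c b])]
  have h1 := weighted_all (gb b) (k := fun c => √(1 + xx c b)) (s := 2 * X) (by positivity) hw2
  have h2 : ∫⁻ c, ENNReal.ofReal √(1 + xx c b) * NZ c ∂gb b ≤
      ENNReal.ofReal (2 * X * min ((n:ℝ) ^ 2) (3 * S.card ^ 3 * X ^ 2)) := by
    rcases min_choice ((n:ℝ) ^ 2) (3 * S.card ^ 3 * X ^ 2) with h | h
    · rw [h]
      have hW1 : (1:ℝ) ≤ 4 * X ^ 2 := by nlinarith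
      have h3 : ∀ᵐ c ∂gb b, NZ c ≤ (n:ℝ≥0∞) ^ 2 := by
        have h4 := ae_good hF (law b) le_rfl hW1 (dens_gb b) (mom_gb b)
        rw [← gb_eq] at h4
        filter_upwards [h4] with c hc
        obtain ⟨k, hk⟩ := hc
        exact (phi_le_bkX hF le_rfl hW1 k hk).2
      calc ∫⁻ c, ENNReal.ofReal √(1 + xx c b) * NZ c ∂gb b
          ≤ ∫⁻ c, ENNReal.ofReal √(1 + xx c b) * (n:ℝ≥0∞) ^ 2 ∂gb b := by
            refine lintegral_mono_ae ?_
            filter_upwards [h3] with c hc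
            exact mul_le_mul_right hc _
        _ ≤ ENNReal.ofReal (2 * X) * (n:ℝ≥0∞) ^ 2 := by
            rw [lintegral_mul_const' _ _ (ENNReal.pow_ne_top (ENNReal.natCast_ne_top n))]
            exact mul_le_mul_left h1 _
        _ = ENNReal.ofReal (2 * X * (n:ℝ) ^ 2) := by
            rw [ENNReal.ofReal_mul (p := 2 * X) (by positivity), ENNReal.ofReal_pow (by positivity),
              ENNReal.ofReal_natCast]
    · rw [h]
      refine (weighted_NZ hF.h00 b).trans (le_of_eq ?_)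
      rw [← hX]
      congr 1
      ring
  have h3 : ∀ c, ENNReal.ofReal √(1 + xx c b) * (1 + kap n S * NZ c) =
      ENNReal.ofReal √(1 + xx c b) + kap n S * (ENNReal.ofReal √(1 + xx c b) * NZ c) := by
    intro c
    ring
  simp only [h3]
  rw [lintegral_add_left (measurable_w b), lintegral_const_mul' _ _ (ENNReal.natCast_ne_top _)]
  refine (add_le_add h1 (mul_le_mul_right h2 _)).trans (le_of_eq ?_)
  have h4 : (0:ℝ) ≤ min ((n:ℝ) ^ 2) (3 * S.card ^ 3 * X ^ 2) := le_min (by positivity) (by positivity)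
  rw [← ENNReal.ofReal_natCast, ← ENNReal.ofReal_mul (Nat.cast_nonneg _),
    ← ENNReal.ofReal_add (by positivity) (by positivity)]
  congr 1
  unfold BB
  ring

/-- layers with an arbitrary choice of levels -/
lemma phi_le_levelsX (hF : Full n S) {D W : ℝ} (hD : 1 ≤ D) (hW : 1 ≤ W) (κ : ℕ → ℕ)
    (c : S → ℝ × ℝ) :
    Phi c ≤ ENNReal.ofReal (bk n D W (κ 0)) * (1 + kap n S * NZ c) + ∑' k : ℕ,
      {c : S → ℝ × ℝ | ¬ Good n c (Mk n W (κ k)) (tk n D W (κ k))}.indicator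
        (fun _ => ENNReal.ofReal (bk n D W (κ (k + 1)) * (2 * n ^ 3))) c := by
  have hn1 : (1:ℝ) ≤ n := by exact_mod_cast hF.one_le
  have hgood : ∀ k, Good n c (Mk n W k) (tk n D W k) →
      Phi c ≤ ENNReal.ofReal (bk n D W k * (2 * n ^ 3)) := by
    intro k hk
    obtain ⟨h3, h4⟩ := phi_le_bkX hF hD hW k hk
    refine h3.trans ?_
    have hb := bk_ge hF.one_le hD hW k
    rw [ENNReal.ofReal_mul (by linarith)]
    refine mul_le_mul_right ?_ _
    calc 1 + (kap n S:ℝ≥0∞) * NZ c ≤ 1 + (n:ℝ≥0∞) * (n:ℝ≥0∞) ^ 2 := by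
          gcongr
          exact kap_le n S
      _ = ENNReal.ofReal (1 + n * n ^ 2) := by
          rw [ENNReal.ofReal_add (by norm_num) (by positivity), ENNReal.ofReal_one,
            ENNReal.ofReal_mul (by positivity), ENNReal.ofReal_pow (by positivity),
            ENNReal.ofReal_natCast]
      _ ≤ ENNReal.ofReal (2 * n ^ 3) := by
          apply ENNReal.ofReal_le_ofReal
          have : (1:ℝ) ≤ (n:ℝ) ^ 3 := one_le_pow₀ hn1
          nlinarith
  by_cases h : ∃ k, Good n c (Mk n W (κ k)) (tk n D W (κ k))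
  · classical
    have hs := Nat.find_spec h
    have hm := fun j => Nat.find_min h (m := j)
    set k := Nat.find h with hk
    rcases Nat.eq_zero_or_pos k with h0 | h0
    · rw [h0] at hs
      exact (phi_le_bkX hF hD hW _ hs).1.trans le_self_add
    · obtain ⟨j, hj⟩ := Nat.exists_eq_add_of_le' h0
      have h1 : ¬ Good n c (Mk n W (κ j)) (tk n D W (κ j)) := hm j (by omega)
      have h2 : ENNReal.ofReal (bk n D W (κ (j + 1)) * (2 * n ^ 3)) ≤ ∑' k : ℕ,
          {c : S → ℝ × ℝ | ¬ Good n c (Mk n W (κ k)) (tk n D W (κ k))}.indicator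
            (fun _ => ENNReal.ofReal (bk n D W (κ (k + 1)) * (2 * n ^ 3))) c := by
        refine le_trans ?_ (ENNReal.le_tsum j)
        rw [indicator_of_mem
          (show c ∈ {c : S → ℝ × ℝ | ¬ Good n c (Mk n W (κ j)) (tk n D W (κ j))} from h1)]
      rw [hj] at hs
      exact (hgood _ hs).trans (h2.trans le_add_self)
  · push Not at h
    have h1 : ∑' k : ℕ, {c : S → ℝ × ℝ | ¬ Good n c (Mk n W (κ k)) (tk n D W (κ k))}.indicator
        (fun _ => ENNReal.ofReal (bk n D W (κ (k + 1)) * (2 * n ^ 3))) c = ⊤ := by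
      rw [eq_top_iff]
      have h2 : ∀ k : ℕ, (1:ℝ≥0∞) ≤
          {c : S → ℝ × ℝ | ¬ Good n c (Mk n W (κ k)) (tk n D W (κ k))}.indicator
          (fun _ => ENNReal.ofReal (bk n D W (κ (k + 1)) * (2 * n ^ 3))) c := by
        intro k
        rw [indicator_of_mem
          (show c ∈ {c : S → ℝ × ℝ | ¬ Good n c (Mk n W (κ k)) (tk n D W (κ k))} from h k)]
        rw [← ENNReal.ofReal_one]
        apply ENNReal.ofReal_le_ofReal
        have h5 := bk_ge hF.one_le hD hW (κ (k + 1))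
        have h6 : (1:ℝ) ≤ (n:ℝ) ^ 3 := one_le_pow₀ hn1
        nlinarith
      calc (⊤ : ℝ≥0∞) = ∑' _ : ℕ, (1:ℝ≥0∞) := (ENNReal.tsum_const_eq_top_of_ne_zero one_ne_zero).symm
        _ ≤ _ := ENNReal.tsum_le_tsum h2
    rw [h1]
    simp

/-- the weighted mean of the integral over the rotations -/
theorem weighted_phiX (hF : Full n S) (b : S → ℝ × ℝ) :
    ∫⁻ c, ENNReal.ofReal √(1 + xx c b) * Phi c ∂gb b ≤
      ENNReal.ofReal (2 * (1 + √(sn b)) * (304000000 * BB n S (1 + √(sn b)) *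
        (1 + Real.log (n * 1 * (4 * (1 + √(sn b)) ^ 2))))) := by
  have hn := hF.one_le
  have hn1 : (1:ℝ) ≤ n := by exact_mod_cast hn
  have hn0 : (0:ℝ) < n := by linarith
  set s : ℝ := 2 * (1 + √(sn b)) with hs
  have hβ0 : 0 ≤ √(sn b) := Real.sqrt_nonneg _
  have hs0 : 0 < s := by positivity
  set W : ℝ := 4 * (1 + √(sn b)) ^ 2 with hW
  have hW1 : 1 ≤ W := by nlinarith
  set L := Real.log (n * 1 * W) with hL
  have hL1 : Real.log n ≤ L := by
    apply Real.log_le_log hn0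
    rw [mul_one]
    exact le_mul_of_one_le_right hn0.le hW1
  have hL0 : 0 ≤ Real.log n := Real.log_nonneg hn1
  set N₀ : ℕ := 3 * Nat.clog 2 n with hN₀
  have hN1 : (N₀:ℝ) ≤ 3 + 6 * L := by
    have := clog_le hn
    rw [hN₀]
    push_cast
    linarith
  have hN2 : (n:ℝ) ^ 3 ≤ 2 ^ N₀ := by
    have h1 : n ≤ 2 ^ Nat.clog 2 n := Nat.le_pow_clog (by norm_num) n
    have h2 : (n:ℝ) ≤ 2 ^ Nat.clog 2 n := by exact_mod_cast h1
    rw [hN₀, mul_comm, pow_mul]
    gcongr
  set κ : ℕ → ℕ := fun k => N₀ + 2 * k with hκ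
  set P := gb b with hP
  have hb : ∀ k, 0 ≤ bk n 1 W k := fun k => by linarith [bk_ge hn le_rfl hW1 k]
  set E : ℕ → Set (S → ℝ × ℝ) := fun k =>
    toMeasurable P {c | ¬ Good n c (Mk n W (κ k)) (tk n 1 W (κ k))} with hE
  have hEm : ∀ k, MeasurableSet (E k) := fun k => measurableSet_toMeasurable _ _
  have hEp : ∀ k, P (E k) ≤ ENNReal.ofReal (2 / ((n:ℝ) ^ 3 * 2 ^ k) ^ 2) := by
    intro k
    rw [hE]
    simp only
    rw [measure_toMeasurable]
    have h1 : P {c | ¬ Good n c (Mk n W (κ k)) (tk n 1 W (κ k))} ≤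
        ENNReal.ofReal (2 / lk n (κ k)) :=
      prob_level hF (fun m => g2.map fun v => b m + v) le_rfl hW1 (dens_gb b) (mom_gb b) (κ k)
    refine h1.trans (ENNReal.ofReal_le_ofReal ?_)
    apply div_le_div_of_nonneg_left (by norm_num) (by positivity)
    unfold lk
    rw [hκ]
    simp only
    have h3 : ((2:ℝ) ^ k) ^ 2 = (2 ^ 2) ^ k := by rw [← pow_mul, ← pow_mul, mul_comm]
    have h4 : (2:ℝ) ^ (N₀ + 2 * k) = 2 ^ N₀ * (2 ^ 2) ^ k := by rw [pow_add, pow_mul (2:ℝ) 2 k]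
    rw [h4, mul_pow, h3]
    calc ((n:ℝ) ^ 3) ^ 2 * (2 ^ 2) ^ k = (n:ℝ) ^ 3 * ((n:ℝ) ^ 3 * (2 ^ 2) ^ k) := by ring
      _ ≤ (n:ℝ) ^ 3 * (2 ^ N₀ * (2 ^ 2) ^ k) := by gcongr
  have hw2 : ∫⁻ c, ENNReal.ofReal ((√(1 + xx c b)) ^ 2) ∂P ≤ ENNReal.ofReal (s ^ 2) := by
    refine le_trans (le_of_eq ?_) (mean_weight b)
    refine lintegral_congr fun c => ?_
    rw [Real.sq_sqrt (by linarith [xx_nonneg c b])]
  have hkm : Measurable fun c : S → ℝ × ℝ => ENNReal.ofReal √(1 + xx c b) :=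
    ENNReal.measurable_ofReal.comp ((continuous_const.add (continuous_xx b)).sqrt.measurable)
  have h1 : ∀ c : S → ℝ × ℝ, ENNReal.ofReal √(1 + xx c b) * Phi c ≤
      ENNReal.ofReal (bk n 1 W N₀) * (ENNReal.ofReal √(1 + xx c b) * (1 + kap n S * NZ c)) +
      ∑' k : ℕ, ENNReal.ofReal (bk n 1 W (κ (k + 1)) * (2 * n ^ 3)) *
        (E k).indicator (fun c => ENNReal.ofReal √(1 + xx c b)) c := by
    intro c
    have h2 := phi_le_levelsX hF le_rfl hW1 κ c
    have h3 := mul_le_mul_right h2 (ENNReal.ofReal √(1 + xx c b))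
    refine h3.trans ?_
    rw [mul_add, ← ENNReal.tsum_mul_left]
    refine add_le_add (le_of_eq ?_) (ENNReal.tsum_le_tsum fun k => ?_)
    · have e0 : κ 0 = N₀ := by simp [hκ]
      rw [e0]
      ring
    · by_cases hc : ¬ Good n c (Mk n W (κ k)) (tk n 1 W (κ k))
      · rw [indicator_of_mem
          (show c ∈ {c : S → ℝ × ℝ | ¬ Good n c (Mk n W (κ k)) (tk n 1 W (κ k))} from hc),
          indicator_of_mem (subset_toMeasurable _ _
            (show c ∈ {c : S → ℝ × ℝ | ¬ Good n c (Mk n W (κ k)) (tk n 1 W (κ k))} from hc)),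
          mul_comm]
      · rw [indicator_of_notMem
          (show c ∉ {c : S → ℝ × ℝ | ¬ Good n c (Mk n W (κ k)) (tk n 1 W (κ k))} from hc), mul_zero]
        exact zero_le
  refine (lintegral_mono h1).trans ?_
  have hTm : Measurable fun c => ∑' k : ℕ, ENNReal.ofReal (bk n 1 W (κ (k + 1)) * (2 * n ^ 3)) *
        (E k).indicator (fun c => ENNReal.ofReal √(1 + xx c b)) c :=
    Measurable.tsum fun k => (hkm.indicator (hEm k)).const_mul _
  rw [lintegral_add_right _ hTm, lintegral_const_mul' _ _ ENNReal.ofReal_ne_top,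
    lintegral_tsum fun k => ((hkm.indicator (hEm k)).const_mul _).aemeasurable]
  have hfirst : ENNReal.ofReal (bk n 1 W N₀) *
      ∫⁻ c, ENNReal.ofReal √(1 + xx c b) * (1 + kap n S * NZ c) ∂P ≤
      ENNReal.ofReal (bk n 1 W N₀ * (s * BB n S (1 + √(sn b)))) := by
    rw [ENNReal.ofReal_mul (p := bk n 1 W N₀) (hb _)]
    exact mul_le_mul_right (weighted_NZ_min hF b) _
  have hterm : ∀ k, ∫⁻ c, ENNReal.ofReal (bk n 1 W (κ (k + 1)) * (2 * n ^ 3)) *
        (E k).indicator (fun c => ENNReal.ofReal √(1 + xx c b)) c ∂P ≤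
      ENNReal.ofReal (3 * s * (bk n 1 W (κ (k + 1)) * (1 / 2) ^ k)) := by
    intro k
    rw [lintegral_const_mul' _ _ ENNReal.ofReal_ne_top, lintegral_indicator (hEm k)]
    have h2 := weighted_tail P (k := fun c => √(1 + xx c b)) (s := s) (r := (n:ℝ) ^ 3 * 2 ^ k) hs0
      (by positivity) hw2 (hEp k)
    refine (mul_le_mul_right h2 _).trans ?_
    have h3 := hb (κ (k + 1))
    rw [← ENNReal.ofReal_mul (by positivity)]
    apply ENNReal.ofReal_le_ofReal
    have h5 : (1 / 2 : ℝ) ^ k = 1 / 2 ^ k := by rw [one_div, one_div, inv_pow]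
    rw [h5]
    refine le_of_eq ?_
    field_simp
  refine (add_le_add hfirst (ENNReal.tsum_le_tsum hterm)).trans ?_
  set a : ℝ := 700000 * (34 + 32 * L + 5 * N₀) with ha
  set d : ℝ := 7000000 with hd
  have hbk : ∀ k, bk n 1 W (κ (k + 1)) = a + d * k := by
    intro k
    unfold bk
    rw [hκ, ha, hd, ← hL]
    push_cast
    ring
  have hs1 : HasSum (fun k : ℕ => ((1 / 2 : ℝ)) ^ k) 2 := hasSum_geometric_two
  have hs2 : HasSum (fun k : ℕ => (k : ℝ) * (1 / 2) ^ k) 2 := by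
    have := hasSum_coe_mul_geometric_of_norm_lt_one (r := (1 / 2 : ℝ)) (by norm_num)
    norm_num at this ⊢
    exact this
  have hsum : HasSum (fun k : ℕ => 3 * s * (bk n 1 W (κ (k + 1)) * (1 / 2) ^ k))
      (3 * s * (2 * a + 2 * d)) := by
    have h3 := ((hs1.mul_left (3 * s * a)).add (hs2.mul_left (3 * s * d)))
    have e : 3 * s * a * 2 + 3 * s * d * 2 = 3 * s * (2 * a + 2 * d) := by ring
    rw [e] at h3
    have e' : (fun k : ℕ => 3 * s * (bk n 1 W (κ (k + 1)) * (1 / 2) ^ k)) =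
        fun k : ℕ => 3 * s * a * (1 / 2) ^ k + 3 * s * d * (k * (1 / 2) ^ k) := by
      funext k
      rw [hbk]
      ring
    rw [e']
    exact h3
  have hL0' : 0 ≤ L := hL0.trans hL1
  have ha0 : 0 ≤ a := by positivity
  have hB1 := one_le_BB n S (1 + √(sn b))
  set B := BB n S (1 + √(sn b)) with hB
  rw [← ENNReal.ofReal_tsum_of_nonneg (fun k => mul_nonneg (by positivity)
    (mul_nonneg (hb _) (by positivity))) hsum.summable, hsum.tsum_eq,
    ← ENNReal.ofReal_add (mul_nonneg (hb _) (by positivity)) (by positivity)]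
  apply ENNReal.ofReal_le_ofReal
  have e1 : bk n 1 W N₀ ≤ 700000 * (39 + 62 * L) := by
    unfold bk
    rw [← hL]
    linarith
  have e2 : a ≤ 700000 * (49 + 62 * L) := by
    rw [ha]
    linarith
  have e3 : 3 * (2 * a + 2 * d) ≤ 700000 * (354 + 372 * L) * B := by
    have h3 : 3 * (2 * a + 2 * d) ≤ 700000 * (354 + 372 * L) := by
      rw [hd]
      linarith
    have h4 : 0 ≤ 700000 * (354 + 372 * L) := by positivity
    exact h3.trans (le_mul_of_one_le_right h4 hB1)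
  have e4 : bk n 1 W N₀ * B ≤ 700000 * (39 + 62 * L) * B :=
    mul_le_mul_of_nonneg_right e1 (by linarith)
  have e5 : bk n 1 W N₀ * B + 3 * (2 * a + 2 * d) ≤ 304000000 * B * (1 + L) := by
    have h5 : 0 ≤ B * L := by positivity
    nlinarith
  calc bk n 1 W N₀ * (s * B) + 3 * s * (2 * a + 2 * d) =
        s * (bk n 1 W N₀ * B + 3 * (2 * a + 2 * d)) := by ring
    _ ≤ s * (304000000 * B * (1 + L)) := mul_le_mul_of_nonneg_left e5 hs0.le

/-- **Smoothed analysis.** -/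
theorem smoothedX (hF : Full n S) (c₀ : S → ℝ × ℝ) {σ : ℝ} (hσ : 0 < σ) :
    ∫⁻ g, NP (fun m => c₀ m + σ • g m) ∂GP S ≤
      ENNReal.ofReal (6 * 10 ^ 9 * (1 + √(sn c₀) / σ) *
        (1 + Real.log (n * (1 + √(sn c₀) / σ))) * BB n S (1 + √(sn c₀) / σ)) := by
  have hn := hF.one_le
  have hn1 : (1:ℝ) ≤ n := by exact_mod_cast hn
  have hn0 : (0:ℝ) < n := by linarith
  set b : S → ℝ × ℝ := σ⁻¹ • c₀ with hb
  have hsn : √(sn b) = √(sn c₀) / σ := by
    have h1 : sn b = sn c₀ / σ ^ 2 := by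
      unfold sn H709R2.sq
      rw [Finset.sum_div]
      refine Finset.sum_congr rfl fun m _ => ?_
      simp only [hb, Pi.smul_apply, Prod.smul_fst, Prod.smul_snd, smul_eq_mul]
      field_simp
    rw [h1, Real.sqrt_div' _ (by positivity), Real.sqrt_sq hσ.le]
  have h1 : ∀ g : S → ℝ × ℝ, NP (fun m => c₀ m + σ • g m) = NP (fun m => b m + g m) := by
    intro g
    have h2 : (fun m => c₀ m + σ • g m) = σ • fun m => b m + g m := by
      funext m
      rw [Pi.smul_apply, smul_add, hb, Pi.smul_apply, smul_inv_smul₀ hσ.ne']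
    rw [h2, NP_smul hσ]
  simp only [h1]
  rw [← lintegral_gb b measurable_NP]
  refine (to_rotations b).trans ?_
  refine (mul_le_mul_right (weighted_phiX hF b) _).trans ?_
  set X : ℝ := 1 + √(sn c₀) / σ with hX
  have hX1 : 1 ≤ X := by
    have : 0 ≤ √(sn c₀) / σ := by positivity
    linarith
  rw [hsn, ← hX]
  have h4 : (4:ℝ≥0∞) = ENNReal.ofReal 4 := by norm_num
  rw [h4, ← ENNReal.ofReal_mul (by norm_num)]
  apply ENNReal.ofReal_le_ofReal
  set y : ℝ := Real.log (n * X) with hy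
  have hy0 : 0 ≤ y := Real.log_nonneg (one_le_mul_of_one_le_of_one_le hn1 hX1)
  have h5 : Real.log (n * 1 * (4 * X ^ 2)) ≤ 7 / 5 + 2 * y := by
    have h6 : (n:ℝ) * 1 * (4 * X ^ 2) ≤ 4 * (n * X) ^ 2 := by
      have : (n:ℝ) ≤ n ^ 2 := by nlinarith
      calc (n:ℝ) * 1 * (4 * X ^ 2) = 4 * (n * X ^ 2) := by ring
        _ ≤ 4 * (n ^ 2 * X ^ 2) := by gcongr
        _ = _ := by ring
    refine (Real.log_le_log (by positivity) h6).trans ?_
    rw [Real.log_mul (by norm_num) (by positivity), Real.log_pow]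
    have h7 : Real.log 4 ≤ 7 / 5 := by
      have : (4:ℝ) = 2 ^ 2 := by norm_num
      rw [this, Real.log_pow]
      have := Real.log_two_lt_d9
      push_cast
      linarith
    push_cast
    linarith
  have h8 : 1 + Real.log (n * 1 * (4 * X ^ 2)) ≤ 12 / 5 * (1 + y) := by linarith
  have hB1 := one_le_BB n S X
  set B := BB n S X with hB
  calc 4 * (2 * X * (304000000 * B * (1 + Real.log (n * 1 * (4 * X ^ 2)))))
      ≤ 4 * (2 * X * (304000000 * B * (12 / 5 * (1 + y)))) := by gcongr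
    _ ≤ 6 * 10 ^ 9 * X * (1 + y) * B := by
        have : 0 ≤ X * (1 + y) * B := by positivity
        nlinarith

end

end Pool.Agent.TH275.RF
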