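import Pool.Agent.TH275.RF.Plane

/-! The weighted expected number of zeros of a random exponential sum. -/

open Set MeasureTheory Topology Filter
open scoped ENNReal

namespace Pool.Agent.TH275.RF

noncomputable section

variable {ι : Type*} [Fintype ι]

/-- coefficients for which there is a zero in a cell -/
def AA (ε : ι → ℝ) (a : ι → ℝ × ℝ) (m₀ : ι) (k : ℕ) (j : ℤ × ℤ) : Set (ι → ℝ × ℝ) :=
  {c | ∃ q ∈ Rg a m₀ ∩ cell k j, (c, q) ∈ {w : (ι → ℝ × ℝ) × (ℝ × ℝ) | ES ε a w.1 w.2 = 0}}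

lemma measurableSet_AA (ε : ι → ℝ) (a : ι → ℝ × ℝ) (m₀ : ι) (k : ℕ) (j : ℤ × ℤ) :
    MeasurableSet (AA ε a m₀ k j) :=
  measurableSet_exists (isClosed_Rg a m₀) (isClosed_eq (continuous_ES ε a) continuous_const) k j

/-- the limit of the numbers of cells with zeros -/
def cnt (ε : ι → ℝ) (a : ι → ℝ × ℝ) (m₀ : ι) (c : ι → ℝ × ℝ) : ℝ≥0∞ :=
  liminf (fun k => ∑' j, (AA ε a m₀ k j).indicator (1 : (ι → ℝ × ℝ) → ℝ≥0∞) c) atTop

lemma measurable_cells (ε : ι → ℝ) (a : ι → ℝ × ℝ) (m₀ : ι) (k : ℕ) :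
    Measurable fun c => ∑' j, (AA ε a m₀ k j).indicator (1 : (ι → ℝ × ℝ) → ℝ≥0∞) c :=
  Measurable.tsum fun j => measurable_one.indicator (measurableSet_AA ε a m₀ k j)

lemma measurable_cnt (ε : ι → ℝ) (a : ι → ℝ × ℝ) (m₀ : ι) : Measurable (cnt ε a m₀) :=
  Measurable.liminf fun k => measurable_cells ε a m₀ k

lemma le_cnt (ε : ι → ℝ) (a : ι → ℝ × ℝ) (m₀ : ι) (c : ι → ℝ × ℝ) :
    ({q | q ∈ Rg a m₀ ∧ ES ε a c q = 0}.encard : ℝ≥0∞) ≤ cnt ε a m₀ c := by
  refine encard_le_liminf _ (fun k j => (AA ε a m₀ k j).indicator 1 c) ?_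
  rintro k j ⟨q, ⟨hq1, hq2⟩, hq3⟩
  rw [indicator_of_mem]
  · rfl
  · exact ⟨q, ⟨hq1, hq3⟩, hq2⟩

lemma mul_liminf_le (w : ℝ≥0∞) (f : ℕ → ℝ≥0∞) :
    w * liminf f atTop ≤ liminf (fun k => w * f k) atTop := by
  rw [liminf_eq_iSup_iInf_of_nat, liminf_eq_iSup_iInf_of_nat, ENNReal.mul_iSup]
  refine iSup_mono fun n => ?_
  refine le_iInf₂ fun i hi => ?_
  exact mul_le_mul_right (iInf₂_le i hi) _

/-- determinants of pairs of coefficients -/
def hh [DecidableEq ι] (m₀ : ι) (c : ι → ℝ × ℝ) : ℝ≥0∞ :=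
  ENNReal.ofReal (1 / 2) * ∑ m, ∑ m', ENNReal.ofReal
    |cr (Function.update c m₀ 0 m) (Function.update c m₀ 0 m')|

/-- weighted count of the zeros in the region where the exponential `m₀` dominates -/
theorem weighted_Rg [DecidableEq ι] {ε : ι → ℝ} (hε : ∀ m, |ε m| = 1) (a : ι → ℝ × ℝ)
    (μ : ι → Measure (ℝ × ℝ)) [∀ m, IsProbabilityMeasure (μ m)] (m₀ : ι)
    {w : (ι → ℝ × ℝ) → ℝ≥0∞} (hw : Measurable w) {K : (ι → ℝ × ℝ) → ℝ≥0∞}
    (hK : ∀ c (B : Set (ℝ × ℝ)), MeasurableSet B →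
      ∫⁻ v in B, w (Function.update c m₀ v) ∂μ m₀ ≤ K c * volume B) :
    ∫⁻ c, w c * cnt ε a m₀ c ∂Measure.pi μ ≤ ∫⁻ c, K c * hh m₀ c ∂Measure.pi μ := by
  have hfib : ∀ k (c : ι → ℝ × ℝ), ∑' j, ∫⁻ v, w (Function.update c m₀ v) *
      (AA ε a m₀ k j).indicator 1 (Function.update c m₀ v) ∂μ m₀ ≤ K c * hh m₀ c := by
    intro k c
    set c' := Function.update c m₀ 0 with hc'
    have h1 : ∀ j, ∫⁻ v, w (Function.update c m₀ v) *
        (AA ε a m₀ k j).indicator 1 (Function.update c m₀ v) ∂μ m₀ ≤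
        K c * ∫⁻ q in Rg a m₀ ∩ cell k j, ENNReal.ofReal |(GD ε a m₀ c' q).det| := by
      intro j
      have hpre : MeasurableSet {v : ℝ × ℝ | Function.update c m₀ v ∈ AA ε a m₀ k j} :=
        (measurable_update c (a := m₀)) (measurableSet_AA ε a m₀ k j)
      have e1 : (fun v => w (Function.update c m₀ v) *
          (AA ε a m₀ k j).indicator (1 : (ι → ℝ × ℝ) → ℝ≥0∞) (Function.update c m₀ v)) =
          {v : ℝ × ℝ | Function.update c m₀ v ∈ AA ε a m₀ k j}.indicator
            (fun v => w (Function.update c m₀ v)) := by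
        funext v
        by_cases hv : Function.update c m₀ v ∈ AA ε a m₀ k j
        · rw [indicator_of_mem hv,
            indicator_of_mem (show v ∈ {v : ℝ × ℝ | Function.update c m₀ v ∈ AA ε a m₀ k j} from hv),
            Pi.one_apply, mul_one]
        · rw [indicator_of_notMem hv, indicator_of_notMem
            (show v ∉ {v : ℝ × ℝ | Function.update c m₀ v ∈ AA ε a m₀ k j} from hv), mul_zero]
      rw [e1, lintegral_indicator hpre]
      refine (hK c _ hpre).trans ?_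
      gcongr
      have hsub : {v : ℝ × ℝ | Function.update c m₀ v ∈ AA ε a m₀ k j} ⊆
          (fun q => -GG ε a m₀ c' q) '' (Rg a m₀ ∩ cell k j) := by
        rintro v ⟨q, hq, hz⟩
        refine ⟨q, hq, ?_⟩
        have hz' : ES ε a (Function.update c m₀ v) q = 0 := hz
        rw [ES_update hε] at hz'
        have hne : ε m₀ * Real.exp (ip (a m₀) q) ≠ 0 := by
          apply mul_ne_zero _ (Real.exp_pos _).ne'
          intro h0
          have := hε m₀
          rw [h0, abs_zero] at this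
          norm_num at this
        have h2 := (smul_eq_zero.1 hz').resolve_left hne
        exact (eq_neg_of_add_eq_zero_left h2).symm
      refine (measure_mono hsub).trans ?_
      refine (addHaar_image_le_lintegral_abs_det_fderiv volume (f' := fun q => -GD ε a m₀ c' q)
        ((isClosed_Rg a m₀).measurableSet.inter (measurableSet_cell k j))
        (fun q _ => (hasFDerivAt_GG ε a m₀ c' q).neg.hasFDerivWithinAt)).trans (le_of_eq ?_)
      refine lintegral_congr fun q => ?_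
      congr 2
      rw [det_plane, det_plane]
      simp only [neg_apply, Prod.fst_neg, Prod.snd_neg]
      ring
    refine (ENNReal.tsum_le_tsum h1).trans ?_
    rw [ENNReal.tsum_mul_left]
    gcongr
    rw [← lintegral_iUnion (fun j => (isClosed_Rg a m₀).measurableSet.inter (measurableSet_cell k j))
      (fun i j hij => ((disjoint_cell k hij).inter_left' _).inter_right' _), ← inter_iUnion,
      iUnion_cell, inter_univ]
    exact lintegral_det hε a m₀ c'
  have hGi : ∀ k, ∫⁻ c, w c * ∑' j, (AA ε a m₀ k j).indicator (1 : (ι → ℝ × ℝ) → ℝ≥0∞) c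
      ∂Measure.pi μ ≤ ∫⁻ c, K c * hh m₀ c ∂Measure.pi μ := by
    intro k
    have hm : ∀ j, Measurable fun c => w c * (AA ε a m₀ k j).indicator (1 : (ι → ℝ × ℝ) → ℝ≥0∞) c :=
      fun j => hw.mul (measurable_one.indicator (measurableSet_AA ε a m₀ k j))
    have e1 : ∫⁻ c, w c * ∑' j, (AA ε a m₀ k j).indicator (1 : (ι → ℝ × ℝ) → ℝ≥0∞) c
        ∂Measure.pi μ = ∫⁻ c, ∑' j, (∫⁻ v, w (Function.update c m₀ v) *
          (AA ε a m₀ k j).indicator 1 (Function.update c m₀ v) ∂μ m₀) ∂Measure.pi μ := by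
      simp only [← ENNReal.tsum_mul_left]
      rw [lintegral_tsum fun j => (hm j).aemeasurable, lintegral_tsum]
      · congr 1
        funext j
        exact resample μ (hm j) m₀
      · intro j
        have h1 : Measurable fun q : (ι → ℝ × ℝ) × (ℝ × ℝ) => w (Function.update q.1 m₀ q.2) *
            (AA ε a m₀ k j).indicator (1 : (ι → ℝ × ℝ) → ℝ≥0∞) (Function.update q.1 m₀ q.2) :=
          (hm j).comp measurable_update'
        exact h1.lintegral_prod_right'.aemeasurable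
    rw [e1]
    exact lintegral_mono (hfib k)
  calc ∫⁻ c, w c * cnt ε a m₀ c ∂Measure.pi μ
      ≤ ∫⁻ c, liminf (fun k => w c * ∑' j, (AA ε a m₀ k j).indicator
          (1 : (ι → ℝ × ℝ) → ℝ≥0∞) c) atTop ∂Measure.pi μ :=
        lintegral_mono fun c => mul_liminf_le _ _
    _ ≤ liminf (fun k => ∫⁻ c, w c * ∑' j, (AA ε a m₀ k j).indicator
          (1 : (ι → ℝ × ℝ) → ℝ≥0∞) c ∂Measure.pi μ) atTop :=
        lintegral_liminf_le fun k => hw.mul (measurable_cells ε a m₀ k)
    _ ≤ ∫⁻ c, K c * hh m₀ c ∂Measure.pi μ := by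
        refine liminf_le_of_le (by isBoundedDefault) fun b hb => ?_
        obtain ⟨k, hk⟩ := hb.exists
        exact hk.trans (hGi k)

end

end Pool.Agent.TH275.RF
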