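import Pool.Agent.TH275.RF.ExpSum

/-! The expected number of zeros of a random exponential sum with vector coefficients. -/

open Set MeasureTheory Topology Filter
open scoped ENNReal

namespace Pool.Agent.TH275.RF

noncomputable section

variable {ι : Type*} [Fintype ι]

/-- resampling one coordinate -/
lemma resample (μ : ι → Measure (ℝ × ℝ)) [∀ m, IsProbabilityMeasure (μ m)] [DecidableEq ι]
    {f : (ι → ℝ × ℝ) → ℝ≥0∞} (hf : Measurable f) (m : ι) :
    ∫⁻ c, f c ∂Measure.pi μ = ∫⁻ c, (∫⁻ w, f (Function.update c m w) ∂μ m) ∂Measure.pi μ := by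
  set g : (ι → ℝ × ℝ) → ℝ≥0∞ := fun c => ∫⁻ w, f (Function.update c m w) ∂μ m with hg
  have hgm : Measurable g := by
    have h1 : Measurable fun q : (ι → ℝ × ℝ) × (ℝ × ℝ) => f (Function.update q.1 m q.2) := by
      refine hf.comp ?_
      exact measurable_update'
    exact h1.lintegral_prod_right'
  rw [lintegral_eq_lmarginal_univ (0 : ι → ℝ × ℝ), lintegral_eq_lmarginal_univ (0 : ι → ℝ × ℝ),
    lmarginal_erase' f hf (Finset.mem_univ m), lmarginal_erase' g hgm (Finset.mem_univ m)]
  congr 1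
  funext c
  simp only [hg, Function.update_idem]
  rw [lintegral_const, measure_univ, mul_one]

/-- products of functions of two coordinates -/
lemma lintegral_two (μ : ι → Measure (ℝ × ℝ)) [∀ m, IsProbabilityMeasure (μ m)]
    {f g : ℝ × ℝ → ℝ≥0∞} (hf : Measurable f) (hg : Measurable g) {m m' : ι} (h : m ≠ m') :
    ∫⁻ c, f (c m) * g (c m') ∂Measure.pi μ = (∫⁻ w, f w ∂μ m) * ∫⁻ w, g w ∂μ m' := by
  classical
  have hm : Measurable fun c : ι → ℝ × ℝ => f (c m) * g (c m') :=
    (hf.comp (measurable_pi_apply m)).mul (hg.comp (measurable_pi_apply m'))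
  rw [resample μ hm m]
  have h1 : ∀ c : ι → ℝ × ℝ, ∫⁻ w, f (Function.update c m w m) * g (Function.update c m w m') ∂μ m =
      (∫⁻ w, f w ∂μ m) * g (c m') := by
    intro c
    simp only [Function.update_self, Function.update_of_ne h.symm]
    rw [lintegral_mul_const _ hf]
  simp only [h1]
  have hg' : Measurable fun c : ι → ℝ × ℝ => g (c m') := hg.comp (measurable_pi_apply m')
  rw [lintegral_const_mul _ hg']
  congr 1
  exact (measurePreserving_eval μ m').lintegral_comp hg

/-- Euclidean norm -/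
def en (v : ℝ × ℝ) : ℝ := √(v.1 ^ 2 + v.2 ^ 2)

lemma continuous_en : Continuous en := by unfold en; fun_prop

lemma abs_cr_le (u v : ℝ × ℝ) : |cr u v| ≤ en u * en v := by
  unfold en
  rw [← Real.sqrt_mul (by positivity)]
  apply Real.abs_le_sqrt
  unfold cr
  nlinarith [sq_nonneg (u.1 * v.1 + u.2 * v.2)]

lemma cr_self (u : ℝ × ℝ) : cr u u = 0 := by unfold cr; ring

/-- first moment -/
def mo (ν : Measure (ℝ × ℝ)) : ℝ≥0∞ := ∫⁻ w, ENNReal.ofReal (en w) ∂ν

lemma lintegral_cr_le (μ : ι → Measure (ℝ × ℝ)) [∀ m, IsProbabilityMeasure (μ m)] (m m' : ι) :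
    ∫⁻ c, ENNReal.ofReal |cr (c m) (c m')| ∂Measure.pi μ ≤ mo (μ m) * mo (μ m') := by
  by_cases h : m = m'
  · subst h
    simp [cr_self]
  · have hm : Measurable fun w => ENNReal.ofReal (en w) := continuous_en.measurable.ennreal_ofReal
    unfold mo
    rw [← lintegral_two μ hm hm h]
    refine lintegral_mono fun c => ?_
    rw [← ENNReal.ofReal_mul (by unfold en; positivity)]
    exact ENNReal.ofReal_le_ofReal (abs_cr_le _ _)

lemma continuous_ES (ε : ι → ℝ) (a : ι → ℝ × ℝ) :
    Continuous fun w : (ι → ℝ × ℝ) × (ℝ × ℝ) => ES ε a w.1 w.2 := by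
  unfold ES ip
  fun_prop

lemma ES_update [DecidableEq ι] {ε : ι → ℝ} (hε : ∀ m, |ε m| = 1) (a : ι → ℝ × ℝ) (m₀ : ι)
    (c : ι → ℝ × ℝ) (v q : ℝ × ℝ) :
    ES ε a (Function.update c m₀ v) q = (ε m₀ * Real.exp (ip (a m₀) q)) •
      (v + GG ε a m₀ (Function.update c m₀ 0) q) := by
  have hsq : ε m₀ * ε m₀ = 1 := by
    have := hε m₀
    rw [← abs_mul_abs_self, this, one_mul]
  have h1 : ES ε a (Function.update c m₀ v) q = (ε m₀ * Real.exp (ip (a m₀) q)) • v +
      ∑ m, (ε m * Real.exp (ip (a m) q)) • Function.update c m₀ 0 m := by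
    unfold ES
    rw [← Finset.add_sum_erase Finset.univ
      (fun m => (ε m * Real.exp (ip (a m) q)) • Function.update c m₀ v m) (Finset.mem_univ m₀),
      ← Finset.add_sum_erase Finset.univ
      (fun m => (ε m * Real.exp (ip (a m) q)) • Function.update c m₀ 0 m) (Finset.mem_univ m₀)]
    simp only [Function.update_self, smul_zero, zero_add]
    congr 1
    refine Finset.sum_congr rfl fun i hi => ?_
    rw [Function.update_of_ne (Finset.ne_of_mem_erase hi),
      Function.update_of_ne (Finset.ne_of_mem_erase hi)]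
  rw [h1, smul_add]
  congr 1
  unfold GG
  rw [Finset.smul_sum]
  refine Finset.sum_congr rfl fun m _ => ?_
  rw [smul_smul]
  congr 1
  unfold rel
  have e : ip (a m) q = ip (a m₀) q + ip (a m - a m₀) q := by
    unfold ip
    simp only [Prod.fst_sub, Prod.snd_sub]
    ring
  rw [e, Real.exp_add]
  linear_combination (-(ε m * Real.exp (ip (a m₀) q) * Real.exp (ip (a m - a m₀) q))) * hsq

/-- zeros in the region where the exponential `m₀` dominates -/
theorem zeros_Rg {ε : ι → ℝ} (hε : ∀ m, |ε m| = 1) (a : ι → ℝ × ℝ) (μ : ι → Measure (ℝ × ℝ))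
    [∀ m, IsProbabilityMeasure (μ m)] {D : ℝ≥0∞} (hD : ∀ m (B : Set (ℝ × ℝ)), μ m B ≤ D * volume B)
    (m₀ : ι) :
    ∃ g : (ι → ℝ × ℝ) → ℝ≥0∞, Measurable g ∧
      (∀ c, ({q | q ∈ Rg a m₀ ∧ ES ε a c q = 0}.encard : ℝ≥0∞) ≤ g c) ∧
      ∫⁻ c, g c ∂Measure.pi μ ≤ D * (ENNReal.ofReal (1 / 2) * (∑ m, mo (μ m)) ^ 2) := by
  classical
  set A : ℕ → ℤ × ℤ → Set (ι → ℝ × ℝ) := fun k j =>
    {c | ∃ q ∈ Rg a m₀ ∩ cell k j, (c, q) ∈ {w : (ι → ℝ × ℝ) × (ℝ × ℝ) | ES ε a w.1 w.2 = 0}}
    with hA
  have hAm : ∀ k j, MeasurableSet (A k j) := fun k j => measurableSet_exists (isClosed_Rg a m₀)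
    (isClosed_eq (continuous_ES ε a) continuous_const) k j
  set G : ℕ → (ι → ℝ × ℝ) → ℝ≥0∞ := fun k c => ∑' j, (A k j).indicator 1 c with hG
  have hGm : ∀ k, Measurable (G k) := fun k =>
    Measurable.tsum fun j => measurable_one.indicator (hAm k j)
  -- the bound on the fibres
  have hfib : ∀ k (c : ι → ℝ × ℝ), ∑' j, ∫⁻ w, (A k j).indicator 1 (Function.update c m₀ w) ∂μ m₀ ≤
      D * (ENNReal.ofReal (1 / 2) * ∑ m, ∑ m', ENNReal.ofReal
        |cr (Function.update c m₀ 0 m) (Function.update c m₀ 0 m')|) := by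
    intro k c
    set c' := Function.update c m₀ 0 with hc'
    have h1 : ∀ j, ∫⁻ w, (A k j).indicator 1 (Function.update c m₀ w) ∂μ m₀ ≤
        D * ∫⁻ q in Rg a m₀ ∩ cell k j, ENNReal.ofReal |(GD ε a m₀ c' q).det| := by
      intro j
      have hpre : MeasurableSet {w : ℝ × ℝ | Function.update c m₀ w ∈ A k j} :=
        (measurable_update c (a := m₀)) (hAm k j)
      have e1 : (fun w => (A k j).indicator (1 : (ι → ℝ × ℝ) → ℝ≥0∞) (Function.update c m₀ w)) =
          {w : ℝ × ℝ | Function.update c m₀ w ∈ A k j}.indicator 1 := by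
        funext w
        by_cases hw : Function.update c m₀ w ∈ A k j
        · rw [indicator_of_mem hw,
            indicator_of_mem (show w ∈ {w : ℝ × ℝ | Function.update c m₀ w ∈ A k j} from hw)]
          rfl
        · rw [indicator_of_notMem hw,
            indicator_of_notMem (show w ∉ {w : ℝ × ℝ | Function.update c m₀ w ∈ A k j} from hw)]
      rw [e1, lintegral_indicator_one hpre]
      refine (hD m₀ _).trans ?_
      gcongr
      have hsub : {w : ℝ × ℝ | Function.update c m₀ w ∈ A k j} ⊆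
          (fun q => -GG ε a m₀ c' q) '' (Rg a m₀ ∩ cell k j) := by
        rintro w ⟨q, hq, hz⟩
        refine ⟨q, hq, ?_⟩
        have hz' : ES ε a (Function.update c m₀ w) q = 0 := hz
        rw [ES_update hε] at hz'
        have hne : ε m₀ * Real.exp (ip (a m₀) q) ≠ 0 := by
          apply mul_ne_zero _ (Real.exp_pos _).ne'
          intro h0
          have := hε m₀
          rw [h0, abs_zero] at this
          norm_num at this
        have h2 := (smul_eq_zero.1 hz').resolve_left hne
        exact (eq_neg_of_add_eq_zero_left h2).symm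
      refine (measure_mono hsub).trans ?_
      refine (addHaar_image_le_lintegral_abs_det_fderiv volume (f' := fun q => -GD ε a m₀ c' q)
        ((isClosed_Rg a m₀).measurableSet.inter (measurableSet_cell k j))
        (fun q _ => (hasFDerivAt_GG ε a m₀ c' q).neg.hasFDerivWithinAt)).trans (le_of_eq ?_)
      refine lintegral_congr fun q => ?_
      congr 2
      rw [det_plane, det_plane]
      simp only [neg_apply, Prod.fst_neg, Prod.snd_neg]
      ring
    refine (ENNReal.tsum_le_tsum h1).trans ?_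
    rw [ENNReal.tsum_mul_left]
    gcongr
    rw [← lintegral_iUnion (fun j => (isClosed_Rg a m₀).measurableSet.inter (measurableSet_cell k j))
      (fun i j hij => ((disjoint_cell k hij).inter_left' _).inter_right' _), ← inter_iUnion,
      iUnion_cell, inter_univ]
    exact lintegral_det hε a m₀ c'
  have hcm : ∀ m m', Measurable fun c : ι → ℝ × ℝ => ENNReal.ofReal
      |cr (Function.update c m₀ 0 m) (Function.update c m₀ 0 m')| := by
    intro m m'
    refine Measurable.ennreal_ofReal ?_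
    have h1 : Continuous fun w : (ℝ × ℝ) × (ℝ × ℝ) => |cr w.1 w.2| := by unfold cr; fun_prop
    have h2 : Measurable fun c : ι → ℝ × ℝ => Function.update c m₀ (0 : ℝ × ℝ) := by
      refine measurable_pi_lambda _ fun i => ?_
      by_cases hi : i = m₀
      · subst hi
        simp only [Function.update_self]
        exact measurable_const
      · simp only [Function.update_of_ne hi]
        exact measurable_pi_apply i
    exact h1.measurable.comp (((measurable_pi_apply m).comp h2).prodMk
      ((measurable_pi_apply m').comp h2))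
  have hGi : ∀ k, ∫⁻ c, G k c ∂Measure.pi μ ≤ D * (ENNReal.ofReal (1 / 2) *
      (∑ m, mo (μ m)) ^ 2) := by
    intro k
    have e1 : ∫⁻ c, G k c ∂Measure.pi μ =
        ∫⁻ c, ∑' j, (∫⁻ w, (A k j).indicator 1 (Function.update c m₀ w) ∂μ m₀) ∂Measure.pi μ := by
      simp only [hG]
      rw [lintegral_tsum fun j => (measurable_one.indicator (hAm k j)).aemeasurable,
        lintegral_tsum]
      · congr 1
        funext j
        exact resample μ (measurable_one.indicator (hAm k j)) m₀
      · intro j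
        have h1 : Measurable fun q : (ι → ℝ × ℝ) × (ℝ × ℝ) =>
            (A k j).indicator (1 : (ι → ℝ × ℝ) → ℝ≥0∞) (Function.update q.1 m₀ q.2) :=
          (measurable_one.indicator (hAm k j)).comp measurable_update'
        exact h1.lintegral_prod_right'.aemeasurable
    rw [e1]
    refine (lintegral_mono (hfib k)).trans ?_
    rw [lintegral_const_mul _ (Measurable.const_mul (Finset.measurable_fun_sum _ fun m _ =>
      Finset.measurable_fun_sum _ fun m' _ => hcm m m') _), lintegral_const_mul _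
      (Finset.measurable_fun_sum _ fun m _ => Finset.measurable_fun_sum _ fun m' _ => hcm m m')]
    gcongr
    rw [lintegral_finsetSum _ (fun m _ => Finset.measurable_fun_sum _ fun m' _ => hcm m m'), sq,
      Finset.sum_mul_sum]
    refine Finset.sum_le_sum fun m _ => ?_
    rw [lintegral_finsetSum _ (fun m' _ => hcm m m')]
    refine Finset.sum_le_sum fun m' _ => ?_
    refine le_trans (lintegral_mono fun c => ?_) (lintegral_cr_le μ m m')
    by_cases h : m = m₀
    · rw [h, Function.update_self]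
      simp [cr]
    · by_cases h' : m' = m₀
      · rw [h', Function.update_self]
        simp [cr]
      · rw [Function.update_of_ne h, Function.update_of_ne h']
  refine ⟨fun c => liminf (fun k => G k c) atTop, Measurable.liminf hGm, fun c => ?_, ?_⟩
  · refine encard_le_liminf _ (fun k j => (A k j).indicator 1 c) ?_
    rintro k j ⟨q, ⟨hq1, hq2⟩, hq3⟩
    rw [indicator_of_mem]
    · rfl
    · exact ⟨q, ⟨hq1, hq3⟩, hq2⟩
  · refine (lintegral_liminf_le hGm).trans ?_
    refine liminf_le_of_le (by isBoundedDefault) fun b hb => ?_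
    obtain ⟨k, hk⟩ := hb.exists
    exact hk.trans (hGi k)

lemma encard_iUnion_le {α β : Type*} [Fintype β] (s : β → Set α) :
    ((⋃ b, s b).encard : ℝ≥0∞) ≤ ∑ b, ((s b).encard : ℝ≥0∞) := by
  classical
  have h : ∀ t : Finset β, ((⋃ b ∈ t, s b).encard : ℝ≥0∞) ≤ ∑ b ∈ t, ((s b).encard : ℝ≥0∞) := by
    intro t
    induction t using Finset.induction_on with
    | empty => simp
    | insert b t hb ih =>
      rw [Finset.sum_insert hb, Finset.set_biUnion_insert]
      have h1 : ((s b ∪ ⋃ x ∈ t, s x).encard : ℝ≥0∞) ≤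
          (((s b).encard + (⋃ x ∈ t, s x).encard : ℕ∞) : ℝ≥0∞) :=
        ENat.toENNReal_le.2 (encard_union_le _ _)
      rw [ENat.toENNReal_add] at h1
      exact h1.trans (add_le_add le_rfl ih)
  have := h Finset.univ
  simpa using this

/-- **The expected number of zeros of a random exponential sum** -/
theorem zeros_le [Nonempty ι] {ε : ι → ℝ} (hε : ∀ m, |ε m| = 1) (a : ι → ℝ × ℝ)
    (μ : ι → Measure (ℝ × ℝ)) [∀ m, IsProbabilityMeasure (μ m)] {D : ℝ≥0∞}
    (hD : ∀ m (B : Set (ℝ × ℝ)), μ m B ≤ D * volume B) :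
    ∃ g : (ι → ℝ × ℝ) → ℝ≥0∞, Measurable g ∧
      (∀ c, ({q | ES ε a c q = 0}.encard : ℝ≥0∞) ≤ g c) ∧
      ∫⁻ c, g c ∂Measure.pi μ ≤
        Fintype.card ι * (D * (ENNReal.ofReal (1 / 2) * (∑ m, mo (μ m)) ^ 2)) := by
  choose g hg1 hg2 hg3 using fun m₀ => zeros_Rg hε a μ hD m₀
  refine ⟨fun c => ∑ m₀, g m₀ c, Finset.measurable_fun_sum _ fun m _ => hg1 m, fun c => ?_, ?_⟩
  · have h1 : {q | ES ε a c q = 0} ⊆ ⋃ m₀, {q | q ∈ Rg a m₀ ∧ ES ε a c q = 0} := by
      intro q hq
      obtain ⟨m₀, hm₀⟩ := exists_Rg a q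
      exact mem_iUnion.2 ⟨m₀, hm₀, hq⟩
    refine (ENat.toENNReal_le.2 (encard_le_encard h1)).trans ((encard_iUnion_le _).trans ?_)
    exact Finset.sum_le_sum fun m _ => hg2 m c
  · rw [lintegral_finsetSum _ fun m _ => hg1 m]
    refine (Finset.sum_le_sum fun m _ => hg3 m).trans ?_
    rw [Finset.sum_const, Finset.card_univ, nsmul_eq_mul]

end

end Pool.Agent.TH275.RF
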